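import Pool.Agent.RCP.St

/-!
# RCP, module BIG: finitely many big holes (proved by helper27)
-/

set_option autoImplicit false

namespace RCP

open Metric RCE

theorem thm_BIG (hPK : RCE.St_PK) : St_BIG := by
  intro K ε hε
  obtain ⟨N, hN⟩ := hPK (K.r₀ / ε)
  by_contra hinf
  obtain ⟨I, hI, hcard⟩ := (show Set.Infinite {i : ℕ | ε ≤ K.r i} from hinf).exists_subset_card_eq
    (N + 1)
  have hsep : ∀ i ∈ I, ∀ j ∈ I, i ≠ j → ε ≤ ‖K.c i - K.c j‖ := by
    intro i hi j _ hij
    have h1 : K.c j ∉ closedBall (K.c i) (K.r i) := fun h =>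
      (Set.disjoint_left.1 (K.disj i j hij)) h (mem_closedBall_self (K.rpos j).le)
    have h2 : K.r i < dist (K.c j) (K.c i) := by
      rw [mem_closedBall, not_le] at h1
      exact h1
    rw [dist_comm, dist_eq_norm] at h2
    exact le_trans (hI hi) h2.le
  have hinj : Set.InjOn K.c (I : Set ℕ) := by
    intro i hi j hj hij
    by_contra hne
    have h := hsep i hi j hj hne
    rw [hij, sub_self, norm_zero] at h
    linarith
  have hle := hN K.c₀ ε (I.image K.c) hε ?_ ?_
  · rw [Finset.card_image_of_injOn hinj, hcard] at hle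
    omega
  · intro p hp q hq hpq
    obtain ⟨i, hi, rfl⟩ := Finset.mem_image.1 hp
    obtain ⟨j, hj, rfl⟩ := Finset.mem_image.1 hq
    exact hsep i hi j hj (fun h => hpq (by rw [h]))
  · intro q hq
    obtain ⟨i, _, rfl⟩ := Finset.mem_image.1 hq
    have h := K.sub i (mem_closedBall_self (K.rpos i).le)
    rw [mem_ball, dist_eq_norm] at h
    rw [div_mul_cancel₀ _ hε.ne']
    exact h.le

end RCP
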