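import Pool.Agent.RCP.St

/-!
# RCP, module CHN: chains of circles and points (MP_d2bd1a_an)
-/

set_option autoImplicit false

namespace RCP

open Metric RCE

private theorem CHN_pos (K : Cp) (j : Option ℕ) : 0 < rr K j := by
  cases j with
  | none => exact K.r₀pos
  | some i => exact K.rpos i

private theorem CHN_rad (K : Cp) (o : ℂ ⊕ Option ℕ) : 0 ≤ rad K o := by
  cases o with
  | inl z => exact le_refl _
  | inr j => exact (CHN_pos K j).le

private theorem CHN_dia (K : Cp) (o : ℂ ⊕ Option ℕ) (p q : ℂ) (hp : p ∈ os K o) (hq : q ∈ os K o) :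
    ‖p - q‖ ≤ 2 * rad K o := by
  cases o with
  | inl z =>
    have h1 : p = z := hp
    have h2 : q = z := hq
    rw [h1, h2, sub_self, norm_zero]
    exact mul_nonneg (by norm_num) (CHN_rad K _)
  | inr j =>
    have h1 : ‖p - cc K j‖ = rr K j := mem_sphere_iff_norm.1 hp
    have h2 : ‖q - cc K j‖ = rr K j := mem_sphere_iff_norm.1 hq
    have h3 : p - q = (p - cc K j) - (q - cc K j) := by ring
    rw [h3]
    refine (norm_sub_le _ _).trans ?_
    rw [h1, h2]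
    show rr K j + rr K j ≤ 2 * rr K j
    linarith

private theorem CHN_sep (K : Cp) (c : ℝ)
    (hs : ∀ i j : Option ℕ, i ≠ j → ∀ p ∈ PC K i, ∀ q ∈ PC K j, c * min (rr K i) (rr K j) ≤ ‖p - q‖)
    (o o' : ℂ ⊕ Option ℕ) (hne : o ≠ o') (hr : rad K o ≤ rad K o') (p q : ℂ) (hp : p ∈ os K o) (hq : q ∈ os K o') :
    c * rad K o ≤ ‖p - q‖ := by
  cases o with
  | inl z =>
    show c * 0 ≤ ‖p - q‖
    rw [mul_zero]
    exact norm_nonneg _
  | inr i =>
    cases o' with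
    | inl z =>
      have h1 : rr K i ≤ 0 := hr
      exact absurd (CHN_pos K i) (not_lt.2 h1)
    | inr j =>
      have h1 : rr K i ≤ rr K j := hr
      have h2 := hs i j (fun h => hne (by rw [h])) p hp q hq
      rw [min_eq_left h1] at h2
      exact h2

private theorem CHN_one (K : Cp) (c κ : ℝ) (hκ : 0 < κ)
    (hk : ∀ g₁ g₂ r g : ℝ, 0 ≤ r → c * r ≤ g₁ → c * r ≤ g₂ → 0 ≤ g → g ≤ g₁ + g₂ + 2 * r → g ^ κ ≤ g₁ ^ κ + g₂ ^ κ)
    (hs : ∀ i j : Option ℕ, i ≠ j → ∀ p ∈ PC K i, ∀ q ∈ PC K j, c * min (rr K i) (rr K j) ≤ ‖p - q‖)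
    (n : ℕ) (O : ℕ → ℂ ⊕ Option ℕ) (g : ℕ → ℝ)
    (hO : ∀ k, k < n → ∃ p ∈ os K (O k), ∃ q ∈ os K (O (k + 1)), ‖p - q‖ ≤ g k) :
    ∀ m a b : ℕ, b = a + m → a < b → b ≤ n → (∀ k, a < k → k < b → rad K (O k) ≤ rad K (O a) ∧ rad K (O k) ≤ rad K (O b)) →
      ∃ p ∈ os K (O a), ∃ q ∈ os K (O b), ‖p - q‖ ^ κ ≤ ∑ k ∈ Finset.Ico a b, (g k) ^ κ := by
  have hg : ∀ k, k < n → 0 ≤ g k := by
    intro k hk
    obtain ⟨p, _, q, _, h⟩ := hO k hk
    exact (norm_nonneg _).trans h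
  have hmono : ∀ a b a' b' : ℕ, a ≤ a' → b' ≤ b → b ≤ n →
      ∑ k ∈ Finset.Ico a' b', (g k) ^ κ ≤ ∑ k ∈ Finset.Ico a b, (g k) ^ κ := by
    intro a b a' b' h1 h2 h3
    refine Finset.sum_le_sum_of_subset_of_nonneg (Finset.Ico_subset_Ico h1 h2) ?_
    intro k hk _
    exact Real.rpow_nonneg (hg k (lt_of_lt_of_le (Finset.mem_Ico.1 hk).2 h3)) _
  intro m
  induction m using Nat.strong_induction_on with
  | _ m ih =>
    intro a b hb hab hbn hr
    rcases Nat.lt_or_ge (a + 1) b with h1 | h1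
    · obtain ⟨k, hkm, hmax⟩ := Finset.exists_max_image (Finset.Ioo a b) (fun k => rad K (O k))
        ⟨a + 1, Finset.mem_Ioo.2 ⟨by omega, h1⟩⟩
      obtain ⟨hk1, hk2⟩ := Finset.mem_Ioo.1 hkm
      obtain ⟨p, hp, p', hp', e1⟩ := ih (k - a) (by omega) a k (by omega) hk1 (by omega) (fun l hl1 hl2 =>
        ⟨(hr l hl1 (by omega)).1, hmax l (Finset.mem_Ioo.2 ⟨hl1, by omega⟩)⟩)
      obtain ⟨q', hq', q, hq, e2⟩ := ih (b - k) (by omega) k b (by omega) hk2 hbn (fun l hl1 hl2 =>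
        ⟨hmax l (Finset.mem_Ioo.2 ⟨by omega, hl2⟩), (hr l (by omega) hl2).2⟩)
      by_cases ha : O a = O k
      · refine ⟨q', ?_, q, hq, e2.trans (hmono a b k b hk1.le le_rfl hbn)⟩
        rw [ha]; exact hq'
      by_cases hb' : O k = O b
      · refine ⟨p, hp, p', ?_, e1.trans (hmono a b a k le_rfl hk2.le hbn)⟩
        rw [← hb']; exact hp'
      refine ⟨p, hp, q, hq, ?_⟩
      have f1 : c * rad K (O k) ≤ ‖p - p'‖ := by
        rw [norm_sub_rev]
        exact CHN_sep K c hs (O k) (O a) (fun h => ha h.symm) (hr k hk1 hk2).1 p' p hp' hp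
      have f2 : c * rad K (O k) ≤ ‖q' - q‖ :=
        CHN_sep K c hs (O k) (O b) hb' (hr k hk1 hk2).2 q' q hq' hq
      have f3 : ‖p - q‖ ≤ ‖p - p'‖ + ‖q' - q‖ + 2 * rad K (O k) := by
        have f4 := CHN_dia K (O k) p' q' hp' hq'
        have f5 : p - q = (p - p') + (p' - q') + (q' - q) := by ring
        have f6 := norm_add_le ((p - p') + (p' - q')) (q' - q)
        have f7 := norm_add_le (p - p') (p' - q')
        rw [← f5] at f6
        linarith
      have f8 := hk _ _ _ _ (CHN_rad K (O k)) f1 f2 (norm_nonneg (p - q)) f3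
      have f9 : ∑ l ∈ Finset.Ico a k, (g l) ^ κ + ∑ l ∈ Finset.Ico k b, (g l) ^ κ = ∑ l ∈ Finset.Ico a b, (g l) ^ κ :=
        Finset.sum_Ico_consecutive _ hk1.le hk2.le
      linarith
    · have hb1 : b = a + 1 := by omega
      subst hb1
      obtain ⟨p, hp, q, hq, h⟩ := hO a (by omega)
      refine ⟨p, hp, q, hq, ?_⟩
      rw [Nat.Ico_succ_singleton, Finset.sum_singleton]
      exact Real.rpow_le_rpow (norm_nonneg _) h hκ.le

private theorem CHN_two (K : Cp) (c κ : ℝ) (hc : 0 < c) (hκ : 0 < κ)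
    (hk : ∀ g₁ g₂ r g : ℝ, 0 ≤ r → c * r ≤ g₁ → c * r ≤ g₂ → 0 ≤ g → g ≤ g₁ + g₂ + 2 * r → g ^ κ ≤ g₁ ^ κ + g₂ ^ κ)
    (hs : ∀ i j : Option ℕ, i ≠ j → ∀ p ∈ PC K i, ∀ q ∈ PC K j, c * min (rr K i) (rr K j) ≤ ‖p - q‖)
    (n : ℕ) (O : ℕ → ℂ ⊕ Option ℕ) (g : ℕ → ℝ) (i j : Option ℕ) (hij : i ≠ j) (h0 : O 0 = Sum.inr i) (hn : O n = Sum.inr j)
    (hO : ∀ k, k < n → ∃ p ∈ os K (O k), ∃ q ∈ os K (O (k + 1)), ‖p - q‖ ≤ g k) (hle : rr K i ≤ rr K j) :
    (c * min (rr K i) (rr K j)) ^ κ ≤ ∑ k ∈ Finset.range n, (g k) ^ κ := by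
  classical
  have hex : ∃ k, O k ≠ O 0 ∧ rr K i ≤ rad K (O k) := by
    refine ⟨n, ?_, ?_⟩
    · rw [h0, hn]
      intro h
      exact hij (Sum.inr_injective h).symm
    · rw [hn]; exact hle
  obtain ⟨b, hb, hbmin⟩ : ∃ b, (O b ≠ O 0 ∧ rr K i ≤ rad K (O b)) ∧ ∀ k, k < b → ¬ (O k ≠ O 0 ∧ rr K i ≤ rad K (O k)) :=
    ⟨Nat.find hex, Nat.find_spec hex, fun k hk => Nat.find_min hex hk⟩
  have hbn : b ≤ n := by
    by_contra h
    push Not at h
    refine hbmin n h ⟨?_, ?_⟩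
    · rw [h0, hn]
      intro h
      exact hij (Sum.inr_injective h).symm
    · rw [hn]; exact hle
  have hb0 : b ≠ 0 := by
    rintro rfl
    exact hb.1 rfl
  -- the last place before `b` with the object `O 0`
  obtain ⟨a, ham, hamax⟩ := Finset.exists_max_image ((Finset.range b).filter fun k => O k = O 0) id
    ⟨0, Finset.mem_filter.2 ⟨Finset.mem_range.2 (by omega), rfl⟩⟩
  obtain ⟨ha1, ha2⟩ := Finset.mem_filter.1 ham
  have ha1 := Finset.mem_range.1 ha1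
  have hri : rad K (O a) = rr K i := by rw [ha2, h0]; rfl
  have hmid : ∀ k, a < k → k < b → rad K (O k) ≤ rr K i := by
    intro k hk1 hk2
    by_contra h
    push Not at h
    by_cases hk0 : O k = O 0
    · have := hamax k (Finset.mem_filter.2 ⟨Finset.mem_range.2 hk2, hk0⟩)
      simp only [id] at this
      omega
    · exact hbmin k hk2 ⟨hk0, h.le⟩
  obtain ⟨p, hp, q, hq, e⟩ := CHN_one K c κ hκ hk hs n O g hO (b - a) a b (by omega) ha1 hbn (fun k hk1 hk2 =>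
    ⟨by rw [hri]; exact hmid k hk1 hk2, (hmid k hk1 hk2).trans hb.2⟩)
  have h1 : c * rr K i ≤ ‖p - q‖ := by
    rw [← hri]
    exact CHN_sep K c hs (O a) (O b) (by rw [ha2]; exact fun h => hb.1 h.symm) (by rw [hri]; exact hb.2) p q hp hq
  rw [min_eq_left hle]
  refine (Real.rpow_le_rpow (mul_nonneg hc.le (CHN_pos K i).le) h1 hκ.le).trans (e.trans ?_)
  refine Finset.sum_le_sum_of_subset_of_nonneg ?_ ?_
  · intro k hk
    have := (Finset.mem_Ico.1 hk).2
    exact Finset.mem_range.2 (by omega)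
  · intro k hk _
    obtain ⟨p, _, q, _, h⟩ := hO k (Finset.mem_range.1 hk)
    exact Real.rpow_nonneg ((norm_nonneg _).trans h) _

theorem thm_CHN : St_CHN := by
  intro K c κ hc hκ _ hk hs n O g i j hij h0 hn hO
  rcases le_total (rr K i) (rr K j) with h | h
  · exact CHN_two K c κ hc hκ hk hs n O g i j hij h0 hn hO h
  · have h1 := CHN_two K c κ hc hκ hk hs n (fun k => O (n - k)) (fun k => g (n - 1 - k)) j i hij.symm
      (by simpa using hn) (by simpa using h0) (by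
        intro k hkn
        obtain ⟨p, hp, q, hq, e⟩ := hO (n - 1 - k) (by omega)
        refine ⟨q, ?_, p, ?_, ?_⟩
        · show q ∈ os K (O (n - k))
          have : n - 1 - k + 1 = n - k := by omega
          rwa [this] at hq
        · show p ∈ os K (O (n - (k + 1)))
          have : n - (k + 1) = n - 1 - k := by omega
          rwa [this]
        · show ‖q - p‖ ≤ g (n - 1 - k)
          rwa [norm_sub_rev]) h
    rw [min_comm]
    refine h1.trans (le_of_eq ?_)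
    exact Finset.sum_range_reflect (fun k => (g k) ^ κ) n

end RCP
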