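import Pool.Agent.RCP.St

/-!
# RCP: module CIR (the image of the real line under a Moebius map) (helper98)
-/

set_option autoImplicit false

namespace RCP

open Metric RCE

private theorem CIR_diff (a b c d ζ : ℂ) (h : a * d - b * c = 1) (hD : ((starRingEnd ℂ) c * d).im ≠ 0) (hq : c * ζ + d ≠ 0) :
    (a * ζ + b) / (c * ζ + d) - (a * (starRingEnd ℂ) d - b * (starRingEnd ℂ) c) / (-2 * Complex.I * (((starRingEnd ℂ) c * d).im : ℂ)) =
      ((starRingEnd ℂ) c * ζ + (starRingEnd ℂ) d) / (2 * Complex.I * (((starRingEnd ℂ) c * d).im : ℂ) * (c * ζ + d)) := by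
  have hDc : (((starRingEnd ℂ) c * d).im : ℂ) ≠ 0 := by exact_mod_cast hD
  have hX : c * (starRingEnd ℂ) d - d * (starRingEnd ℂ) c = -2 * Complex.I * (((starRingEnd ℂ) c * d).im : ℂ) := by
    apply Complex.ext
    · simp
      ring
    · simp
      ring
  have h2 : (2 * Complex.I * (((starRingEnd ℂ) c * d).im : ℂ)) ≠ 0 := by
    refine mul_ne_zero (mul_ne_zero two_ne_zero Complex.I_ne_zero) hDc
  have h3 : (-2 * Complex.I * (((starRingEnd ℂ) c * d).im : ℂ)) ≠ 0 := by
    have e : (-2 * Complex.I * (((starRingEnd ℂ) c * d).im : ℂ)) = -(2 * Complex.I * (((starRingEnd ℂ) c * d).im : ℂ)) := by ring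
    rw [e]
    exact neg_ne_zero.mpr h2
  generalize hE : (((starRingEnd ℂ) c * d).im : ℂ) = E at *
  rw [div_sub_div _ _ hq h3, div_eq_div_iff (mul_ne_zero hq h3) (mul_ne_zero h2 hq)]
  have key : (a * ζ + b) * (-2 * Complex.I * E) - (c * ζ + d) * (a * (starRingEnd ℂ) d - b * (starRingEnd ℂ) c) =
      -((starRingEnd ℂ) c * ζ + (starRingEnd ℂ) d) := by
    rw [← hX]
    linear_combination (-((starRingEnd ℂ) c * ζ + (starRingEnd ℂ) d)) * h
  rw [key]
  ring

private theorem CIR_nsq (c d ζ : ℂ) : Complex.normSq ((starRingEnd ℂ) c * ζ + (starRingEnd ℂ) d) =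
    Complex.normSq (c * ζ + d) - 4 * ((starRingEnd ℂ) c * d).im * ζ.im := by
  simp [Complex.normSq_apply]
  ring

theorem thm_CIR : St_CIR := by
  intro a b c d h hD
  set D : ℝ := ((starRingEnd ℂ) c * d).im with hDdef
  refine ⟨(a * (starRingEnd ℂ) d - b * (starRingEnd ℂ) c) / (-2 * Complex.I * (D : ℂ)), 1 / (2 * |D|), ?_, ?_, ?_⟩
  · have : 0 < |D| := abs_pos.mpr hD
    positivity
  · intro ζ hq
    rw [CIR_diff a b c d ζ h hD hq, Complex.sq_norm, Complex.sq_norm]
    have hq2 : Complex.normSq (c * ζ + d) ≠ 0 := by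
      rw [Ne, Complex.normSq_eq_zero]
      exact hq
    rw [map_div₀, map_mul, map_mul, map_mul, CIR_nsq, Complex.normSq_I, Complex.normSq_ofReal, Complex.normSq_ofNat, ← hDdef]
    have e : (1 / (2 * |D|)) ^ 2 = 1 / (4 * (D * D)) := by
      rw [div_pow, mul_pow, sq_abs]
      ring
    rw [e]
    field_simp
    ring
  · intro w hw
    by_cases hwa : w = a / c
    · exact Or.inl hwa
    · right
      have hc : c ≠ 0 := by
        intro hc
        apply hD
        rw [hDdef, hc]
        simp
      have hacw : a - c * w ≠ 0 := by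
        intro h0
        apply hwa
        rw [eq_div_iff hc]
        linear_combination (-1) * h0
      have hq : c * ((d * w - b) / (a - c * w)) + d = 1 / (a - c * w) := by
        rw [eq_div_iff hacw, add_mul, mul_assoc, div_mul_cancel₀ _ hacw]
        linear_combination h
      have hq0 : c * ((d * w - b) / (a - c * w)) + d ≠ 0 := by
        rw [hq]
        exact one_div_ne_zero hacw
      have hm : (a * ((d * w - b) / (a - c * w)) + b) / (c * ((d * w - b) / (a - c * w)) + d) = w := by
        rw [div_eq_iff hq0, hq, mul_one_div, eq_div_iff hacw, add_mul, mul_assoc, div_mul_cancel₀ _ hacw]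
        linear_combination w * h
      generalize (d * w - b) / (a - c * w) = ζ at *
      have h1 := CIR_diff a b c d ζ h hD hq0
      rw [← hDdef] at h1
      have hn : ‖w - (a * (starRingEnd ℂ) d - b * (starRingEnd ℂ) c) / (-2 * Complex.I * (D : ℂ))‖ ^ 2 =
          Complex.normSq ((starRingEnd ℂ) c * ζ + (starRingEnd ℂ) d) / (4 * (D * D) * Complex.normSq (c * ζ + d)) := by
        rw [← hm, h1, Complex.sq_norm, map_div₀, map_mul, map_mul, map_mul, Complex.normSq_I, Complex.normSq_ofReal, Complex.normSq_ofNat]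
        norm_num
      rw [hw, CIR_nsq, ← hDdef] at hn
      have hq2 : Complex.normSq (c * ζ + d) ≠ 0 := by
        rw [Ne, Complex.normSq_eq_zero]
        exact hq0
      have e : (1 / (2 * |D|)) ^ 2 = 1 / (4 * (D * D)) := by
        rw [div_pow, mul_pow, sq_abs]
        ring
      rw [e] at hn
      have him : ζ.im = 0 := by
        have h4 : (4 * (D * D)) ≠ 0 := by
          refine mul_ne_zero four_ne_zero (mul_ne_zero hD hD)
        rw [div_eq_div_iff h4 (mul_ne_zero h4 hq2)] at hn
        have h5 : 4 * (D * D) * (4 * D * ζ.im) = 0 := by linear_combination hn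
        rcases mul_eq_zero.mp h5 with h6 | h6
        · exact absurd h6 h4
        · rcases mul_eq_zero.mp h6 with h7 | h7
          · exact absurd h7 (mul_ne_zero four_ne_zero hD)
          · exact h7
      have hz : ((ζ.re : ℝ) : ℂ) = ζ := by
        apply Complex.ext
        · simp
        · simp [him]
      exact ⟨ζ.re, by rw [hz]; exact hq0, by rw [hz]; exact hm⟩

end RCP
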