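import Pool.Agent.RCP.St

/-!
# RCP, module CON (file CNV, a reserved file name): each of the four conditions gives almost affine behaviour
-/

set_option autoImplicit false

namespace RCP

open Metric RCE

private theorem CON_mono {T : Set ℂ} {f : ℂ → ℂ} {x : ℂ} {R ε ε' : ℝ} (hε : ε' ≤ ε) (h : AlmSim T f x R ε') :
    AlmSim T f x R ε := fun a ha b hb c hc h1 h2 h3 h4 =>
  (h a ha b hb c hc h1 h2 h3 h4).trans (mul_le_mul_of_nonneg_right hε (by positivity))

theorem thm_CON (hGDF : St_GDF) (hGGF : St_GGF) (hGQS : St_GQS) (hGQM : St_GQM) : St_CON := by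
  intro θ hθ
  obtain ⟨θ', hθ', hG⟩ := hGGF θ hθ
  obtain ⟨ε₁, hε₁, hQ⟩ := hGQS θ hθ
  refine ⟨θ', ε₁ / 4, hθ', by positivity, ?_⟩
  rintro S f x r hx hr hE hf (ha | hb | ⟨R, hR, hi, hc⟩ | ⟨R, hR, hi, hd⟩)
  · exact hGDF S θ f x hθ ha
  · exact hG S f x r hx hr hE hb
  · exact hQ S f x r R hx hr hE hR (CON_mono (by linarith) hc) hi
  · obtain ⟨R₀, hR₀, hRR, hs⟩ := hGQM S f (ε₁ / 4) R r x (by positivity) hR hx hr hE (hf.mono Set.inter_subset_left) hi hd
    have e : 4 * (ε₁ / 4) = ε₁ := by ring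
    rw [e] at hs
    exact hQ S f x r R₀ hx hr hE hR₀ hs (hi.mono (Set.inter_subset_inter_right _ (ball_subset_ball hRR)))

end RCP
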