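import Pool.Agent.RCP.St

/-!
# RCP: module DEN (MP_d2bd1a_an)

The image of an almost affine map is dense at the same scale.
-/

set_option autoImplicit false

namespace RCP

open Metric RCE

private lemma DEN_core (K : Cp) (Γ : Subgroup (Equiv.Perm K.T)) (hKEY : RCE.St_KEY) (hG : Grp K Γ)
    (M : ℝ) (hM : 1 ≤ M) : ∃ c : ℝ, 0 < c ∧ c ≤ 1 ∧ ∀ ε' : ℝ, 0 < ε' → ∃ θ : ℝ, 0 < θ ∧
  ∀ (x : ℂ) (R l : ℝ) (A : ℂ →ₗ[ℝ] ℂ) (f : ℂ → ℂ), IsCompact K.T → x ∈ K.T → 0 < R → R ≤ K.r₀ →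
  3 * M ^ 2 * (l * R) ≤ K.r₀ → Dist A l M → ContinuousOn f K.T →
  Set.MapsTo f K.T K.T → Near K.T f x R A (θ * l * R) → ∀ z ∈ K.T, ‖z - f x‖ < c * (l * R) →
  ∃ p ∈ K.T, ‖p - x‖ < R ∧ ‖f p - z‖ ≤ ε' * (l * R) := by
  obtain ⟨ε, θK, hε, hθK, -, key⟩ := hKEY K Γ hG M hM
  refine ⟨min (ε / 4) (1 / 32), by positivity, (min_le_right _ _).trans (by norm_num), ?_⟩
  intro ε' hε'
  refine ⟨min (1 / 32) (θK * ε' / (2 * ε)), by positivity, ?_⟩
  intro x R l A f hT hx hR hRr hlR hA hf hm hN z hz hzx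
  have hc1 : min (ε / 4) (1 / 32) ≤ ε / 4 := min_le_left _ _
  have hc2 : min (ε / 4) (1 / 32 : ℝ) ≤ 1 / 32 := min_le_right _ _
  have hθ1 : min (1 / 32) (θK * ε' / (2 * ε)) ≤ 1 / 32 := min_le_left _ _
  have hθ2 : min (1 / 32) (θK * ε' / (2 * ε)) ≤ θK * ε' / (2 * ε) := min_le_right _ _
  generalize min (ε / 4) (1 / 32 : ℝ) = c at hc1 hc2 hzx
  generalize min (1 / 32) (θK * ε' / (2 * ε)) = θ at hθ1 hθ2 hN
  have hl : 0 < l := hA.1
  have hlR0 : 0 < l * R := mul_pos hl hR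
  have hS : IsCompact (K.T ∩ closedBall x (R / 2)) := hT.inter_right isClosed_closedBall
  have hne : (K.T ∩ closedBall x (R / 2)).Nonempty :=
    ⟨x, hx, mem_closedBall_self (by positivity)⟩
  have hcont : ContinuousOn (fun q => ‖f q - z‖) (K.T ∩ closedBall x (R / 2)) :=
    ((hf.mono Set.inter_subset_left).sub continuousOn_const).norm
  obtain ⟨p, ⟨hpT, hpb⟩, hpm⟩ := hS.exists_isMinOn hne hcont
  have hmin : ∀ q ∈ K.T, ‖q - x‖ ≤ R / 2 → ‖f p - z‖ ≤ ‖f q - z‖ := fun q hq hq' =>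
    hpm ⟨hq, by rw [mem_closedBall, dist_eq_norm]; exact hq'⟩
  have hpx : ‖p - x‖ ≤ R / 2 := by rw [← dist_eq_norm]; exact mem_closedBall.1 hpb
  by_cases hd : ‖f p - z‖ ≤ ε' * (l * R)
  · exact ⟨p, hpT, by linarith, hd⟩
  exfalso
  push Not at hd
  have hd0 : ‖f p - z‖ ≤ ‖z - f x‖ := by
    rw [norm_sub_rev z (f x)]
    exact hmin x hx (by rw [sub_self, norm_zero]; positivity)
  have e1 : ‖f p - f x‖ ≤ ‖f p - z‖ + ‖z - f x‖ := by
    have : f p - f x = (f p - z) + (z - f x) := by ring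
    rw [this]
    exact norm_add_le _ _
  have e2 := hN p hpT (by linarith)
  have e3 : ‖A (p - x)‖ ≤ ‖f p - f x‖ + ‖f p - f x - A (p - x)‖ := by
    have : A (p - x) = (f p - f x) - (f p - f x - A (p - x)) := by ring
    calc ‖A (p - x)‖ = ‖(f p - f x) - (f p - f x - A (p - x))‖ := by rw [← this]
      _ ≤ _ := norm_sub_le _ _
  have e4 := (hA.2 (p - x)).1
  have c1 : c * (l * R) ≤ 1 / 32 * (l * R) := mul_le_mul_of_nonneg_right hc2 hlR0.le
  have c2 : c * (l * R) ≤ ε / 4 * (l * R) := mul_le_mul_of_nonneg_right hc1 hlR0.le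
  have t1 : θ * l * R ≤ 1 / 32 * (l * R) := by
    rw [mul_assoc]
    exact mul_le_mul_of_nonneg_right hθ1 hlR0.le
  have hp8 : ‖p - x‖ < R / 8 := by
    have : l * ‖p - x‖ < l * (R / 8) := by
      have : l * (R / 8) = 1 / 8 * (l * R) := by ring
      rw [this]
      linarith
    exact lt_of_mul_lt_mul_left this hl.le
  have hd' : 0 < ‖f p - z‖ := lt_trans (by positivity) hd
  have hRe : ε * (l * (‖f p - z‖ / (ε * l))) = ‖f p - z‖ := by
    field_simp
  have hR'0 : 0 < ‖f p - z‖ / (ε * l) := by positivity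
  have hR'4 : ‖f p - z‖ / (ε * l) < R / 4 := by
    rw [div_lt_iff₀ (by positivity)]
    have : R / 4 * (ε * l) = ε / 4 * (l * R) := by ring
    rw [this]
    linarith
  generalize ‖f p - z‖ / (ε * l) = R' at hRe hR'0 hR'4
  have hq : ∀ q ∈ K.T, ‖q - p‖ < R' → ‖q - x‖ < R / 2 := by
    intro q _ hqp
    have : q - x = (q - p) + (p - x) := by ring
    have h2 := norm_add_le (q - p) (p - x)
    rw [← this] at h2
    linarith
  refine key p R' l A f z hpT hz hR'0 (by linarith) ?_ hA (fun q hq _ => hm hq) ?_ ?_ ?_ ?_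
  · refine le_trans (mul_le_mul_of_nonneg_left (mul_le_mul_of_nonneg_left ?_ hl.le) (by positivity))
      hlR
    linarith
  · intro q hqT hqp
    have h1 := hN q hqT (by linarith [hq q hqT hqp])
    have h3 : f q - f p - A (q - p) =
        (f q - f x - A (q - x)) - (f p - f x - A (p - x)) := by
      have : A (q - p) = A (q - x) - A (p - x) := by
        rw [← map_sub]
        congr 1
        ring
      rw [this]
      ring
    have h4 := norm_sub_le (f q - f x - A (q - x)) (f p - f x - A (p - x))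
    rw [← h3] at h4
    refine h4.trans ?_
    have h5 : 2 * (θ * l * R) ≤ θK * l * R' := by
      have h6 : 2 * (θ * l * R) ≤ θK * (ε' * (l * R)) / ε := by
        have : 2 * (θ * l * R) = θ * (2 * (l * R)) := by ring
        rw [this]
        refine (mul_le_mul_of_nonneg_right hθ2 (by positivity)).trans (le_of_eq ?_)
        field_simp
      refine h6.trans ?_
      rw [div_le_iff₀ hε]
      have h7 : θK * l * R' * ε = θK * (ε * (l * R')) := by ring
      rw [h7, hRe]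
      exact mul_le_mul_of_nonneg_left hd.le hθK.le
    linarith
  · rw [hRe, norm_sub_rev z (f p)]
    nlinarith
  · rw [hRe, norm_sub_rev z (f p)]
  · intro q hqT hqp
    have h1 := hmin q hqT (hq q hqT hqp).le
    rw [norm_sub_rev z (f p)]
    linarith

theorem thm_DEN (hKEY : RCE.St_KEY) (hTF : RCE.St_TF) : St_DEN := by
  intro K Γ hG M hM
  obtain ⟨c, hc, hc1, h⟩ := DEN_core K Γ hKEY hG M hM
  refine ⟨c, hc, hc1, fun ε' hε' => ?_⟩
  obtain ⟨θ, hθ, h⟩ := h ε' hε'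
  exact ⟨θ, hθ, fun x R l A f hx hR hRr hlR hA hf hm hN z hz hzx =>
    h x R l A f (hTF K).1 hx hR hRr hlR hA hf hm hN z hz hzx⟩

end RCP
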