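import Pool.Agent.RCP.St

/-!
# RCP, module ELC: ellipses meet circles
-/

set_option autoImplicit false

namespace RCP

open Metric RCE

theorem thm_ELC : St_ELC := by
  intro K j x hx A l M σ hA hσ hσl
  have hl := hA.1
  have hx' : ‖x - cc K j‖ = rr K j := by
    rw [← dist_eq_norm]
    exact hx
  have hconn : IsPreconnected (PC K j) :=
    isPreconnected_sphere (by rw [Complex.rank_real_complex]; exact Nat.one_lt_ofNat) _ _
  have hx2 : 2 * cc K j - x ∈ PC K j := by
    show dist (2 * cc K j - x) (cc K j) = rr K j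
    rw [dist_eq_norm, ← hx', ← norm_neg]
    congr 1
    ring
  have hcont : ContinuousOn (fun p : ℂ => ‖A (p - x)‖) (PC K j) := by
    apply Continuous.continuousOn
    exact ((LinearMap.continuous_of_finiteDimensional A).comp (continuous_id.sub continuous_const)).norm
  have h0 : ‖A (x - x)‖ ≤ σ := by
    rw [sub_self, map_zero, norm_zero]
    exact hσ.le
  have h1 : σ ≤ ‖A (2 * cc K j - x - x)‖ := by
    have h2 := (hA.2 (2 * cc K j - x - x)).1
    have h3 : ‖2 * cc K j - x - x‖ = 2 * rr K j := by
      have h4 : 2 * cc K j - x - x = 2 * (cc K j - x) := by ring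
      rw [h4, norm_mul, Complex.norm_ofNat, norm_sub_rev, hx']
    rw [h3] at h2
    have h5 : 0 ≤ l * rr K j := mul_nonneg hl.le (hx' ▸ norm_nonneg _)
    linarith
  obtain ⟨p, hp, hpσ⟩ := hconn.intermediate_value hx hx2 hcont ⟨h0, h1⟩
  exact ⟨p, hp, hpσ⟩

end RCP
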