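import Pool.Agent.RCP.St
import Pool.Agent.RCE.GAF

/-!
# RCP, module ELT: ellipses meet the carpet
-/

set_option autoImplicit false

namespace RCP

open Metric RCE

theorem thm_ELT (hCC : RCE.St_CC) (hTF : RCE.St_TF) : St_ELT := by
  intro K x hx A l M σ hA hσ hσl
  exact GAF_ell hCC hTF K x σ l M A hx hσ hA hσl

end RCP
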