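import Pool.Agent.RCP.St

/-!
# RCP, module EXT: extension of a map over the holes
-/

set_option autoImplicit false

namespace RCP

open Metric RCE

/-- the cone over `f` on the sphere with centre `c` and radius `r`, with vertex `c'` -/
private noncomputable def EXTg (f : ℂ → ℂ) (c : ℂ) (r : ℝ) (c' p : ℂ) : ℂ :=
  c' + (‖p - c‖ / r) • (f (c + (r / ‖p - c‖) • (p - c)) - c')

private theorem EXTg_proj {c p : ℂ} {r : ℝ} (hr : 0 < r) (hp : p ≠ c) :
    c + (r / ‖p - c‖) • (p - c) ∈ sphere c r := by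
  have h1 : 0 < ‖p - c‖ := norm_pos_iff.2 (sub_ne_zero.2 hp)
  rw [mem_sphere_iff_norm, add_sub_cancel_left, norm_smul, Real.norm_eq_abs,
    abs_of_pos (div_pos hr h1), div_mul_cancel₀ _ h1.ne']

private theorem EXTg_norm {f : ℂ → ℂ} {c c' : ℂ} {r r' : ℝ} (hr : 0 < r)
    (hf : Set.MapsTo f (sphere c r) (sphere c' r')) (p : ℂ) :
    ‖EXTg f c r c' p - c'‖ = ‖p - c‖ / r * r' := by
  unfold EXTg
  rw [add_sub_cancel_left, norm_smul, Real.norm_eq_abs, abs_of_nonneg (by positivity)]
  rcases eq_or_ne p c with rfl | hp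
  · simp
  · have h1 := hf (EXTg_proj hr hp)
    rw [mem_sphere_iff_norm] at h1
    rw [h1]

private theorem EXTg_sphere (f : ℂ → ℂ) {c : ℂ} {r : ℝ} (hr : 0 < r) (c' : ℂ) {p : ℂ}
    (hp : p ∈ sphere c r) : EXTg f c r c' p = f p := by
  unfold EXTg
  rw [mem_sphere_iff_norm] at hp
  rw [hp, div_self hr.ne', one_smul, one_smul, add_sub_cancel, add_sub_cancel]

private theorem EXTg_cont {f : ℂ → ℂ} {c c' : ℂ} {r r' : ℝ} (hr : 0 < r)
    (hc : ContinuousOn f (sphere c r)) (hf : Set.MapsTo f (sphere c r) (sphere c' r')) :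
    Continuous (EXTg f c r c') := by
  rw [continuous_iff_continuousAt]
  intro p
  rcases eq_or_ne p c with rfl | hp
  · have h1 : EXTg f p r c' p = c' := by
      unfold EXTg
      simp
    unfold ContinuousAt
    rw [h1, tendsto_iff_norm_sub_tendsto_zero]
    have h2 : (fun q => ‖EXTg f p r c' q - c'‖) = fun q => ‖q - p‖ / r * r' := by
      funext q
      exact EXTg_norm hr hf q
    rw [h2]
    have h3 : Continuous fun q : ℂ => ‖q - p‖ / r * r' := by fun_prop
    have h4 := h3.tendsto p
    simpa using h4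
  · have h1 : ContinuousOn (fun q => c + (r / ‖q - c‖) • (q - c)) {c}ᶜ := by
      apply ContinuousOn.add continuousOn_const
      refine ContinuousOn.smul (f := fun q : ℂ => r / ‖q - c‖) (g := fun q : ℂ => q - c) ?_ ?_
      · apply ContinuousOn.div continuousOn_const (by fun_prop)
        intro q hq
        exact (norm_pos_iff.2 (sub_ne_zero.2 hq)).ne'
      · fun_prop
    have h2 : ContinuousOn (fun q => f (c + (r / ‖q - c‖) • (q - c))) {c}ᶜ :=
      hc.comp h1 fun q hq => EXTg_proj hr hq
    have h3 : ContinuousOn (EXTg f c r c') {c}ᶜ := by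
      unfold EXTg
      apply ContinuousOn.add continuousOn_const
      refine ContinuousOn.smul (f := fun q : ℂ => ‖q - c‖ / r)
        (g := fun q : ℂ => f (c + (r / ‖q - c‖) • (q - c)) - c') ?_ ?_
      · fun_prop
      · exact h2.sub continuousOn_const
    exact h3.continuousAt (isOpen_compl_singleton.mem_nhds hp)

/-- a point of the sphere on a segment from the inside to the outside -/
private theorem EXT_seg {c p x : ℂ} {r : ℝ} (hp : p ∈ ball c r) (hx : r ≤ ‖x - c‖) :
    ∃ q ∈ sphere c r, dist q x ≤ dist p x := by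
  have h1 : IsPreconnected (segment ℝ p x) := (convex_segment p x).isPreconnected
  have h2 : ContinuousOn (fun q => dist q c) (segment ℝ p x) := by fun_prop
  have h3 := h1.intermediate_value (left_mem_segment ℝ p x) (right_mem_segment ℝ p x) h2
  have h4 : r ∈ Set.Icc (dist p c) (dist x c) := ⟨(mem_ball.1 hp).le, by rwa [dist_eq_norm]⟩
  obtain ⟨q, hq, hqr⟩ := h3 h4
  refine ⟨q, hqr, ?_⟩
  have h5 : segment ℝ p x ⊆ closedBall x (dist p x) :=
    (convex_closedBall x (dist p x)).segment_subset (mem_closedBall.2 le_rfl)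
      (mem_closedBall_self dist_nonneg)
  exact h5 hq

theorem thm_EXT (hBIG : St_BIG) (hTF : RCE.St_TF) : St_EXT := by
  classical
  intro K f I τ hf hτ hmap
  obtain ⟨-, hsph, -, hT1, hT2⟩ := hTF K
  -- the extension
  let G : ℕ → ℂ → ℂ := fun n => EXTg f (K.c n) (K.r n) (K.c (τ n))
  let F : ℂ → ℂ := fun p => if h : ∃ n ∈ I, p ∈ ball (K.c n) (K.r n) then G h.choose p else f p
  have hFb : ∀ n ∈ I, ∀ p ∈ ball (K.c n) (K.r n), F p = G n p := by
    intro n hn p hp
    have h : ∃ n ∈ I, p ∈ ball (K.c n) (K.r n) := ⟨n, hn, hp⟩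
    have h1 : F p = G h.choose p := dif_pos h
    have h2 : h.choose = n := by
      by_contra hne
      exact Set.disjoint_left.1 (K.disj _ _ hne) (ball_subset_closedBall h.choose_spec.2)
        (ball_subset_closedBall hp)
    rw [h1, h2]
  have hFT : ∀ p ∈ K.T, F p = f p := by
    intro p hp
    have h : ¬ ∃ n ∈ I, p ∈ ball (K.c n) (K.r n) := by
      rintro ⟨n, -, hn⟩
      have h1 := (hT1 p hp).2 n
      rw [mem_ball_iff_norm] at hn
      linarith
    exact dif_neg h
  have hGc : ∀ n ∈ I, Continuous (G n) := fun n hn =>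
    EXTg_cont (K.rpos n) (hf.mono (hsph n)) (hmap n hn)
  have hGb : ∀ n ∈ I, ∀ p ∈ ball (K.c n) (K.r n), F p ∈ ball (K.c (τ n)) (K.r (τ n)) := by
    intro n hn p hp
    rw [hFb n hn p hp, mem_ball_iff_norm]
    have h1 : ‖G n p - K.c (τ n)‖ = ‖p - K.c n‖ / K.r n * K.r (τ n) :=
      EXTg_norm (K.rpos n) (hmap n hn) p
    rw [h1]
    rw [mem_ball_iff_norm] at hp
    have h2 : ‖p - K.c n‖ / K.r n < 1 := (div_lt_one (K.rpos n)).2 hp
    calc ‖p - K.c n‖ / K.r n * K.r (τ n) < 1 * K.r (τ n) :=
          mul_lt_mul_of_pos_right h2 (K.rpos _)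
      _ = K.r (τ n) := one_mul _
  have hFc : ∀ n ∈ I, ∀ p ∈ closedBall (K.c n) (K.r n), F p = G n p := by
    intro n hn p hp
    rcases (mem_closedBall.1 hp).lt_or_eq with h | h
    · exact hFb n hn p h
    · have h1 : p ∈ sphere (K.c n) (K.r n) := h
      rw [hFT p (hsph n h1)]
      exact (EXTg_sphere f (K.rpos n) (K.c (τ n)) h1).symm
  refine ⟨F, ?_, hFT, hGb⟩
  intro x hx
  by_cases hxb : ∃ n ∈ I, x ∈ ball (K.c n) (K.r n)
  · -- points of the open balls
    obtain ⟨n, hn, hxn⟩ := hxb
    have h1 : F =ᶠ[nhds x] G n := by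
      filter_upwards [isOpen_ball.mem_nhds hxn] with p hp
      exact hFb n hn p hp
    exact ((hGc n hn).continuousAt.congr h1.symm).continuousWithinAt
  · -- points of the carpet
    have hxT : x ∈ K.T := by
      apply hT2
      · have := mem_closedBall.1 hx.1
        rwa [dist_eq_norm] at this
      · intro i
        by_contra hlt
        have hxi : x ∈ ball (K.c i) (K.r i) := by
          rw [mem_ball_iff_norm]
          exact not_le.1 hlt
        by_cases hi : i ∈ I
        · exact hxb ⟨i, hi, hxi⟩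
        · apply hx.2
          exact Set.mem_iUnion₂.2 ⟨i, hi, hxi⟩
    unfold ContinuousWithinAt
    rw [Metric.tendsto_nhds]
    intro ε hε
    rw [eventually_nhdsWithin_iff]
    obtain ⟨δ, hδ, hδf⟩ := Metric.continuousWithinAt_iff.1 (hf x hxT) (ε / 2) (half_pos hε)
    have hS : (I ∩ τ ⁻¹' {i : ℕ | ε / 4 ≤ K.r i}).Finite := by
      have h1 := hBIG K (ε / 4) (by linarith)
      have h2 : (τ ⁻¹' {i : ℕ | ε / 4 ≤ K.r i} ∩ I).Finite := by
        apply Set.Finite.of_finite_image (f := τ)
        · exact h1.subset (by rintro _ ⟨n, hn, rfl⟩; exact hn.1)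
        · exact hτ.mono Set.inter_subset_right
      rwa [Set.inter_comm] at h2
    have hE : ∀ᶠ p in nhds x, ∀ n ∈ I ∩ τ ⁻¹' {i : ℕ | ε / 4 ≤ K.r i},
        p ∈ closedBall (K.c n) (K.r n) → dist (F p) (F x) < ε := by
      rw [Filter.eventually_all_finite hS]
      intro n hn
      by_cases hxn : x ∈ closedBall (K.c n) (K.r n)
      · have h1 := Metric.tendsto_nhds.1 ((hGc n hn.1).tendsto x) ε hε
        filter_upwards [h1] with p hp hpn
        rw [hFc n hn.1 p hpn, hFc n hn.1 x hxn]
        exact hp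
      · filter_upwards [isClosed_closedBall.isOpen_compl.mem_nhds hxn] with p hp hpn
        exact absurd hpn hp
    filter_upwards [hE, ball_mem_nhds x hδ] with p hp hpx hpD
    rw [mem_ball] at hpx
    by_cases hpb : ∃ n ∈ I, p ∈ ball (K.c n) (K.r n)
    · obtain ⟨n, hn, hpn⟩ := hpb
      by_cases hbig : ε / 4 ≤ K.r (τ n)
      · exact hp n ⟨hn, hbig⟩ (ball_subset_closedBall hpn)
      · obtain ⟨q, hq, hqx⟩ := EXT_seg hpn ((hT1 x hxT).2 n)
        have h1 : dist (f q) (f x) < ε / 2 := hδf (hsph n hq) (hqx.trans_lt hpx)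
        have h2 : dist (F p) (K.c (τ n)) < K.r (τ n) := hGb n hn p hpn
        have h3 : dist (f q) (K.c (τ n)) = K.r (τ n) := hmap n hn hq
        have h4 := dist_triangle_right (F p) (f q) (K.c (τ n))
        have h5 := dist_triangle (F p) (f q) (f x)
        rw [hFT x hxT]
        have h6 := not_le.1 hbig
        linarith
    · have hpT : p ∈ K.T := by
        apply hT2
        · have := mem_closedBall.1 hpD.1
          rwa [dist_eq_norm] at this
        · intro i
          by_contra hlt
          have hpi : p ∈ ball (K.c i) (K.r i) := by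
            rw [mem_ball_iff_norm]
            exact not_le.1 hlt
          by_cases hi : i ∈ I
          · exact hpb ⟨i, hi, hpi⟩
          · apply hpD.2
            exact Set.mem_iUnion₂.2 ⟨i, hi, hpi⟩
      rw [hFT p hpT, hFT x hxT]
      have := hδf hpT hpx
      linarith

end RCP
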