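import Pool.Agent.RCP.St

/-!
# RCP, module FIN: the main theorem from the modules
-/

set_option autoImplicit false

namespace RCP

open Metric RCE

private theorem FIN_mono {S : Set ℂ} {θ θ' : ℝ → ℝ} {f : ℂ → ℂ} {x : ℂ} (h : ∀ M, θ M ≤ θ' M) (h1 : AAffS S θ f x) :
    AAffS S θ' f x := by
  obtain ⟨M, hM, R₀, hR₀, h2⟩ := h1
  refine ⟨M, hM, R₀, hR₀, ?_⟩
  intro R hR hR1
  obtain ⟨A, l, hA, hN⟩ := h2 R hR hR1
  refine ⟨A, l, hA, ?_⟩
  intro p hp hpx
  refine (hN p hp hpx).trans ?_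
  have := h M
  have h3 := hA.1
  gcongr

private theorem FIN_sub (K : Cp) (hTF : RCE.St_TF) (j : Option ℕ) : PC K j ⊆ K.T := by
  cases j with
  | none => exact (hTF K).2.2.1
  | some i => exact (hTF K).2.1 i

private theorem FIN_rr (K : Cp) (j : Option ℕ) : 0 < rr K j := by
  cases j with
  | none => exact K.r₀pos
  | some i => exact K.rpos i

private theorem FIN_nontriv (K : Cp) (j : Option ℕ) : (PC K j).Nontrivial := by
  have hr := FIN_rr K j
  refine ⟨cc K j + (rr K j : ℂ), ?_, cc K j - (rr K j : ℂ), ?_, ?_⟩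
  · simp [PC, abs_of_pos hr]
  · simp [PC, abs_of_pos hr]
  · intro h
    have h1 : (rr K j : ℂ) = 0 := by
      linear_combination h / 2
    have h2 : rr K j = 0 := by
      exact_mod_cast h1
    exact hr.ne' h2

private theorem FIN_conn (K : Cp) (j : Option ℕ) : IsPreconnected (PC K j) :=
  isPreconnected_sphere (by rw [Complex.rank_real_complex]; exact Nat.one_lt_ofNat) _ _

theorem thm_FIN : St_FIN := by
  intro hPA hPB hCON hELT hELC hHOP hTOP hTF K Γ hΓ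
  obtain ⟨κ, hκ, _, hhop⟩ := hHOP K Γ hΓ
  obtain ⟨θ₁, hθ₁, hpa⟩ := hPA K Γ hΓ
  have hex : ∃ θ₂ : ℝ → ℝ, (∀ M, 0 < θ₂ M) ∧ ∀ (f : ℂ → ℂ) (j : Option ℕ) (x : ℂ), NPC K → x ∈ PC K j →
      Set.MapsTo f (PC K j) K.T → AAffS (PC K j) θ₂ f x → ∃ j', f x ∈ PC K j' := by
    by_cases hN : NPC K
    · obtain ⟨θ₂, h2, h3⟩ := hPB K Γ hΓ hN
      exact ⟨θ₂, h2, fun f j x _ => h3 f j x⟩
    · exact ⟨fun _ => 1, fun _ => one_pos, fun f j x h => absurd h hN⟩
  obtain ⟨θ₂, hθ₂, hpb⟩ := hex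
  obtain ⟨θ, ε, hθ, hε, hcon⟩ := hCON (fun M => min (θ₁ M) (θ₂ M)) (fun M => lt_min (hθ₁ M) (hθ₂ M))
  refine ⟨κ, ε, θ, hκ, hε, hθ, ?_⟩
  intro f hf hm hinj hnull
  have hsub : ∀ j, PC K j ⊆ K.T := FIN_sub K hTF
  have hτ : ∀ j : Option ℕ, ∃ j' : Option ℕ, Set.MapsTo f (PC K j) (PC K j') := by
    intro j
    have hfj : ContinuousOn f (PC K j) := hf.mono (hsub j)
    have hJT : f '' (PC K j) ⊆ K.T := by
      rintro _ ⟨x, hx, rfl⟩
      exact hm (hsub j hx)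
    have hJc : IsCompact (f '' (PC K j)) := (isCompact_sphere _ _).image_of_continuousOn hfj
    have hJp : IsPreconnected (f '' (PC K j)) := (FIN_conn K j).image f hfj
    have hJn : (f '' (PC K j)).Nontrivial := (FIN_nontriv K j).image_of_injOn (hinj.mono (hsub j))
    have hJz : MeasureTheory.Measure.hausdorffMeasure κ (f '' (PC K j) \ ⋃ i, PC K i) = 0 := by
      refine MeasureTheory.measure_mono_null ?_ hnull
      rintro _ ⟨⟨x, hx, rfl⟩, hn⟩
      have hn' : ¬ ∃ i, f x ∈ PC K i := by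
        intro h
        exact hn (Set.mem_iUnion.2 h)
      refine ⟨x, ⟨j, hx, ?_, ?_⟩, rfl⟩
      · intro hg
        apply hn'
        apply hpa f j x hf hm hx
        exact FIN_mono (fun M => min_le_left _ _) (hcon K.T f x K.r₀ (hsub j hx) K.r₀pos (hELT K x (hsub j hx)) hf hg)
      · rintro ⟨hN, hg⟩
        apply hn'
        apply hpb f j x hN hx (fun p hp => hm (hsub j hp))
        exact FIN_mono (fun M => min_le_right _ _) (hcon (PC K j) f x (rr K j) hx (FIN_rr K j) (hELC K j x hx) hfj hg)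
    obtain ⟨j', hj'⟩ := hhop _ hJT hJc hJp hJn hJz
    exact ⟨j', fun p hp => hj' ⟨p, hp, rfl⟩⟩
  choose τ hτ using hτ
  exact hTOP K f τ hf hm hinj hτ

end RCP
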