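import Pool.Agent.RCP.St

/-!
# RCP, module GGF: maps whose distances along a set are almost those of an affine map are almost affine
-/

set_option autoImplicit false

namespace RCP

open Metric RCE

/-- `Dist` gives an equivalence -/
private theorem GGF_equiv {A : ℂ →ₗ[ℝ] ℂ} {l M : ℝ} (hA : Dist A l M) : ∃ e : ℂ ≃ₗ[ℝ] ℂ, ∀ v, e v = A v := by
  have hinj : Function.Injective A := by
    rw [← LinearMap.ker_eq_bot, LinearMap.ker_eq_bot']
    intro v hv
    have h := (hA.2 v).1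
    rw [hv, norm_zero] at h
    have h0 : ‖v‖ ≤ 0 := by
      by_contra hcon
      push Not at hcon
      have := mul_pos hA.1 hcon
      linarith
    exact norm_le_zero_iff.1 h0
  exact ⟨LinearEquiv.ofInjectiveEndo A hinj, fun v => rfl⟩

private theorem GGF_one (hSTB : RCE.St_STB) (M θ : ℝ) (hM : 1 ≤ M) (hθ : 0 < θ) : ∃ ε : ℝ, 0 < ε ∧
    ∀ (S : Set ℂ) (r : ℝ) (f : ℂ → ℂ) (x : ℂ) (R l : ℝ) (A : ℂ →ₗ[ℝ] ℂ), Ell S x r → x ∈ S → 0 < R → M * R ≤ r → Dist A l M →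
    (∀ p ∈ S, ∀ q ∈ S, ‖p - x‖ < M * R → ‖q - x‖ < M * R → |‖f p - f q‖ - ‖A (p - q)‖| ≤ ε * l * (M * R)) →
    ∃ B : ℂ →ₗ[ℝ] ℂ, Dist B l M ∧ Near S f x R B (θ * l * R) := by
  have hM0 : 0 < M := by linarith
  obtain ⟨ε, hε, hstb⟩ := hSTB (θ / M) (div_pos hθ hM0)
  refine ⟨ε, hε, ?_⟩
  intro S r f x R l A hE hx hR hMR hA hd
  obtain ⟨e, he⟩ := GGF_equiv hA
  have hl := hA.1
  have hMR0 : 0 < M * R := mul_pos hM0 hR
  have hlR : 0 < l * (M * R) := mul_pos hl hMR0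
  obtain ⟨p₁, hp₁, hp₁A⟩ := hE A l M (l * (M * R) / 2) hA (by positivity)
    (by
      have h1 : l * (M * R) ≤ l * r := mul_le_mul_of_nonneg_left hMR hl.le
      linarith)
  have hp₁x : ‖p₁ - x‖ < M * R := by
    have h1 := (hA.2 (p₁ - x)).1
    rw [hp₁A] at h1
    have h2 : l * ‖p₁ - x‖ < l * (M * R) := by linarith
    exact lt_of_mul_lt_mul_left h2 hl.le
  obtain ⟨B₀, hB₀, hB₀n⟩ := hstb {w | ∃ p ∈ S, ‖p - x‖ < M * R ∧ A (p - x) = w ∧ ‖w‖ < l * (M * R)} 0 (A (p₁ - x))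
    (l * (M * R)) 1 (fun w => f (x + e.symm w)) hlR one_pos
    ⟨x, hx, by simpa using hMR0, by simp, by simpa using hlR⟩
    ⟨p₁, hp₁, hp₁x, rfl, by rw [hp₁A]; linarith⟩
    (by rw [sub_zero, hp₁A])
    (by
      rintro w ⟨p, hp, hpx, hw, hwn⟩
      rw [sub_zero]
      exact hwn)
    (by
      rintro w ⟨p, hp, hpx, rfl, hwn⟩ w' ⟨q, hq, hqx, rfl, hwn'⟩
      have h1 : x + e.symm (A (p - x)) = p := by
        rw [← he, LinearEquiv.symm_apply_apply]
        ring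
      have h2 : x + e.symm (A (q - x)) = q := by
        rw [← he, LinearEquiv.symm_apply_apply]
        ring
      show |‖f (x + e.symm (A (p - x))) - f (x + e.symm (A (q - x)))‖ - 1 * ‖A (p - x) - A (q - x)‖| ≤ ε * (1 * (l * (M * R)))
      rw [h1, h2, ← map_sub, one_mul, one_mul, show p - x - (q - x) = p - q by ring, ← mul_assoc]
      exact hd p hp q hq hpx hqx)
  refine ⟨B₀ ∘ₗ A, ⟨hl, fun v => ?_⟩, ?_⟩
  · rw [LinearMap.comp_apply, hB₀, one_mul]
    exact hA.2 v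
  · intro p hp hpR
    have h1 : ‖A (p - x)‖ < l * (M * R) := by
      refine lt_of_le_of_lt (hA.2 (p - x)).2 ?_
      have h2 : M * l * ‖p - x‖ < M * l * R := mul_lt_mul_of_pos_left hpR (mul_pos hM0 hl)
      linarith
    have hMR' : R ≤ M * R := by nlinarith
    have h3 := hB₀n (A (p - x)) ⟨p, hp, by linarith, rfl, h1⟩
    have h4 : x + e.symm (A (p - x)) = p := by
      rw [← he, LinearEquiv.symm_apply_apply]
      ring
    have h5 : x + e.symm (0 : ℂ) = x := by simp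
    have h6 : ‖f (x + e.symm (A (p - x))) - f (x + e.symm 0) - B₀ (A (p - x) - 0)‖ ≤ θ / M * (1 * (l * (M * R))) := h3
    rw [h4, h5, sub_zero] at h6
    rw [LinearMap.comp_apply]
    refine h6.trans (le_of_eq ?_)
    field_simp

theorem thm_GGF (hSTB : RCE.St_STB) : St_GGF := by
  intro θ hθ
  choose εf hε h using fun M : ℝ => GGF_one hSTB (max M 1) (θ (max M 1)) (le_max_right M 1) (hθ _)
  refine ⟨εf, hε, ?_⟩
  rintro S f x r hx hr hE ⟨M, hM, R₀, hR₀, hG⟩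
  have hmax : max M 1 = M := max_eq_left hM
  have hM0 : 0 < M := by linarith
  have hh := h M
  rw [hmax] at hh
  refine ⟨M, hM, min (R₀ / M) (r / M), lt_min (div_pos hR₀ hM0) (div_pos hr hM0), ?_⟩
  intro R hR hRlt
  have h1 : M * R < R₀ := by
    have := lt_of_lt_of_le hRlt (min_le_left _ _)
    rw [lt_div_iff₀ hM0] at this
    linarith
  have h2 : M * R ≤ r := by
    have := (lt_of_lt_of_le hRlt (min_le_right _ _)).le
    rw [le_div_iff₀ hM0] at this
    linarith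
  obtain ⟨A, l, hA, hd⟩ := hG (M * R) (mul_pos hM0 hR) h1
  obtain ⟨B, hB, hN⟩ := hh S r f x R l A hE hx hR h2 hA hd
  exact ⟨B, l, hB, hN⟩

end RCP
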