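import Pool.Agent.RCP.St

/-!
# RCP, module GQM: small change of cross ratios near a point along a set (proof of RCE QMC by helper3)
-/

set_option autoImplicit false

namespace RCP

open Metric RCE

/-- the inequality behind it -/
private lemma GQM_num {A B C D A' B' C' D' ε δ : ℝ} (hε : 0 < ε) (hδ0 : 0 < δ) (hδ1 : 8 * δ ≤ ε)
    (hδ2 : 8 * δ ≤ 1) (hA : 0 ≤ A) (hB : 0 < B) (hD : 0 < D) (hA' : 0 ≤ A') (hB' : 0 < B')
    (hD' : 0 < D') (hAB : A ≤ B) (h1 : |C - D| ≤ δ * D) (h2 : |C' - D'| ≤ δ * D')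
    (h3 : |A' * C' / (B' * D') - A * C / (B * D)| ≤ ε) :
    |A' * B - B' * A| ≤ 4 * ε * (B * B') := by
  set ρ := A / B with hρ
  set ρ' := A' / B' with hρ'
  set s := C / D with hs
  set s' := C' / D' with hs'
  have e1 : A = ρ * B := by rw [hρ]; field_simp
  have e2 : A' = ρ' * B' := by rw [hρ']; field_simp
  have e3 : C = s * D := by rw [hs]; field_simp
  have e4 : C' = s' * D' := by rw [hs']; field_simp
  have hρ0 : 0 ≤ ρ := div_nonneg hA hB.le
  have hρ1 : ρ ≤ 1 := (div_le_one hB).2 hAB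
  have hρ'0 : 0 ≤ ρ' := div_nonneg hA' hB'.le
  have e5 : A * C / (B * D) = ρ * s := by rw [hρ, hs]; field_simp
  have e6 : A' * C' / (B' * D') = ρ' * s' := by rw [hρ', hs']; field_simp
  rw [e5, e6, abs_le] at h3
  have g1 : |s - 1| ≤ δ := by
    have h4 : C - D = (s - 1) * D := by rw [e3]; ring
    rw [h4, abs_mul, abs_of_pos hD] at h1
    exact le_of_mul_le_mul_right h1 hD
  have g2 : |s' - 1| ≤ δ := by
    have h4 : C' - D' = (s' - 1) * D' := by rw [e4]; ring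
    rw [h4, abs_mul, abs_of_pos hD'] at h2
    exact le_of_mul_le_mul_right h2 hD'
  rw [abs_le] at g1 g2
  obtain ⟨g1a, g1b⟩ := g1
  obtain ⟨g2a, g2b⟩ := g2
  obtain ⟨h3a, h3b⟩ := h3
  -- bound of `ρ'`
  have k1 : ρ * s ≤ 1 + δ := by nlinarith
  have k2 : ρ' * (1 - δ) ≤ ρ' * s' := mul_le_mul_of_nonneg_left (by linarith) hρ'0
  have k3 : ρ' * (7 / 8) ≤ ρ' * (1 - δ) := mul_le_mul_of_nonneg_left (by linarith) hρ'0
  have k4 : ρ' ≤ 2 + 2 * ε := by linarith
  -- the difference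
  have m1 : ρ' * (s' - 1) ≤ ρ' * δ := mul_le_mul_of_nonneg_left g2b hρ'0
  have m2 : -(ρ' * δ) ≤ ρ' * (s' - 1) := by
    have := mul_le_mul_of_nonneg_left g2a hρ'0
    linarith
  have m3 : ρ * (s - 1) ≤ δ := by nlinarith
  have m4 : -δ ≤ ρ * (s - 1) := by nlinarith
  have m5 : ρ' * δ ≤ 2 * δ + 2 * (ε * δ) := by
    have := mul_le_mul_of_nonneg_right k4 hδ0.le
    linarith
  have m6 : ε * δ ≤ ε * (1 / 8) := mul_le_mul_of_nonneg_left (by linarith) hε.le
  have key : |ρ' - ρ| ≤ 4 * ε := by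
    rw [abs_le]
    constructor <;> nlinarith
  have e7 : A' * B - B' * A = (ρ' - ρ) * (B * B') := by
    rw [e1, e2]; ring
  rw [e7, abs_mul, abs_of_pos (mul_pos hB hB')]
  exact mul_le_mul_of_nonneg_right key (mul_pos hB hB').le

theorem thm_GQM : St_GQM := by
  intro K f ε R r x hε hR hx hr hE hf hinj hcr
  have hσ1 : min r (R / 2) ≤ r := min_le_left _ _
  have hσ2 : min r (R / 2) ≤ R / 2 := min_le_right _ _
  have hr0 : 0 < min r (R / 2) := lt_min hr (by positivity)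
  generalize hσ : min r (R / 2) = σ at hσ1 hσ2 hr0
  obtain ⟨d, hdT, hdx⟩ := hE LinearMap.id 1 1 σ ⟨one_pos, fun v => by simp⟩ hr0 (by rw [one_mul]; exact hσ1)
  rw [LinearMap.id_apply] at hdx
  have hin : ∀ p ∈ K, ‖p - x‖ < R → p ∈ K ∩ ball x R := fun p hp h => ⟨hp, by rwa [mem_ball, dist_eq_norm]⟩
  have hx' : x ∈ K ∩ ball x R := ⟨hx, mem_ball_self hR⟩
  have hd : d ∈ K ∩ ball x R := hin d hdT (by linarith)
  have hxd : x ≠ d := by
    rintro rfl
    rw [sub_self, norm_zero] at hdx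
    exact hr0.ne hdx
  have hfxd : 0 < ‖f x - f d‖ := norm_pos_iff.2 (sub_ne_zero.2 fun h => hxd (hinj hx' hd h))
  set δ := min ε 1 / 8 with hδ
  have hδ0 : 0 < δ := div_pos (lt_min hε one_pos) (by norm_num)
  have hδ1 : 8 * δ ≤ ε := by
    have := min_le_left ε 1
    rw [hδ]; linarith
  have hδ2 : 8 * δ ≤ 1 := by
    have := min_le_right ε 1
    rw [hδ]; linarith
  set η := δ * ‖f x - f d‖ / 4 with hη
  have hη0 : 0 < η := div_pos (mul_pos hδ0 hfxd) (by norm_num)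
  obtain ⟨R₁, hR₁, hcont⟩ := Metric.continuousWithinAt_iff.1 (hf x hx') η hη0
  set R₀ := min R₁ (δ * σ / 4) with hR₀
  have hR₀0 : 0 < R₀ := lt_min hR₁ (div_pos (mul_pos hδ0 hr0) (by norm_num))
  have hR₀1 : R₀ ≤ R₁ := min_le_left _ _
  have hR₀2 : R₀ ≤ δ * σ / 4 := min_le_right _ _
  have hδr : δ * σ ≤ σ / 8 := by nlinarith
  have hRR : R₀ ≤ R := by linarith
  refine ⟨R₀, hR₀0, hRR, ?_⟩
  intro a ha b hb c hc hax hbx hcx hab
  replace ha := hin a ha (by linarith)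
  replace hb := hin b hb (by linarith)
  replace hc := hin c hc (by linarith)
  by_cases hac : a = c
  · subst hac
    rw [sub_self, norm_zero] at hab
    have h0 : ‖a - b‖ = 0 := le_antisymm hab (norm_nonneg _)
    rw [h0, sub_self, norm_zero, sub_self, norm_zero]
    simp
  have hB : 0 < ‖a - c‖ := norm_pos_iff.2 (sub_ne_zero.2 hac)
  have hB' : 0 < ‖f a - f c‖ := norm_pos_iff.2 (sub_ne_zero.2 fun h => hac (hinj ha hc h))
  -- distances to `d`
  have hDb : σ - R₀ ≤ ‖b - d‖ := by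
    have h1 : ‖d - x‖ ≤ ‖b - d‖ + ‖b - x‖ := by
      have h2 : d - x = (b - x) - (b - d) := by ring
      rw [h2]
      exact (norm_sub_le _ _).trans (by linarith)
    linarith
  have hD : 0 < ‖b - d‖ := by linarith
  have hbd : b ≠ d := by
    rintro rfl
    rw [sub_self, norm_zero] at hD
    exact lt_irrefl _ hD
  have h1 : |‖c - d‖ - ‖b - d‖| ≤ δ * ‖b - d‖ := by
    have h2 : |‖c - d‖ - ‖b - d‖| ≤ ‖(c - d) - (b - d)‖ := abs_norm_sub_norm_le _ _
    have h3 : ‖(c - d) - (b - d)‖ ≤ ‖c - x‖ + ‖b - x‖ := by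
      have h4 : (c - d) - (b - d) = (c - x) - (b - x) := by ring
      rw [h4]
      exact norm_sub_le _ _
    have h5 : δ * (σ / 2) ≤ δ * ‖b - d‖ := mul_le_mul_of_nonneg_left (by linarith) hδ0.le
    linarith
  have hfb : ‖f b - f x‖ < η := by
    have := hcont hb (by rw [dist_eq_norm]; linarith)
    rwa [dist_eq_norm] at this
  have hfc : ‖f c - f x‖ < η := by
    have := hcont hc (by rw [dist_eq_norm]; linarith)
    rwa [dist_eq_norm] at this
  have hη1 : η ≤ ‖f x - f d‖ / 2 := by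
    rw [hη]; nlinarith
  have hDb' : ‖f x - f d‖ / 2 ≤ ‖f b - f d‖ := by
    have h2 : ‖f x - f d‖ ≤ ‖f b - f d‖ + ‖f b - f x‖ := by
      have h3 : f x - f d = (f b - f d) - (f b - f x) := by ring
      rw [h3]
      exact norm_sub_le _ _
    linarith
  have hD' : 0 < ‖f b - f d‖ := by linarith
  have h2 : |‖f c - f d‖ - ‖f b - f d‖| ≤ δ * ‖f b - f d‖ := by
    have h2 : |‖f c - f d‖ - ‖f b - f d‖| ≤ ‖(f c - f d) - (f b - f d)‖ :=
      abs_norm_sub_norm_le _ _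
    have h3 : ‖(f c - f d) - (f b - f d)‖ ≤ ‖f c - f x‖ + ‖f b - f x‖ := by
      have h4 : (f c - f d) - (f b - f d) = (f c - f x) - (f b - f x) := by ring
      rw [h4]
      exact norm_sub_le _ _
    have h5 : δ * (‖f x - f d‖ / 2) ≤ δ * ‖f b - f d‖ := mul_le_mul_of_nonneg_left hDb' hδ0.le
    rw [hη] at hfb hfc
    linarith
  have hcr2 : cr a b c d ≤ 2 := by
    unfold cr
    rw [div_le_iff₀ (mul_pos hB hD)]
    have h3 : ‖c - d‖ ≤ 2 * ‖b - d‖ := by
      have h4 := (abs_le.1 h1).2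
      nlinarith
    have h5 : ‖a - b‖ * ‖c - d‖ ≤ ‖a - c‖ * (2 * ‖b - d‖) :=
      mul_le_mul hab h3 (norm_nonneg _) hB.le
    linarith
  have h3 := hcr a ha b hb c hc d hd hac hbd hcr2
  unfold cr at h3
  exact GQM_num hε hδ0 hδ1 hδ2 (norm_nonneg _) hB hD (norm_nonneg _) hB' hD' hab h1 h2 h3

end RCP
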