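import Pool.Agent.RCP.St

/-!
# RCP.HLE: the image of a free ball touching a point of a peripheral circle (helper65)
-/

set_option autoImplicit false

namespace RCP

open Metric RCE

private theorem HLE_near {T : Set ℂ} {f : ℂ → ℂ} {x : ℂ} {R : ℝ} {A : ℂ →ₗ[ℝ] ℂ} {e e' : ℝ} (h : Near T f x R A e) (hee : e ≤ e') :
    Near T f x R A e' := fun p hp hpx => (h p hp hpx).trans hee

theorem thm_HLE (hDEN : St_DEN) (hVV : RCE.St_VV) (hSV : RCE.St_SV) : St_HLE := by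
  intro K Γ hΓ M ε₃ hM he0 he1
  obtain ⟨c, hc0, hc1, hc⟩ := hDEN K Γ hΓ M hM
  have hM0 : 0 < M := lt_of_lt_of_le one_pos hM
  set ca := c / (4 * M) with hca
  have hca0 : 0 < ca := by positivity
  have hcaM : 4 * M * ca = c := by rw [hca]; field_simp
  have hca1 : ca ≤ 1 / 4 := by
    have h1 : 4 * ca ≤ 4 * M * ca := by nlinarith
    linarith
  obtain ⟨θD, hD0, hD⟩ := hc (ε₃ / 4 * ca / 2) (by positivity)
  obtain ⟨θV, hV0, hV⟩ := hVV K Γ hΓ (ε₃ / 4) M (by positivity) (by linarith) hM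
  set θ := min (ε₃ / 4 * ca / 2) (min θD θV) with hθ
  have hθ0 : 0 < θ := lt_min (by positivity) (lt_min hD0 hV0)
  have hθ1 : θ ≤ ε₃ / 4 * ca / 2 := min_le_left _ _
  have hθ2 : θ ≤ θD := (min_le_right _ _).trans (min_le_left _ _)
  have hθ3 : θ ≤ θV := (min_le_right _ _).trans (min_le_right _ _)
  refine ⟨θ, 3 / 4 * ca, hθ0, ?_, by positivity, by linarith, ?_⟩
  · nlinarith
  intro x n R l ρ₀ A f hx hR hRr hRρ hsm hA hf hfT hN hn hF
  obtain ⟨hl, hA1⟩ := hA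
  obtain ⟨v, e, L, μ, hS⟩ := hSV.1 A
  have hAw := hSV.2 A v e L μ hS
  obtain ⟨hv, he, hμL, hAv, hAiv⟩ := id hS
  set m := |μ| with hm
  have hm0 : 0 ≤ m := abs_nonneg μ
  have hlm : l ≤ m := by
    have h1 := (hA1 (Complex.I * v)).1
    rw [hAiv] at h1
    simpa [hv, he] using h1
  have hmp : 0 < m := lt_of_lt_of_le hl hlm
  have hLM : L ≤ M * l := by
    have h1 := (hA1 v).2
    rw [hAv] at h1
    have h2 : ‖(L : ℂ) * e‖ = L := by
      rw [norm_mul, he, mul_one, Complex.norm_real, Real.norm_eq_abs, abs_of_nonneg (hm0.trans hμL)]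
    rw [h2, hv, mul_one] at h1
    exact h1
  have hmM : m ≤ M * l := hμL.trans hLM
  have hlR : 0 < l * R := mul_pos hl hR
  have hL : L < (1 + ε₃ / 4) * m := by
    by_contra hcon
    push Not at hcon
    refine hV R x f A v e L μ hx hR hRr ?_ (fun p hp _ => hfT hp) hS ?_ hcon ?_ ?_
    · have h1 : m * R ≤ M * l * R := mul_le_mul_of_nonneg_right hmM hR.le
      calc 3 * M * |μ| * R = 3 * M * (m * R) := by ring
        _ ≤ 3 * M * (M * l * R) := mul_le_mul_of_nonneg_left h1 (by positivity)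
        _ = 3 * M ^ 2 * (l * R) := by ring
        _ ≤ K.r₀ := hsm
    · intro h0
      rw [hm, h0, abs_zero] at hmp
      exact lt_irrefl _ hmp
    · exact hLM.trans (mul_le_mul_of_nonneg_left hlm hM0.le)
    · refine HLE_near hN ?_
      exact mul_le_mul_of_nonneg_right (mul_le_mul hθ3 hlm hl.le hV0.le) hR.le
  set ρ := ca * R with hρ
  have hρ0 : 0 < ρ := mul_pos hca0 hR
  have hρR : ρ ≤ R := by nlinarith
  have hAn : ‖A ((ρ : ℂ) * n)‖ ≤ L * ρ := by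
    refine (hAw _).2.trans (le_of_eq ?_)
    rw [norm_mul, hn, mul_one, Complex.norm_real, Real.norm_eq_abs, abs_of_pos hρ0]
  -- the ball around `x + ρ n` is free
  have hq : ∀ p ∈ K.T, ρ ≤ ‖p - (x + ρ * n)‖ := by
    intro p hp
    have h1 := hF p hp
    have h2 : p - (x + ρ₀ * n) = (p - (x + ρ * n)) - ((ρ₀ - ρ : ℝ) : ℂ) * n := by push_cast; ring
    have h3 : ‖((ρ₀ - ρ : ℝ) : ℂ) * n‖ = ρ₀ - ρ := by
      rw [norm_mul, hn, mul_one, Complex.norm_real, Real.norm_eq_abs, abs_of_nonneg (by linarith)]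
    rw [h2] at h1
    have h4 := norm_sub_le (p - (x + ρ * n)) (((ρ₀ - ρ : ℝ) : ℂ) * n)
    linarith
  have hmρ : 0 < m * ρ := mul_pos hmp hρ0
  have hlρ : l * ρ ≤ m * ρ := mul_le_mul_of_nonneg_right hlm hρ0.le
  have hLρ : L * ρ ≤ (1 + ε₃ / 4) * (m * ρ) := by
    have := mul_le_mul_of_nonneg_right hL.le hρ0.le
    linarith
  have hmρM : m * ρ ≤ M * (l * ρ) := by
    have := mul_le_mul_of_nonneg_right hmM hρ0.le
    linarith
  have hlρR : l * ρ = ca * (l * R) := by rw [hρ]; ring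
  refine ⟨f x + A ((ρ : ℂ) * n), (1 - ε₃ / 4) * (m * ρ), ?_, ?_, ?_, ?_⟩
  · have h1 : 3 / 4 * (m * ρ) ≤ (1 - ε₃ / 4) * (m * ρ) := by nlinarith
    nlinarith
  · have h1 : (1 - ε₃ / 4) * (m * ρ) ≤ m * ρ := by nlinarith
    have h2 : 0 < M * (l * ρ) := by positivity
    have h3 : 2 * M * (3 / 4 * ca) * (l * R) = 3 / 2 * (M * (l * ρ)) := by rw [hlρR]; ring
    linarith
  · intro z hz
    by_contra hcon
    push Not at hcon
    have h1 : ‖z - f x‖ ≤ ‖z - (f x + A ((ρ : ℂ) * n))‖ + ‖A ((ρ : ℂ) * n)‖ := by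
      have h2 : z - f x = (z - (f x + A ((ρ : ℂ) * n))) + A ((ρ : ℂ) * n) := by ring
      calc ‖z - f x‖ = ‖(z - (f x + A ((ρ : ℂ) * n))) + A ((ρ : ℂ) * n)‖ := by rw [← h2]
        _ ≤ _ := norm_add_le _ _
    have h2 : ‖z - f x‖ < 3 * (m * ρ) := by
      have h3 : (1 - ε₃ / 4) * (m * ρ) + (1 + ε₃ / 4) * (m * ρ) = 2 * (m * ρ) := by ring
      linarith
    have h3 : 3 * (m * ρ) ≤ c * (l * R) := by
      calc 3 * (m * ρ) ≤ 3 * (M * (l * ρ)) := by linarith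
        _ = 3 / 4 * (4 * M * ca * (l * R)) := by rw [hlρR]; ring
        _ = 3 / 4 * (c * (l * R)) := by rw [hcaM]
        _ ≤ c * (l * R) := by nlinarith [mul_pos hc0 hlR]
    have hN' : Near K.T f x R A (θD * l * R) := HLE_near hN
      (mul_le_mul_of_nonneg_right (mul_le_mul_of_nonneg_right hθ2 hl.le) hR.le)
    obtain ⟨p, hp, hpx, hpz⟩ := hD x R l A f hx hR hRr hsm ⟨hl, hA1⟩ hf hfT hN' z hz (lt_of_lt_of_le h2 h3)
    have h4 := hN p hp hpx
    have h5 := hq p hp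
    have h6 := (hAw (p - x - ρ * n)).1
    have h7 : p - x - ρ * n = p - (x + ρ * n) := by ring
    have h8 : A (p - x - ρ * n) = -(f p - f x - A (p - x)) + (f p - z) + (z - (f x + A ((ρ : ℂ) * n))) := by
      rw [map_sub]; ring
    have h9 : ‖A (p - x - ρ * n)‖ ≤ ‖f p - f x - A (p - x)‖ + ‖f p - z‖ + ‖z - (f x + A ((ρ : ℂ) * n))‖ := by
      rw [h8]
      refine (norm_add_le _ _).trans ?_
      refine add_le_add_left ((norm_add_le _ _).trans ?_) _
      rw [norm_neg]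
    have h10 : θ * l * R ≤ ε₃ / 4 * ca / 2 * (l * R) := by
      rw [mul_assoc]
      exact mul_le_mul_of_nonneg_right hθ1 hlR.le
    have h11 : ε₃ / 4 * ca / 2 * (l * R) + ε₃ / 4 * ca / 2 * (l * R) = ε₃ / 4 * (l * ρ) := by rw [hlρR]; ring
    have h12 : ε₃ / 4 * (l * ρ) ≤ ε₃ / 4 * (m * ρ) := mul_le_mul_of_nonneg_left hlρ (by positivity)
    rw [h7] at h6
    have h13 : m * ρ ≤ m * ‖p - (x + ρ * n)‖ := mul_le_mul_of_nonneg_left h5 hm0
    rw [h7] at h9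
    linarith
  · have h1 : f x + A ((ρ : ℂ) * n) - f x = A ((ρ : ℂ) * n) := by ring
    rw [h1]
    refine hAn.trans (hLρ.trans ?_)
    have h2 : (1 + ε₃ / 4) ≤ (1 + ε₃) * (1 - ε₃ / 4) := by nlinarith
    calc (1 + ε₃ / 4) * (m * ρ) ≤ (1 + ε₃) * (1 - ε₃ / 4) * (m * ρ) := mul_le_mul_of_nonneg_right h2 hmρ.le
      _ = (1 + ε₃) * ((1 - ε₃ / 4) * (m * ρ)) := by ring

end RCP
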