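import Pool.Agent.RCP.St

/-!
# RCP, module HOP: a connected set which is on peripheral circles up to a null set is on one of them

If it meets two circles, a chain of small sets and circles joins them, against `St_CHN`.  Otherwise its part off the circles
contains, seen from one of its points, an interval of distances, so it is not a null set.
-/

set_option autoImplicit false

namespace RCP

open Metric RCE

section HOP_sec

/-- subadditivity of the power -/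
theorem HOP_rpow_add {a b κ : ℝ} (ha : 0 ≤ a) (hb : 0 ≤ b) (hκ : 0 < κ) (hκ1 : κ ≤ 1) :
    (a + b) ^ κ ≤ a ^ κ + b ^ κ := by
  have h := NNReal.rpow_add_le_add_rpow (⟨a, ha⟩ : NNReal) (⟨b, hb⟩ : NNReal) hκ.le hκ1
  exact_mod_cast h

/-- a numbering of the circles -/
def HOP_e : Option ℕ → ℕ
  | none => 0
  | some n => n + 1

theorem HOP_e_inj : Function.Injective HOP_e := by
  intro a b h
  cases a <;> cases b <;> simp_all [HOP_e]

/-- sums over finite sets of numbers -/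
theorem HOP_sum_le {a : ℕ → ℝ} {ε : ℝ} (ha : ∀ n, 0 ≤ a n) (h : ∀ N, ∑ n ∈ Finset.range N, a n ≤ ε)
    (E : Finset ℕ) : ∑ n ∈ E, a n ≤ ε := by
  obtain ⟨N, hN⟩ := E.exists_nat_subset_range
  exact le_trans (Finset.sum_le_sum_of_subset_of_nonneg hN fun n _ _ => ha n) (h N)

theorem HOP_geo {ε : ℝ} (hε : 0 ≤ ε) (N : ℕ) :
    ∑ n ∈ Finset.range N, ε * (1 / 2) ^ (n + 1) ≤ ε := by
  have h : ∀ N : ℕ, ∑ n ∈ Finset.range N, ε * (1 / 2) ^ (n + 1) = ε * (1 - (1 / 2) ^ N) := by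
    intro N
    induction N with
    | zero => simp
    | succ N ih =>
      rw [Finset.sum_range_succ, ih, pow_succ]
      ring
  rw [h]
  have h1 : (0 : ℝ) ≤ (1 / 2) ^ N := by positivity
  nlinarith

theorem HOP_rr_pos (K : Cp) (j : Option ℕ) : 0 < rr K j := by
  cases j with
  | none => exact K.r₀pos
  | some i => exact K.rpos i

/-- part (A) -/
theorem HOP_A (hCHN : St_CHN) (hHPA : St_HPA) (hHPB : St_HPB) (K : Cp) {c κ : ℝ} (hc : 0 < c)
    (hκ : 0 < κ) (hκ1 : κ ≤ 1)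
    (hk : ∀ g₁ g₂ r g : ℝ, 0 ≤ r → c * r ≤ g₁ → c * r ≤ g₂ → 0 ≤ g → g ≤ g₁ + g₂ + 2 * r →
      g ^ κ ≤ g₁ ^ κ + g₂ ^ κ)
    (hsep : ∀ i j : Option ℕ, i ≠ j → ∀ p ∈ PC K i, ∀ q ∈ PC K j, c * min (rr K i) (rr K j) ≤ ‖p - q‖)
    (J : Set ℂ) (hJc : IsCompact J) (hJp : IsPreconnected J)
    (hZ : MeasureTheory.Measure.hausdorffMeasure κ (J \ ⋃ j, PC K j) = 0)
    (i j : Option ℕ) (hij : i ≠ j) (hi : (J ∩ PC K i).Nonempty) (hj : (J ∩ PC K j).Nonempty) :
    False := by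
  classical
  set m : ℝ := c * min (rr K i) (rr K j) with hm
  have hm0 : 0 < m := mul_pos hc (lt_min (HOP_rr_pos K i) (HOP_rr_pos K j))
  set ε : ℝ := m ^ κ / 8 with hε
  have hε0 : 0 < ε := by
    have := Real.rpow_pos_of_pos hm0 κ
    positivity
  obtain ⟨U, δ, hUo, hUc, hδ, hUδ, hsum⟩ := hHPA κ hκ hκ1 _ hZ ε hε0
  -- widths for the circles
  let w : Option ℕ → ℝ := fun l => (ε * (1 / 2) ^ (HOP_e l + 1)) ^ (1 / κ)
  have hwpos : ∀ l, 0 < w l := fun l => Real.rpow_pos_of_pos (by positivity) _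
  have hwκ : ∀ l, (w l) ^ κ = ε * (1 / 2) ^ (HOP_e l + 1) := by
    intro l
    show ((ε * (1 / 2) ^ (HOP_e l + 1)) ^ (1 / κ)) ^ κ = _
    rw [← Real.rpow_mul (by positivity), one_div_mul_cancel hκ.ne', Real.rpow_one]
  let W : ℕ ⊕ Option ℕ → Set ℂ := fun x => match x with
    | Sum.inl n => U n
    | Sum.inr l => thickening (w l) (PC K l)
  let sz : ℕ ⊕ Option ℕ → ℝ := fun x => match x with
    | Sum.inl n => δ n
    | Sum.inr l => w l
  let Ob : ℕ ⊕ Option ℕ → ℂ ⊕ Option ℕ := fun x => match x with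
    | Sum.inl n => Sum.inl (if h : (U n).Nonempty then h.some else 0)
    | Sum.inr l => Sum.inr l
  have hWo : ∀ x, IsOpen (W x) := by
    rintro (n | l)
    · exact hUo n
    · exact isOpen_thickening
  have hsz : ∀ x, 0 ≤ sz x := by
    rintro (n | l)
    · exact hδ n
    · exact (hwpos l).le
  have hnear : ∀ x, ∀ z ∈ W x, ∃ p ∈ os K (Ob x), ‖p - z‖ ≤ sz x := by
    rintro (n | l) z hz
    · have hne : (U n).Nonempty := ⟨z, hz⟩
      refine ⟨hne.some, ?_, ?_⟩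
      · show hne.some ∈ os K (Sum.inl (if h : (U n).Nonempty then h.some else 0))
        rw [dif_pos hne]
        exact Set.mem_singleton _
      · exact hUδ n _ hne.some_mem _ hz
    · obtain ⟨p, hp, hpz⟩ := mem_thickening_iff.1 hz
      refine ⟨p, hp, ?_⟩
      rw [← dist_eq_norm, dist_comm]
      exact hpz.le
  have hcov : J ⊆ ⋃ x, W x := by
    intro z hz
    by_cases h : z ∈ ⋃ l, PC K l
    · obtain ⟨l, hl⟩ := Set.mem_iUnion.1 h
      exact Set.mem_iUnion.2 ⟨Sum.inr l, self_subset_thickening (hwpos l) _ hl⟩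
    · obtain ⟨n, hn⟩ := Set.mem_iUnion.1 (hUc ⟨hz, h⟩)
      exact Set.mem_iUnion.2 ⟨Sum.inl n, hn⟩
  obtain ⟨t, ht⟩ := hJc.elim_finite_subcover W hWo hcov
  let F : Finset (ℕ ⊕ Option ℕ) := insert (Sum.inr i) (insert (Sum.inr j) t)
  have hF : J ⊆ ⋃ x ∈ F, W x := by
    intro z hz
    obtain ⟨x, hx⟩ := Set.mem_iUnion.1 (ht hz)
    obtain ⟨hx1, hx2⟩ := Set.mem_iUnion.1 hx
    refine Set.mem_iUnion.2 ⟨x, Set.mem_iUnion.2 ⟨?_, hx2⟩⟩
    exact Finset.mem_insert_of_mem (Finset.mem_insert_of_mem hx1)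
  have hthick : ∀ l, (J ∩ PC K l).Nonempty → (J ∩ W (Sum.inr l)).Nonempty := by
    rintro l ⟨z, hz1, hz2⟩
    exact ⟨z, hz1, self_subset_thickening (hwpos l) _ hz2⟩
  obtain ⟨n, s, hs0, hsn, -, hmeet, hinj⟩ := hHPB (ℕ ⊕ Option ℕ) F W J hJp (fun x _ => hWo x) hF
    (Sum.inr i) (Finset.mem_insert_self _ _) (Sum.inr j)
    (Finset.mem_insert_of_mem (Finset.mem_insert_self _ _)) (hthick i hi) (hthick j hj)
  have hch := hCHN K c κ hc hκ hκ1 hk hsep n (fun k => Ob (s k))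
    (fun k => sz (s k) + sz (s (k + 1))) i j hij (by rw [hs0]) (by rw [hsn]) (by
      intro k hkn
      obtain ⟨z, hz1, hz2⟩ := hmeet k hkn
      obtain ⟨p, hp, hpz⟩ := hnear _ z hz1
      obtain ⟨q, hq, hqz⟩ := hnear _ z hz2
      refine ⟨p, hp, q, hq, ?_⟩
      calc ‖p - q‖ = ‖(p - z) - (q - z)‖ := by congr 1; ring
        _ ≤ ‖p - z‖ + ‖q - z‖ := norm_sub_le _ _
        _ ≤ _ := add_le_add hpz hqz)
  -- the sum of the sizes
  have hE : ∀ E : Finset (ℕ ⊕ Option ℕ), ∑ x ∈ E, (sz x) ^ κ ≤ 2 * ε := by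
    intro E
    rw [Finset.sum_sum_eq_sum_toLeft_add_sum_toRight]
    have h1 : ∑ x ∈ E.toLeft, (sz (Sum.inl x)) ^ κ ≤ ε :=
      HOP_sum_le (a := fun n => (δ n) ^ κ) (fun n => Real.rpow_nonneg (hδ n) _) hsum _
    have h2 : ∑ x ∈ E.toRight, (sz (Sum.inr x)) ^ κ ≤ ε := by
      have h3 : ∑ x ∈ E.toRight, (sz (Sum.inr x)) ^ κ =
          ∑ y ∈ E.toRight.image HOP_e, ε * (1 / 2) ^ (y + 1) := by
        rw [Finset.sum_image (fun a _ b _ h => HOP_e_inj h)]
        exact Finset.sum_congr rfl fun x _ => hwκ x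
      rw [h3]
      exact HOP_sum_le (fun n => by positivity) (HOP_geo hε0.le) _
    linarith
  have hle : ∑ k ∈ Finset.range n, (sz (s k) + sz (s (k + 1))) ^ κ ≤ 4 * ε := by
    have h1 : ∑ k ∈ Finset.range n, (sz (s k) + sz (s (k + 1))) ^ κ ≤
        ∑ k ∈ Finset.range n, (sz (s k)) ^ κ + ∑ k ∈ Finset.range n, (sz (s (k + 1))) ^ κ := by
      rw [← Finset.sum_add_distrib]
      exact Finset.sum_le_sum fun k _ => HOP_rpow_add (hsz _) (hsz _) hκ hκ1
    have h2 : ∑ k ∈ Finset.range n, (sz (s k)) ^ κ ≤ 2 * ε := by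
      have h3 : ∑ k ∈ Finset.range n, (sz (s k)) ^ κ =
          ∑ x ∈ (Finset.range n).image s, (sz x) ^ κ := by
        rw [Finset.sum_image]
        intro a ha b hb h
        have ha' := Finset.mem_range.1 (Finset.mem_coe.1 ha)
        have hb' := Finset.mem_range.1 (Finset.mem_coe.1 hb)
        exact hinj (Set.mem_Iic.2 ha'.le) (Set.mem_Iic.2 hb'.le) h
      rw [h3]
      exact hE _
    have h4 : ∑ k ∈ Finset.range n, (sz (s (k + 1))) ^ κ ≤ 2 * ε := by
      have h3 : ∑ k ∈ Finset.range n, (sz (s (k + 1))) ^ κ =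
          ∑ x ∈ (Finset.range n).image (fun k => s (k + 1)), (sz x) ^ κ := by
        rw [Finset.sum_image]
        intro a ha b hb h
        have ha' := Finset.mem_range.1 (Finset.mem_coe.1 ha)
        have hb' := Finset.mem_range.1 (Finset.mem_coe.1 hb)
        have h5 := hinj (Set.mem_Iic.2 (show a + 1 ≤ n by omega))
          (Set.mem_Iic.2 (show b + 1 ≤ n by omega)) h
        omega
      rw [h3]
      exact hE _
    linarith
  have h8 : m ^ κ ≤ 4 * ε := le_trans hch hle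
  have h9 : m ^ κ = 8 * ε := by rw [hε]; ring
  linarith

/-- part (B) -/
theorem HOP_B (K : Cp) {κ : ℝ} (hκ1 : κ ≤ 1) (J : Set ℂ) (hJc : IsCompact J)
    (hJp : IsPreconnected J) (hJn : J.Nontrivial)
    (hZ : MeasureTheory.Measure.hausdorffMeasure κ (J \ ⋃ j, PC K j) = 0)
    (hone : ∀ i j : Option ℕ, i ≠ j → (J ∩ PC K i).Nonempty → (J ∩ PC K j).Nonempty → False) :
    ∃ j, J ⊆ PC K j := by
  by_contra hcon0
  have hcon : ∀ j, ¬ J ⊆ PC K j := fun j h => hcon0 ⟨j, h⟩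
  -- a point off the circles, and a lower bound for its distance from the circles
  obtain ⟨z₀, hz₀, b, hb, hfar⟩ : ∃ z₀ ∈ J, ∃ b : ℝ, 0 < b ∧
      ∀ p ∈ J, p ∈ (⋃ l, PC K l) → b ≤ dist p z₀ := by
    by_cases h : ∃ j, (J ∩ PC K j).Nonempty
    · obtain ⟨j, hj⟩ := h
      obtain ⟨z₀, hz₀, hz₀j⟩ := Set.not_subset.1 (hcon j)
      have hcomp : IsCompact (J ∩ PC K j) := hJc.inter_right isClosed_sphere
      obtain ⟨q, hq, hmin⟩ := hcomp.exists_isMinOn hj
        (f := fun p => dist p z₀) (continuous_id.dist continuous_const).continuousOn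
      refine ⟨z₀, hz₀, dist q z₀, ?_, ?_⟩
      · rw [dist_pos]
        rintro rfl
        exact hz₀j hq.2
      · intro p hp hpl
        obtain ⟨l, hl⟩ := Set.mem_iUnion.1 hpl
        by_cases hlj : l = j
        · subst hlj
          exact hmin ⟨hp, hl⟩
        · exact absurd (hone l j hlj ⟨p, hp, hl⟩ hj) id
    · obtain ⟨z₀, hz₀⟩ := hJn.nonempty
      refine ⟨z₀, hz₀, 1, one_pos, ?_⟩
      intro p hp hpl
      obtain ⟨l, hl⟩ := Set.mem_iUnion.1 hpl
      exact absurd ⟨l, p, hp, hl⟩ h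
  obtain ⟨z₁, hz₁, hne⟩ := hJn.exists_ne z₀
  have hcont : Continuous fun p : ℂ => dist p z₀ := continuous_id.dist continuous_const
  have hint : Set.Icc 0 (dist z₁ z₀) ⊆ (fun p : ℂ => dist p z₀) '' J := by
    have h1 := (hJp.image _ hcont.continuousOn).Icc_subset (Set.mem_image_of_mem _ hz₀)
      (Set.mem_image_of_mem _ hz₁)
    simpa using h1
  set d : ℝ := min (dist z₁ z₀) b with hd
  have hd0 : 0 < d := lt_min (dist_pos.2 hne) hb
  have hsub : Set.Ico 0 d ⊆ (fun p : ℂ => dist p z₀) '' (J \ ⋃ j, PC K j) := by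
    intro x hx
    obtain ⟨p, hp, hpx⟩ := hint ⟨hx.1, le_trans hx.2.le (min_le_left _ _)⟩
    refine ⟨p, ⟨hp, fun hpl => ?_⟩, hpx⟩
    have h2 := hfar p hp hpl
    have h3 : dist p z₀ < b := by
      have h4 : dist p z₀ = x := hpx
      rw [h4]
      exact lt_of_lt_of_le hx.2 (min_le_right _ _)
    linarith
  have hlip : LipschitzWith 1 fun p : ℂ => dist p z₀ := LipschitzWith.dist_left z₀
  have h5 : MeasureTheory.Measure.hausdorffMeasure 1 ((fun p : ℂ => dist p z₀) ''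
      (J \ ⋃ j, PC K j)) ≤ 0 := by
    refine le_trans (hlip.hausdorffMeasure_image_le zero_le_one _) ?_
    have h6 := MeasureTheory.Measure.hausdorffMeasure_mono hκ1 (J \ ⋃ j, PC K j)
    rw [hZ] at h6
    have h7 : MeasureTheory.Measure.hausdorffMeasure 1 (J \ ⋃ j, PC K j) = 0 :=
      le_antisymm h6 bot_le
    rw [h7, mul_zero]
  rw [MeasureTheory.hausdorffMeasure_real] at h5
  have h8 := MeasureTheory.measure_mono (μ := MeasureTheory.volume) hsub
  rw [Real.volume_Ico, sub_zero] at h8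
  have h9 : ENNReal.ofReal d ≤ 0 := le_trans h8 h5
  have h10 : d ≤ 0 := by
    have := le_antisymm h9 bot_le
    exact ENNReal.ofReal_eq_zero.1 this
  linarith

end HOP_sec

theorem thm_HOP (hRSP : St_RSP) (hKAP : St_KAP) (hCHN : St_CHN) (hHPA : St_HPA)
    (hHPB : St_HPB) : St_HOP := by
  intro K Γ hΓ
  obtain ⟨c, hc, hc1, hsep⟩ := hRSP K Γ hΓ
  obtain ⟨κ, hκ, hκ1, hk⟩ := hKAP c hc hc1
  refine ⟨κ, hκ, hκ1, fun J _ hJc hJp hJn hZ => ?_⟩
  refine HOP_B K hκ1 J hJc hJp hJn hZ ?_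
  intro i j hij hi hj
  exact HOP_A hCHN hHPA hHPB K hc hκ hκ1 hk hsep J hJc hJp hZ i j hij hi hj

end RCP
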