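import Pool.Agent.RCP.St

/-!
# RCP, module HPA: covers by small open sets
-/

set_option autoImplicit false

namespace RCP

open Metric RCE
open scoped ENNReal

private theorem HPA_cov (κ : ℝ) (Z : Set ℂ) (hZ : MeasureTheory.Measure.hausdorffMeasure κ Z = 0)
    (e : ℝ) (he : 0 < e) : ∃ t : ℕ → Set ℂ, (Z ⊆ ⋃ n, t n) ∧ (∀ n, ediam (t n) ≤ 1) ∧
      ∑' n, (⨆ _ : (t n).Nonempty, ediam (t n) ^ κ) ≤ ENNReal.ofReal e := by
  rw [MeasureTheory.Measure.hausdorffMeasure_apply] at hZ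
  have h1 : (⨅ (t : ℕ → Set ℂ) (_ : Z ⊆ ⋃ n, t n) (_ : ∀ n, ediam (t n) ≤ 1),
      ∑' n, ⨆ _ : (t n).Nonempty, ediam (t n) ^ κ) ≤ 0 := by
    rw [← hZ]
    exact le_iSup₂ (f := fun (r : ℝ≥0∞) (_ : 0 < r) =>
      ⨅ (t : ℕ → Set ℂ) (_ : Z ⊆ ⋃ n, t n) (_ : ∀ n, ediam (t n) ≤ r),
      ∑' n, ⨆ _ : (t n).Nonempty, ediam (t n) ^ κ) 1 one_pos
  have h2 : (⨅ (t : ℕ → Set ℂ) (_ : Z ⊆ ⋃ n, t n) (_ : ∀ n, ediam (t n) ≤ 1),
      ∑' n, ⨆ _ : (t n).Nonempty, ediam (t n) ^ κ) < ENNReal.ofReal e :=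
    lt_of_le_of_lt h1 (ENNReal.ofReal_pos.2 he)
  obtain ⟨t, ht⟩ := iInf_lt_iff.1 h2
  obtain ⟨ht1, ht⟩ := iInf_lt_iff.1 ht
  obtain ⟨ht2, ht⟩ := iInf_lt_iff.1 ht
  exact ⟨t, ht1, ht2, ht.le⟩

theorem thm_HPA : St_HPA := by
  classical
  intro κ hκ hκ1 Z hZ ε hε
  obtain ⟨t, ht1, ht2, ht3⟩ := HPA_cov κ Z hZ (ε / 2) (by linarith)
  -- the widths
  have hb0 : ∀ n : ℕ, 0 < (ε / 4) * (1 / 2 : ℝ) ^ n := fun n => by positivity
  set b : ℕ → ℝ := fun n => ((ε / 4) * (1 / 2 : ℝ) ^ n) ^ (1 / κ) with hbdef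
  have hb : ∀ n, 0 < b n := fun n => Real.rpow_pos_of_pos (hb0 n) _
  have hbκ : ∀ n, (b n) ^ κ = (ε / 4) * (1 / 2 : ℝ) ^ n := by
    intro n
    rw [hbdef]
    beta_reduce
    rw [← Real.rpow_mul (hb0 n).le, one_div_mul_cancel (ne_of_gt hκ), Real.rpow_one]
  set d : ℕ → ℝ := fun n => (ediam (t n)).toReal with hddef
  have hd0 : ∀ n, 0 ≤ d n := fun n => ENNReal.toReal_nonneg
  have hfin : ∀ n, ediam (t n) ≠ ∞ := fun n => ne_top_of_le_ne_top ENNReal.one_ne_top (ht2 n)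
  refine ⟨fun n => if (t n).Nonempty then thickening (b n / 2) (t n) else ∅,
    fun n => if (t n).Nonempty then d n + b n else 0, ?_, ?_, ?_, ?_, ?_⟩
  · intro n
    beta_reduce
    split_ifs
    · exact isOpen_thickening
    · exact isOpen_empty
  · intro z hz
    obtain ⟨n, hn⟩ := Set.mem_iUnion.1 (ht1 hz)
    refine Set.mem_iUnion.2 ⟨n, ?_⟩
    rw [if_pos ⟨z, hn⟩]
    exact self_subset_thickening (by have := hb n; linarith) _ hn
  · intro n
    beta_reduce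
    split_ifs
    · have h1 := hd0 n
      have h2 := hb n
      linarith
    · exact le_refl _
  · intro n p hp q hq
    beta_reduce at hp hq ⊢
    by_cases hne : (t n).Nonempty
    · rw [if_pos hne] at hp hq ⊢
      obtain ⟨p', hp', hpp⟩ := mem_thickening_iff.1 hp
      obtain ⟨q', hq', hqq⟩ := mem_thickening_iff.1 hq
      have h1 : dist p' q' ≤ d n := by
        have h2 : edist p' q' ≤ ediam (t n) := edist_le_ediam_of_mem hp' hq'
        have h3 := ENNReal.toReal_mono (hfin n) h2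
        rw [edist_dist, ENNReal.toReal_ofReal dist_nonneg] at h3
        exact h3
      have h4 : dist p q ≤ dist p p' + dist p' q' + dist q' q := dist_triangle4 _ _ _ _
      rw [dist_comm q' q] at h4
      rw [← dist_eq_norm]
      linarith
    · rw [if_neg hne] at hp
      exact absurd hp (Set.notMem_empty _)
  · intro N
    have hterm : ∀ n, (if (t n).Nonempty then d n + b n else 0 : ℝ) ^ κ ≤
        (⨆ _ : (t n).Nonempty, ediam (t n) ^ κ).toReal + (ε / 4) * (1 / 2 : ℝ) ^ n := by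
      intro n
      split_ifs with hne
      · have h1 := Real.rpow_add_le_add_rpow (hd0 n) (hb n).le hκ.le hκ1
        have h2 : (⨆ _ : (t n).Nonempty, ediam (t n) ^ κ) = ediam (t n) ^ κ := ciSup_pos hne
        rw [h2, ← ENNReal.toReal_rpow, ← hbκ n]
        exact h1
      · rw [Real.zero_rpow (ne_of_gt hκ)]
        have h1 := hb0 n
        have h2 : 0 ≤ (⨆ _ : (t n).Nonempty, ediam (t n) ^ κ).toReal := ENNReal.toReal_nonneg
        linarith
    have hs1 : ∑ n ∈ Finset.range N, (⨆ _ : (t n).Nonempty, ediam (t n) ^ κ).toReal ≤ ε / 2 := by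
      have hle : ∑ n ∈ Finset.range N, (⨆ _ : (t n).Nonempty, ediam (t n) ^ κ) ≤
          ENNReal.ofReal (ε / 2) := (ENNReal.sum_le_tsum _).trans ht3
      have hne : ∀ n ∈ Finset.range N, (⨆ _ : (t n).Nonempty, ediam (t n) ^ κ) ≠ ∞ := by
        intro n hn
        refine ne_top_of_le_ne_top ENNReal.ofReal_ne_top
          ((Finset.single_le_sum (f := fun n => ⨆ _ : (t n).Nonempty, ediam (t n) ^ κ)
            (fun _ _ => bot_le) hn).trans hle)
      rw [← ENNReal.toReal_sum hne]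
      exact ENNReal.toReal_le_of_le_ofReal (by linarith) hle
    have hs2 : ∑ n ∈ Finset.range N, (ε / 4) * (1 / 2 : ℝ) ^ n ≤ ε / 2 := by
      rw [← Finset.mul_sum]
      have h1 : ∑ n ∈ Finset.range N, (1 / 2 : ℝ) ^ n ≤ 2 := by
        have h2 := sum_geometric_two_le N
        exact h2
      nlinarith
    calc ∑ n ∈ Finset.range N, (if (t n).Nonempty then d n + b n else 0 : ℝ) ^ κ
        ≤ ∑ n ∈ Finset.range N, ((⨆ _ : (t n).Nonempty, ediam (t n) ^ κ).toReal +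
          (ε / 4) * (1 / 2 : ℝ) ^ n) := Finset.sum_le_sum fun n _ => hterm n
      _ = ∑ n ∈ Finset.range N, (⨆ _ : (t n).Nonempty, ediam (t n) ^ κ).toReal +
          ∑ n ∈ Finset.range N, (ε / 4) * (1 / 2 : ℝ) ^ n := Finset.sum_add_distrib
      _ ≤ ε := by linarith

end RCP
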