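import Pool.Agent.RCP.St

/-!
# RCP, module KAP: an inequality for powers
-/

set_option autoImplicit false

namespace RCP

open Metric RCE

private theorem KAP_aux {c κ g₁ g₂ r g : ℝ} (hc : 0 < c) (hκ0 : 0 < κ) (hκ1 : κ ≤ 1) (hκ : κ * (1 + 2 / c) = 1) (hr : 0 ≤ r)
    (h2 : c * r ≤ g₂) (hg : 0 ≤ g) (hgg : g ≤ g₁ + g₂ + 2 * r) (h12 : g₂ ≤ g₁) : g ^ κ ≤ g₁ ^ κ + g₂ ^ κ := by
  have hg2 : 0 ≤ g₂ := (mul_nonneg hc.le hr).trans h2
  have hg1 : 0 ≤ g₁ := hg2.trans h12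
  have hr2 : r ≤ g₂ / c := by
    rw [le_div_iff₀ hc]
    linarith
  have h3 : g ≤ g₁ + (1 + 2 / c) * g₂ := by
    have : 2 * (g₂ / c) = 2 / c * g₂ := by ring
    nlinarith
  rcases hg1.eq_or_lt with h0 | h0
  · rw [← h0] at h12 h3 ⊢
    have h4 : g₂ = 0 := le_antisymm h12 hg2
    rw [h4] at h3 ⊢
    have h5 : g = 0 := by
      apply le_antisymm _ hg
      linarith
    rw [h5, Real.zero_rpow hκ0.ne']
    norm_num
  · set t : ℝ := g₂ / g₁ with ht
    have ht0 : 0 ≤ t := div_nonneg hg2 hg1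
    have ht1 : t ≤ 1 := (div_le_one h0).2 h12
    have htg : g₂ = g₁ * t := by
      rw [ht]
      field_simp
    have hC : 0 ≤ (1 + 2 / c) * t := by positivity
    have h4 : g ≤ g₁ * (1 + (1 + 2 / c) * t) := by
      refine h3.trans (le_of_eq ?_)
      rw [htg]
      ring
    have h5 : (1 + (1 + 2 / c) * t) ^ κ ≤ 1 + t := by
      refine (rpow_one_add_le_one_add_mul_self (by linarith) hκ0.le hκ1).trans (le_of_eq ?_)
      rw [← mul_assoc, hκ, one_mul]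
    have h6 : t ≤ t ^ κ := by
      rcases ht0.eq_or_lt with h7 | h7
      · rw [← h7, Real.zero_rpow hκ0.ne']
      · calc t = t ^ (1 : ℝ) := (Real.rpow_one t).symm
          _ ≤ t ^ κ := Real.rpow_le_rpow_of_exponent_ge h7 ht1 hκ1
    calc g ^ κ ≤ (g₁ * (1 + (1 + 2 / c) * t)) ^ κ := Real.rpow_le_rpow hg h4 hκ0.le
      _ = g₁ ^ κ * (1 + (1 + 2 / c) * t) ^ κ := Real.mul_rpow hg1 (by linarith)
      _ ≤ g₁ ^ κ * (1 + t) := mul_le_mul_of_nonneg_left h5 (Real.rpow_nonneg hg1 _)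
      _ ≤ g₁ ^ κ * (1 + t ^ κ) := mul_le_mul_of_nonneg_left (by linarith) (Real.rpow_nonneg hg1 _)
      _ = g₁ ^ κ + (g₁ * t) ^ κ := by
        rw [Real.mul_rpow hg1 ht0]
        ring
      _ = g₁ ^ κ + g₂ ^ κ := by rw [← htg]

theorem thm_KAP : St_KAP := by
  intro c hc hc1
  have hC : 0 < 1 + 2 / c := by positivity
  have hC1 : 1 ≤ 1 + 2 / c := by
    have : 0 < 2 / c := by positivity
    linarith
  refine ⟨1 / (1 + 2 / c), by positivity, ?_, ?_⟩
  · rw [div_le_one hC]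
    exact hC1
  · intro g₁ g₂ r g hr h1 h2 hg hgg
    have hκ : 1 / (1 + 2 / c) * (1 + 2 / c) = 1 := by
      rw [one_div, inv_mul_cancel₀ hC.ne']
    have hκ1 : 1 / (1 + 2 / c) ≤ 1 := by
      rw [div_le_one hC]
      exact hC1
    rcases le_total g₂ g₁ with h | h
    · exact KAP_aux hc (by positivity) hκ1 hκ hr h2 hg hgg h
    · have := KAP_aux hc (by positivity) hκ1 hκ hr h1 hg (by linarith) h
      linarith

end RCP
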