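import Pool.Agent.RCP.St

/-!
# RCP, module LGA: logarithms on an annulus
-/

set_option autoImplicit false

namespace RCP

open Metric RCE

/-- the unit circle as a path -/
private noncomputable def LGA_E (t : ℝ) : ℂ := Complex.exp (2 * Real.pi * t * Complex.I)

private theorem LGA_E_cont : Continuous LGA_E := by
  unfold LGA_E
  fun_prop

private theorem LGA_E_norm (t : ℝ) : ‖LGA_E t‖ = 1 := by
  unfold LGA_E
  have h : (2 * Real.pi * t * Complex.I : ℂ) = ((2 * Real.pi * t : ℝ) : ℂ) * Complex.I := by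
    push_cast
    ring
  rw [h, Complex.norm_exp_ofReal_mul_I]

private theorem LGA_E_zero : LGA_E 0 = 1 := by
  unfold LGA_E
  simp

private theorem LGA_E_one : LGA_E 1 = 1 := by
  unfold LGA_E
  have h : (2 * Real.pi * (1 : ℝ) * Complex.I : ℂ) = 2 * Real.pi * Complex.I := by
    push_cast
    ring
  rw [h, Complex.exp_two_pi_mul_I]

private theorem LGA_E_eq {s t : ℝ} (h : LGA_E s = LGA_E t) : ∃ n : ℤ, s = t + n := by
  unfold LGA_E at h
  obtain ⟨n, hn⟩ := Complex.exp_eq_exp_iff_exists_int.1 h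
  refine ⟨n, ?_⟩
  have h1 : (2 * Real.pi * Complex.I : ℂ) ≠ 0 := Complex.two_pi_I_ne_zero
  have h2 : (2 * Real.pi * Complex.I : ℂ) * (s : ℂ) = (2 * Real.pi * Complex.I) * ((t : ℂ) + n) := by
    linear_combination hn
  have h3 := mul_left_cancel₀ h1 h2
  exact_mod_cast h3

private theorem LGA_E_surj (u : ℂ) (hu : ‖u‖ = 1) : ∃ t ∈ Set.Icc (0 : ℝ) 1, LGA_E t = u := by
  have h1 : Complex.exp (Complex.arg u * Complex.I) = u := by
    have h := Complex.norm_mul_exp_arg_mul_I u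
    rw [hu] at h
    simpa using h
  have hpi : (0 : ℝ) < 2 * Real.pi := Real.two_pi_pos
  have h2 := Complex.neg_pi_lt_arg u
  have h3 := Complex.arg_le_pi u
  have h4 : LGA_E (Complex.arg u / (2 * Real.pi)) = u := by
    unfold LGA_E
    rw [← h1]
    congr 1
    push_cast
    field_simp
    simp [h1]
  rcases le_total 0 (Complex.arg u) with h | h
  · refine ⟨Complex.arg u / (2 * Real.pi), ⟨div_nonneg h hpi.le, ?_⟩, h4⟩
    rw [div_le_one hpi]
    linarith
  · refine ⟨Complex.arg u / (2 * Real.pi) + 1, ⟨?_, ?_⟩, ?_⟩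
    · have : -1 ≤ Complex.arg u / (2 * Real.pi) := by
        rw [le_div_iff₀ hpi]
        linarith
      linarith
    · have : Complex.arg u / (2 * Real.pi) ≤ 0 := div_nonpos_of_nonpos_of_nonneg h hpi.le
      linarith
    · unfold LGA_E at h4 ⊢
      have e : (2 * Real.pi * ((Complex.arg u / (2 * Real.pi) + 1 : ℝ) : ℂ) * Complex.I) =
          2 * Real.pi * ((Complex.arg u / (2 * Real.pi) : ℝ) : ℂ) * Complex.I +
            2 * Real.pi * Complex.I := by
        push_cast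
        ring
      rw [e, Complex.exp_add, Complex.exp_two_pi_mul_I, mul_one]
      exact h4

/-- a continuous function with values in the periods is constant -/
private theorem LGA_const (f : ℝ → ℂ) (hf : ContinuousOn f (Set.Icc 0 1))
    (h1 : ∀ s ∈ Set.Icc (0 : ℝ) 1, Complex.exp (f s) = 1) : f 0 = f 1 := by
  have hper : ∀ s ∈ Set.Icc (0 : ℝ) 1, ∃ n : ℤ, f s = n * (2 * Real.pi * Complex.I) := fun s hs =>
    Complex.exp_eq_one_iff.1 (h1 s hs)
  have hpi : (0 : ℝ) < 2 * Real.pi := Real.two_pi_pos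
  have him : ∀ n : ℤ, ((n : ℂ) * (2 * Real.pi * Complex.I)).im = n * (2 * Real.pi) := by
    intro n
    simp
  have hc : ContinuousOn (fun s => (f s).im) (Set.Icc 0 1) :=
    Complex.continuous_im.comp_continuousOn hf
  obtain ⟨a, ha⟩ := hper 0 ⟨le_rfl, zero_le_one⟩
  obtain ⟨b, hb⟩ := hper 1 ⟨zero_le_one, le_rfl⟩
  have hno : ∀ x : ℝ, (∃ s ∈ Set.Icc (0 : ℝ) 1, (f s).im = x) → ∃ n : ℤ, x = n * (2 * Real.pi) := by
    rintro x ⟨s, hs, rfl⟩
    obtain ⟨n, hn⟩ := hper s hs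
    exact ⟨n, by rw [hn, him]⟩
  have hhalf : ∀ c : ℤ, ¬ ∃ n : ℤ, ((c : ℝ) + 1 / 2) * (2 * Real.pi) = n * (2 * Real.pi) := by
    rintro c ⟨n, hn⟩
    have h2 := mul_right_cancel₀ hpi.ne' hn
    have h3 : (2 * c + 1 : ℝ) = 2 * n := by linarith
    have h4 : (2 * c + 1 : ℤ) = 2 * n := by exact_mod_cast h3
    omega
  have hab : a = b := by
    rcases lt_trichotomy a b with h | h | h
    · exfalso
      have h2 : ((a : ℝ) + 1 / 2) * (2 * Real.pi) ∈ Set.Icc ((f 0).im) ((f 1).im) := by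
        rw [ha, hb, him, him]
        have h3 : (a : ℝ) + 1 ≤ b := by exact_mod_cast h
        constructor
        · nlinarith
        · nlinarith
      obtain ⟨s, hs, h3⟩ := intermediate_value_Icc zero_le_one hc h2
      exact hhalf a (hno _ ⟨s, hs, h3⟩)
    · exact h
    · exfalso
      have h2 : ((b : ℝ) + 1 / 2) * (2 * Real.pi) ∈ Set.Icc ((f 1).im) ((f 0).im) := by
        rw [ha, hb, him, him]
        have h3 : (b : ℝ) + 1 ≤ a := by exact_mod_cast h
        constructor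
        · nlinarith
        · nlinarith
      obtain ⟨s, hs, h3⟩ := intermediate_value_Icc' zero_le_one hc h2
      exact hhalf b (hno _ ⟨s, hs, h3⟩)
  rw [ha, hb, hab]

/-- the radii of nested balls -/
private theorem LGA_rad {c₀ c₁ : ℂ} {r₀ r₁ : ℝ} (h1 : 0 < r₁)
    (h : closedBall c₁ r₁ ⊆ ball c₀ r₀) : ‖c₁ - c₀‖ + r₁ ≤ r₀ := by
  by_cases hc : c₁ = c₀
  · have h2 : c₁ + r₁ ∈ closedBall c₁ r₁ := by
      rw [mem_closedBall, dist_eq_norm]
      simp [abs_of_pos h1]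
    have h3 := h h2
    rw [mem_ball, dist_eq_norm, hc] at h3
    rw [hc, sub_self, norm_zero, zero_add]
    simp [abs_of_pos h1] at h3
    exact h3.le
  · have hn : 0 < ‖c₁ - c₀‖ := norm_pos_iff.2 (sub_ne_zero.2 hc)
    have h2 : c₁ + (r₁ / ‖c₁ - c₀‖ : ℝ) * (c₁ - c₀) ∈ closedBall c₁ r₁ := by
      rw [mem_closedBall, dist_eq_norm, add_sub_cancel_left, norm_mul, Complex.norm_real,
        Real.norm_of_nonneg (div_nonneg h1.le hn.le), div_mul_cancel₀ _ hn.ne']
    have h3 := h h2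
    rw [mem_ball, dist_eq_norm] at h3
    have e : c₁ + (r₁ / ‖c₁ - c₀‖ : ℝ) * (c₁ - c₀) - c₀ =
        ((1 + r₁ / ‖c₁ - c₀‖ : ℝ) : ℂ) * (c₁ - c₀) := by
      push_cast
      ring
    rw [e, norm_mul, Complex.norm_real, Real.norm_of_nonneg (by positivity), add_mul, one_mul,
      div_mul_cancel₀ _ hn.ne'] at h3
    exact h3.le

theorem thm_LGA (hLGC : St_LGC) : St_LGA := by
  intro c₀ c₁ r₀ r₁ g hr hsub hg hg0 hout
  obtain ⟨h, hh, hhe⟩ := hout
  have hrad := LGA_rad hr hsub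
  have hr0 : 0 < r₀ := by
    have := norm_nonneg (c₁ - c₀)
    linarith
  -- the homotopy
  obtain ⟨H, hH⟩ : ∃ H : ℂ → ℂ, H = fun z => (1 - (z.re : ℂ)) * (c₁ + r₁ * LGA_E z.im) +
    (z.re : ℂ) * (c₀ + r₀ * LGA_E z.im) := ⟨_, rfl⟩
  have hHc : Continuous H := by
    rw [hH]
    have h1 : Continuous fun z : ℂ => LGA_E z.im := LGA_E_cont.comp Complex.continuous_im
    have h2 : Continuous fun z : ℂ => (z.re : ℂ) := Complex.continuous_ofReal.comp Complex.continuous_re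
    exact ((continuous_const.sub h2).mul (continuous_const.add (continuous_const.mul h1))).add
      (h2.mul (continuous_const.add (continuous_const.mul h1)))
  obtain ⟨S, hS⟩ : ∃ S : Set ℂ, S = {z | (0 ≤ z.re ∧ z.re ≤ 1) ∧ 0 ≤ z.im ∧ z.im ≤ 1} := ⟨_, rfl⟩
  have hHA : ∀ z ∈ S, H z ∈ closedBall c₀ r₀ \ ball c₁ r₁ := by
    intro z hz
    rw [hS] at hz
    obtain ⟨⟨z1, z2⟩, -⟩ := hz
    have hE := LGA_E_norm z.im
    constructor
    · rw [mem_closedBall, dist_eq_norm, hH]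
      have e : (1 - (z.re : ℂ)) * (c₁ + r₁ * LGA_E z.im) +
          (z.re : ℂ) * (c₀ + r₀ * LGA_E z.im) - c₀ =
          ((1 - z.re : ℝ) : ℂ) * ((c₁ - c₀) + r₁ * LGA_E z.im) + (z.re : ℂ) * (r₀ * LGA_E z.im) := by
        push_cast
        ring
      show ‖(1 - (z.re : ℂ)) * (c₁ + r₁ * LGA_E z.im) +
          (z.re : ℂ) * (c₀ + r₀ * LGA_E z.im) - c₀‖ ≤ r₀
      rw [e]
      refine (norm_add_le _ _).trans ?_
      rw [norm_mul, norm_mul, norm_mul, Complex.norm_real, Complex.norm_real, Complex.norm_real,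
        Real.norm_of_nonneg z1, Real.norm_of_nonneg (by linarith), Real.norm_of_nonneg hr0.le, hE,
        mul_one]
      have h2 : ‖(c₁ - c₀) + r₁ * LGA_E z.im‖ ≤ r₀ := by
        refine (norm_add_le _ _).trans ?_
        rw [norm_mul, Complex.norm_real, Real.norm_of_nonneg hr.le, hE, mul_one]
        exact hrad
      nlinarith
    · rw [mem_ball, dist_eq_norm, not_lt, hH]
      have e : (1 - (z.re : ℂ)) * (c₁ + r₁ * LGA_E z.im) +
          (z.re : ℂ) * (c₀ + r₀ * LGA_E z.im) - c₁ =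
          (((1 - z.re) * r₁ + z.re * r₀ : ℝ) : ℂ) * LGA_E z.im - (z.re : ℂ) * (c₁ - c₀) := by
        push_cast
        ring
      show r₁ ≤ ‖(1 - (z.re : ℂ)) * (c₁ + r₁ * LGA_E z.im) +
          (z.re : ℂ) * (c₀ + r₀ * LGA_E z.im) - c₁‖
      rw [e]
      refine le_trans ?_ (norm_sub_norm_le _ _)
      have h3 : 0 ≤ (1 - z.re) * r₁ + z.re * r₀ :=
        add_nonneg (mul_nonneg (by linarith) hr.le) (mul_nonneg z1 hr0.le)
      rw [norm_mul, norm_mul, Complex.norm_real, Complex.norm_real, Real.norm_of_nonneg z1,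
        Real.norm_of_nonneg h3, hE, mul_one]
      nlinarith
  -- the logarithm on the square
  obtain ⟨L, hL, hLe⟩ := hLGC S (fun z => ((max 0 (min 1 z.re) : ℝ) : ℂ) +
      ((max 0 (min 1 z.im) : ℝ) : ℂ) * Complex.I)
    (by
      have h1 : Continuous fun z : ℂ => ((max 0 (min 1 z.re) : ℝ) : ℂ) :=
        Complex.continuous_ofReal.comp (continuous_const.max (continuous_const.min Complex.continuous_re))
      have h2 : Continuous fun z : ℂ => ((max 0 (min 1 z.im) : ℝ) : ℂ) :=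
        Complex.continuous_ofReal.comp (continuous_const.max (continuous_const.min Complex.continuous_im))
      exact h1.add (h2.mul continuous_const))
    (by
      intro z
      rw [hS]
      refine ⟨?_, ?_⟩
      · simp
      · simp)
    (by
      intro z hz
      rw [hS] at hz
      obtain ⟨⟨z1, z2⟩, z3, z4⟩ := hz
      show ((max 0 (min 1 z.re) : ℝ) : ℂ) + ((max 0 (min 1 z.im) : ℝ) : ℂ) * Complex.I = z
      rw [min_eq_right z2, min_eq_right z4, max_eq_right z1, max_eq_right z3]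
      exact Complex.re_add_im z)
    (fun z => g (H z)) (hg.comp hHc.continuousOn hHA) (fun z hz => hg0 _ (hHA z hz))
  -- the path of a point of the square
  have hpt : ∀ s t : ℝ, s ∈ Set.Icc (0 : ℝ) 1 → t ∈ Set.Icc (0 : ℝ) 1 → (s + t * Complex.I : ℂ) ∈ S := by
    intro s t hs ht
    rw [hS]
    refine ⟨?_, ?_⟩
    · simpa using hs
    · simpa using ht
  have hHpt : ∀ s t : ℝ, H (s + t * Complex.I) =
      (1 - (s : ℂ)) * (c₁ + r₁ * LGA_E t) + (s : ℂ) * (c₀ + r₀ * LGA_E t) := by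
    intro s t
    rw [hH]
    simp
  have h01 : (0 : ℝ) ∈ Set.Icc (0 : ℝ) 1 := ⟨le_rfl, zero_le_one⟩
  have h11 : (1 : ℝ) ∈ Set.Icc (0 : ℝ) 1 := ⟨zero_le_one, le_rfl⟩
  have hc1 : ∀ s ∈ Set.Icc (0 : ℝ) 1, ContinuousOn (fun t : ℝ => L (s + t * Complex.I)) (Set.Icc 0 1) := by
    intro s hs
    refine hL.comp (f := fun t : ℝ => (s + t * Complex.I : ℂ)) ?_ fun t ht => hpt s t hs ht
    exact Continuous.continuousOn (by fun_prop)
  have hc2 : ∀ t ∈ Set.Icc (0 : ℝ) 1, ContinuousOn (fun s : ℝ => L (s + t * Complex.I)) (Set.Icc 0 1) := by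
    intro t ht
    refine hL.comp (f := fun s : ℝ => (s + t * Complex.I : ℂ)) ?_ fun s hs => hpt s t hs ht
    exact Continuous.continuousOn (by fun_prop)
  -- the outer circle
  have hsph : ∀ t : ℝ, c₀ + r₀ * LGA_E t ∈ sphere c₀ r₀ := by
    intro t
    rw [mem_sphere, dist_eq_norm, add_sub_cancel_left, norm_mul, Complex.norm_real,
      Real.norm_of_nonneg hr0.le, LGA_E_norm, mul_one]
  have hL1 : L ((1 : ℝ) + (0 : ℝ) * Complex.I) = L ((1 : ℝ) + (1 : ℝ) * Complex.I) := by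
    have h1 := LGA_const (fun t => L ((1 : ℝ) + t * Complex.I) - h (c₀ + r₀ * LGA_E t))
      ((hc1 1 h11).sub (hh.comp (f := fun t : ℝ => c₀ + r₀ * LGA_E t)
        (Continuous.continuousOn (continuous_const.add (continuous_const.mul LGA_E_cont)))
        fun t _ => hsph t)) (by
      intro t ht
      have h2 : g (c₀ + r₀ * LGA_E t) ≠ 0 := by
        rw [← hhe _ (hsph t)]
        exact Complex.exp_ne_zero _
      show Complex.exp (L ((1 : ℝ) + t * Complex.I) - h (c₀ + r₀ * LGA_E t)) = 1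
      rw [Complex.exp_sub, hLe _ (hpt 1 t h11 ht), hhe _ (hsph t), hHpt]
      have e : (1 - ((1 : ℝ) : ℂ)) * (c₁ + r₁ * LGA_E t) + ((1 : ℝ) : ℂ) * (c₀ + r₀ * LGA_E t) =
          c₀ + r₀ * LGA_E t := by
        push_cast
        ring
      rw [e]
      exact div_self h2)
    have h3 : L ((1 : ℝ) + (0 : ℝ) * Complex.I) - h (c₀ + r₀ * LGA_E 0) =
        L ((1 : ℝ) + (1 : ℝ) * Complex.I) - h (c₀ + r₀ * LGA_E 1) := h1
    rw [LGA_E_zero, LGA_E_one] at h3
    exact sub_left_injective h3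
  -- the inner circle
  have hL0 : L ((0 : ℝ) + (0 : ℝ) * Complex.I) = L ((0 : ℝ) + (1 : ℝ) * Complex.I) := by
    have h1 := LGA_const (fun s => L (s + (0 : ℝ) * Complex.I) - L (s + (1 : ℝ) * Complex.I))
      ((hc2 0 h01).sub (hc2 1 h11)) (by
      intro s hs
      have h2 : g (H (s + (1 : ℝ) * Complex.I)) ≠ 0 := hg0 _ (hHA _ (hpt s 1 hs h11))
      show Complex.exp (L (s + (0 : ℝ) * Complex.I) - L (s + (1 : ℝ) * Complex.I)) = 1
      rw [Complex.exp_sub, hLe _ (hpt s 0 hs h01), hLe _ (hpt s 1 hs h11)]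
      have e : H (s + (0 : ℝ) * Complex.I) = H (s + (1 : ℝ) * Complex.I) := by
        rw [hHpt, hHpt, LGA_E_zero, LGA_E_one]
      rw [e]
      exact div_self h2)
    have h3 : L ((0 : ℝ) + (0 : ℝ) * Complex.I) - L ((0 : ℝ) + (1 : ℝ) * Complex.I) =
        L ((1 : ℝ) + (0 : ℝ) * Complex.I) - L ((1 : ℝ) + (1 : ℝ) * Complex.I) := h1
    rw [hL1, sub_self] at h3
    exact sub_eq_zero.1 h3
  obtain ⟨ℓ, hℓ⟩ : ∃ ℓ : ℝ → ℂ, ℓ = fun t : ℝ => L ((0 : ℝ) + t * Complex.I) := ⟨_, rfl⟩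
  have hℓc : ContinuousOn ℓ (Set.Icc 0 1) := by
    rw [hℓ]
    exact hc1 0 h01
  have hℓ01 : ℓ 0 = ℓ 1 := by
    rw [hℓ]
    exact hL0
  obtain ⟨e, he⟩ : ∃ e : ℝ → ℂ, e = fun t => c₁ + r₁ * LGA_E t := ⟨_, rfl⟩
  have hec : Continuous e := by
    rw [he]
    exact continuous_const.add (continuous_const.mul LGA_E_cont)
  have hℓe : ∀ t ∈ Set.Icc (0 : ℝ) 1, Complex.exp (ℓ t) = g (e t) := by
    intro t ht
    rw [hℓ, he]
    show Complex.exp (L ((0 : ℝ) + t * Complex.I)) = _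
    rw [hLe _ (hpt 0 t h01 ht), hHpt]
    congr 1
    push_cast
    ring
  have hinj : ∀ s ∈ Set.Icc (0 : ℝ) 1, ∀ t ∈ Set.Icc (0 : ℝ) 1, e s = e t → ℓ s = ℓ t := by
    intro s hs t ht hst
    rw [he] at hst
    have h1 : (r₁ : ℂ) * LGA_E s = r₁ * LGA_E t := add_left_cancel hst
    have h2 : LGA_E s = LGA_E t :=
      mul_left_cancel₀ (by exact_mod_cast hr.ne' : (r₁ : ℂ) ≠ 0) h1
    obtain ⟨n, hn⟩ := LGA_E_eq h2
    obtain ⟨s1, s2⟩ := hs
    obtain ⟨t1, t2⟩ := ht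
    have hn1 : n < 2 := by
      have : (n : ℝ) < 2 := by linarith
      exact_mod_cast this
    have hn2 : -2 < n := by
      have : (-2 : ℝ) < n := by linarith
      exact_mod_cast this
    have hn3 : n = -1 ∨ n = 0 ∨ n = 1 := by omega
    rcases hn3 with rfl | rfl | rfl
    · have e1 : s = 0 := by
        push_cast at hn
        linarith
      have e2 : t = 1 := by
        push_cast at hn
        linarith
      rw [e1, e2, hℓ01]
    · rw [hn]
      simp
    · have e1 : s = 1 := by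
        push_cast at hn
        linarith
      have e2 : t = 0 := by
        push_cast at hn
        linarith
      rw [e1, e2, hℓ01]
  have hsurj : ∀ p ∈ sphere c₁ r₁, ∃ t ∈ Set.Icc (0 : ℝ) 1, e t = p := by
    intro p hp
    rw [mem_sphere, dist_eq_norm] at hp
    have hr' : (r₁ : ℂ) ≠ 0 := by exact_mod_cast hr.ne'
    obtain ⟨t, ht, h1⟩ := LGA_E_surj ((p - c₁) / r₁) (by
      rw [norm_div, hp, Complex.norm_real, Real.norm_of_nonneg hr.le, div_self hr.ne'])
    refine ⟨t, ht, ?_⟩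
    rw [he]
    show c₁ + r₁ * LGA_E t = p
    rw [h1, mul_div_cancel₀ _ hr']
    ring
  classical
  obtain ⟨h₁, hh₁⟩ : ∃ h₁ : ℂ → ℂ, ∀ t ∈ Set.Icc (0 : ℝ) 1, h₁ (e t) = ℓ t := by
    refine ⟨fun p => if hp : ∃ t ∈ Set.Icc (0 : ℝ) 1, e t = p then ℓ hp.choose else 0,
      fun t ht => ?_⟩
    have hp : ∃ t' ∈ Set.Icc (0 : ℝ) 1, e t' = e t := ⟨t, ht, rfl⟩
    show (if hp : ∃ t' ∈ Set.Icc (0 : ℝ) 1, e t' = e t then ℓ hp.choose else 0) = ℓ t
    rw [dif_pos hp]
    exact hinj _ hp.choose_spec.1 t ht hp.choose_spec.2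
  refine ⟨h₁, ?_, fun p hp => ?_⟩
  · rw [continuousOn_iff_isClosed]
    intro C hC
    refine ⟨e '' (Set.Icc 0 1 ∩ ℓ ⁻¹' C), ?_, ?_⟩
    · have h1 : IsClosed (Set.Icc (0 : ℝ) 1 ∩ ℓ ⁻¹' C) := hℓc.preimage_isClosed_of_isClosed isClosed_Icc hC
      have h2 : IsCompact (Set.Icc (0 : ℝ) 1 ∩ ℓ ⁻¹' C) :=
        isCompact_Icc.of_isClosed_subset h1 Set.inter_subset_left
      exact (h2.image hec).isClosed
    · ext p
      constructor
      · rintro ⟨hp1, hp2⟩
        refine ⟨?_, hp2⟩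
        obtain ⟨t, ht, rfl⟩ := hsurj p hp2
        refine ⟨t, ⟨ht, ?_⟩, rfl⟩
        have h2 : h₁ (e t) ∈ C := hp1
        rw [hh₁ t ht] at h2
        exact h2
      · rintro ⟨⟨t, ⟨ht, ht2⟩, rfl⟩, hp2⟩
        refine ⟨?_, hp2⟩
        show h₁ (e t) ∈ C
        rw [hh₁ t ht]
        exact ht2
  · obtain ⟨t, ht, rfl⟩ := hsurj p hp
    rw [hh₁ t ht, hℓe t ht]

end RCP
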