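import Pool.Agent.RCP.St

/-!
# RCP, module LGB: continuous logarithms on closed discs
-/

set_option autoImplicit false

namespace RCP

open Metric RCE

theorem thm_LGB (hLGC : St_LGC) : St_LGB := by
  intro c r g hr hg h0
  have hm : ∀ p : ℂ, 0 < max r ‖p - c‖ := fun p => lt_of_lt_of_le hr (le_max_left _ _)
  apply hLGC (closedBall c r) (fun p => c + ((r / max r ‖p - c‖ : ℝ) : ℂ) * (p - c))
  · have h1 : Continuous fun p : ℂ => (r / max r ‖p - c‖ : ℝ) := by
      apply Continuous.div continuous_const
      · exact continuous_const.max ((continuous_id.sub continuous_const).norm)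
      · intro p
        exact (hm p).ne'
    exact continuous_const.add ((Complex.continuous_ofReal.comp h1).mul (continuous_id.sub continuous_const))
  · intro p
    rw [mem_closedBall, dist_eq_norm, add_sub_cancel_left, norm_mul, Complex.norm_real,
      Real.norm_of_nonneg (div_nonneg hr.le (hm p).le), div_mul_eq_mul_div, div_le_iff₀ (hm p)]
    exact mul_le_mul_of_nonneg_left (le_max_right _ _) hr.le
  · intro p hp
    rw [mem_closedBall, dist_eq_norm] at hp
    show c + ((r / max r ‖p - c‖ : ℝ) : ℂ) * (p - c) = p
    rw [max_eq_left hp, div_self hr.ne']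
    push_cast
    ring
  · exact hg
  · exact h0

end RCP
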