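import Pool.Agent.RCP.St

/-!
# RCP, module LGC: continuous logarithms on retracts of the plane
-/

set_option autoImplicit false

namespace RCP

open Metric RCE

theorem thm_LGC : St_LGC := by
  intro S π hπ hS hid g hg h0
  have hsc : IsSimplyConnected (Set.univ : Set ℂ) := by
    have hc : ContractibleSpace (Set.univ : Set ℂ) := (convex_univ (𝕜 := ℝ)).contractibleSpace Set.univ_nonempty
    show SimplyConnectedSpace (Set.univ : Set ℂ)
    infer_instance
  obtain ⟨h, hh, he⟩ := Complex.exists_continuousOn_eqOn_exp_comp (X := ℂ) (U := Set.univ) hsc isOpen_univ (g := g ∘ π)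
    (hg.comp hπ.continuousOn (fun p _ => hS p)) (by
      rintro ⟨p, _, hp⟩
      exact h0 (π p) (hS p) hp)
  refine ⟨h, hh.mono (Set.subset_univ _), ?_⟩
  intro p hp
  have h1 := he (Set.mem_univ p)
  simp only [Function.comp_apply] at h1
  rw [h1, hid p hp]

end RCP
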