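import Pool.Agent.RCP.St

/-!
# RCP, module LGH: continuous logarithms on a disc without a point which is not interior
-/

set_option autoImplicit false

namespace RCP

open Metric RCE

private theorem LGH_re {c z q : ℂ} {r : ℝ} (hr : 0 < r) (hz : r ≤ ‖z - c‖) (hq : ‖q - c‖ ≤ r) (hqz : q ≠ z) :
    0 < ((q - z) / (c - z)).re := by
  have hcz : 0 < ‖c - z‖ := by
    rw [norm_sub_rev]
    linarith
  have hcz' : Complex.normSq (c - z) = ‖c - z‖ ^ 2 := Complex.normSq_eq_norm_sq _
  -- `|q - z|² - |q - c|² + |c - z|² = 2 re ((q - z) conj (c - z))`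
  have h1 : ‖q - c‖ ^ 2 = ‖q - z‖ ^ 2 - 2 * ((q - z).re * (c - z).re + (q - z).im * (c - z).im) + ‖c - z‖ ^ 2 := by
    rw [← Complex.normSq_eq_norm_sq, ← Complex.normSq_eq_norm_sq, ← Complex.normSq_eq_norm_sq, Complex.normSq_apply,
      Complex.normSq_apply, Complex.normSq_apply]
    simp only [Complex.sub_re, Complex.sub_im]
    ring
  have h2 : ‖q - c‖ ^ 2 ≤ ‖c - z‖ ^ 2 := by
    apply pow_le_pow_left₀ (norm_nonneg _)
    rw [norm_sub_rev c z]
    linarith
  have h3 : 0 < ‖q - z‖ ^ 2 := by
    have : 0 < ‖q - z‖ := norm_pos_iff.2 (sub_ne_zero.2 hqz)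
    positivity
  have h4 : 0 < (q - z).re * (c - z).re + (q - z).im * (c - z).im := by linarith
  rw [Complex.div_re, hcz', ← add_div]
  exact div_pos h4 (by positivity)

theorem thm_LGH : St_LGH := by
  intro c z r hr hz
  have hcz : c - z ≠ 0 := by
    intro h
    rw [norm_sub_rev, h, norm_zero] at hz
    linarith
  refine ⟨fun q => Complex.log ((q - z) / (c - z)) + Complex.log (c - z), ?_, ?_⟩
  · apply ContinuousOn.add _ continuousOn_const
    apply ContinuousOn.clog
    · exact ((continuous_id.sub continuous_const).div_const _).continuousOn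
    · rintro q ⟨hq, hqz⟩
      left
      exact LGH_re hr hz (by rwa [mem_closedBall, dist_eq_norm] at hq) hqz
  · rintro q ⟨hq, hqz⟩
    have hqz' : q - z ≠ 0 := sub_ne_zero.2 hqz
    show Complex.exp (Complex.log ((q - z) / (c - z)) + Complex.log (c - z)) = q - z
    rw [Complex.exp_add, Complex.exp_log (div_ne_zero hqz' hcz), Complex.exp_log hcz, div_mul_cancel₀ _ hcz]

end RCP
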