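import Pool.Agent.RCP.St

/-!
# RCP: images of peripheral circles are almost straight
-/

set_option autoImplicit false

namespace RCP

open Metric RCE

private theorem LIN_rr (K : Cp) (j : Option ℕ) : 0 < rr K j := by
  cases j with
  | none => exact K.r₀pos
  | some i => exact K.rpos i

/-- one scale -/
private theorem LIN_one {f : ℂ → ℂ} {c x : ℂ} {r θ M R l : ℝ} {A : ℂ →ₗ[ℝ] ℂ} (hr : 0 < r)
    (hx : ‖x - c‖ = r) (hR : 0 < R) (hRr : R ≤ r) (hθ : 0 < θ) (hMR : M * R ≤ 4 * r * θ) (hM : 0 < M)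
    (hA : Dist A l M) (hN : Near (sphere c r) f x R A (θ * l * R)) :
    ∃ (δ : ℝ) (u : ℂ), 0 < δ ∧ ‖u‖ = 1 ∧ ∀ t : ℝ, |t| ≤ 1 →
      ‖f (c + (x - c) * Complex.exp (((t * R / (2 * r) : ℝ) : ℂ) * Complex.I)) - (f x + t * δ * u)‖ ≤
        4 * θ * δ := by
  obtain ⟨hl, hA'⟩ := hA
  set τ : ℂ := Complex.I * (x - c) / r with hτ
  have hr' : (r : ℂ) ≠ 0 := by exact_mod_cast hr.ne'
  have hτn : ‖τ‖ = 1 := by
    rw [hτ, norm_div, norm_mul, Complex.norm_I, one_mul, hx, Complex.norm_real,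
      Real.norm_of_nonneg hr.le, div_self hr.ne']
  have hAτ : l ≤ ‖A τ‖ := by
    have := (hA' τ).1
    rwa [hτn, mul_one] at this
  have hAτ0 : 0 < ‖A τ‖ := lt_of_lt_of_le hl hAτ
  refine ⟨R / 2 * ‖A τ‖, ((‖A τ‖⁻¹ : ℝ) : ℂ) * A τ, by positivity, ?_, ?_⟩
  · rw [norm_mul, Complex.norm_real, Real.norm_of_nonneg (by positivity), inv_mul_cancel₀ hAτ0.ne']
  · intro t ht
    set φ : ℝ := t * R / (2 * r) with hφ
    have ht2 : t ^ 2 ≤ 1 := by
      rw [← sq_abs]
      exact pow_le_one₀ (abs_nonneg t) ht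
    have hφ1 : |φ| ≤ R / (2 * r) := by
      rw [hφ, abs_div, abs_mul, abs_of_pos hR, abs_of_pos (by positivity : 0 < 2 * r)]
      apply div_le_div_of_nonneg_right _ (by positivity)
      have := mul_le_mul_of_nonneg_right ht hR.le
      linarith
    have hφ2 : R / (2 * r) ≤ 1 := by
      rw [div_le_one (by positivity)]
      linarith
    set P : ℂ := c + (x - c) * Complex.exp ((φ : ℂ) * Complex.I) with hP
    have hn1 : ‖(φ : ℂ) * Complex.I‖ = |φ| := by
      rw [norm_mul, Complex.norm_I, mul_one, Complex.norm_real, Real.norm_eq_abs]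
    have hexp := Complex.norm_exp_sub_one_sub_id_le (x := (φ : ℂ) * Complex.I) (by
      rw [hn1]
      linarith)
    rw [hn1, sq_abs] at hexp
    have e1 : P - x - ((t * (R / 2) : ℝ) : ℂ) * τ =
        (x - c) * (Complex.exp ((φ : ℂ) * Complex.I) - 1 - (φ : ℂ) * Complex.I) := by
      rw [hP, hτ, hφ]
      push_cast
      field_simp
      ring
    have hd : ‖P - x - ((t * (R / 2) : ℝ) : ℂ) * τ‖ ≤ R ^ 2 / (4 * r) := by
      rw [e1, norm_mul, hx]
      have h1 : φ ^ 2 ≤ (R / (2 * r)) ^ 2 := by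
        rw [← sq_abs φ]
        exact pow_le_pow_left₀ (abs_nonneg _) hφ1 2
      calc r * ‖Complex.exp ((φ : ℂ) * Complex.I) - 1 - (φ : ℂ) * Complex.I‖ ≤
          r * (R / (2 * r)) ^ 2 := mul_le_mul_of_nonneg_left (hexp.trans h1) hr.le
        _ = R ^ 2 / (4 * r) := by
          field_simp
          ring
    have hRr2 : R ^ 2 / (4 * r) ≤ R / 4 := by
      rw [div_le_iff₀ (by positivity)]
      nlinarith
    have hPS : P ∈ sphere c r := by
      rw [mem_sphere, dist_eq_norm, hP, add_sub_cancel_left, norm_mul, hx,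
        Complex.norm_exp_ofReal_mul_I, mul_one]
    have hPx : ‖P - x‖ < R := by
      have h1 : P - x = (P - x - ((t * (R / 2) : ℝ) : ℂ) * τ) + ((t * (R / 2) : ℝ) : ℂ) * τ := by ring
      have h2 : ‖((t * (R / 2) : ℝ) : ℂ) * τ‖ ≤ R / 2 := by
        rw [norm_mul, hτn, mul_one, Complex.norm_real, Real.norm_eq_abs, abs_mul,
          abs_of_pos (by positivity : 0 < R / 2)]
        have := mul_le_mul_of_nonneg_right ht (by positivity : 0 ≤ R / 2)
        linarith
      rw [h1]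
      have h3 := norm_add_le (P - x - ((t * (R / 2) : ℝ) : ℂ) * τ) (((t * (R / 2) : ℝ) : ℂ) * τ)
      linarith
    have hN1 := hN P hPS hPx
    have hAd : ‖A (P - x - ((t * (R / 2) : ℝ) : ℂ) * τ)‖ ≤ M * l * (R ^ 2 / (4 * r)) :=
      (hA' _).2.trans (mul_le_mul_of_nonneg_left hd (by positivity))
    have hAs : A (((t * (R / 2) : ℝ) : ℂ) * τ) = ((t * (R / 2) : ℝ) : ℂ) * A τ := by
      have h1 : ((t * (R / 2) : ℝ) : ℂ) * τ = (t * (R / 2) : ℝ) • τ := by
        rw [Complex.real_smul]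
      rw [h1, map_smul, Complex.real_smul]
    have e2 : f P - (f x + t * ((R / 2 * ‖A τ‖ : ℝ) : ℂ) * (((‖A τ‖⁻¹ : ℝ) : ℂ) * A τ)) =
        (f P - f x - A (P - x)) + A (P - x - ((t * (R / 2) : ℝ) : ℂ) * τ) := by
      rw [map_sub A (P - x) (((t * (R / 2) : ℝ) : ℂ) * τ), hAs]
      have h1 : ((‖A τ‖ : ℝ) : ℂ) ≠ 0 := by exact_mod_cast hAτ0.ne'
      push_cast
      field_simp
      ring
    rw [e2]
    have h4 := norm_add_le (f P - f x - A (P - x)) (A (P - x - ((t * (R / 2) : ℝ) : ℂ) * τ))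
    have h5 : M * l * (R ^ 2 / (4 * r)) ≤ θ * l * R := by
      have h6 : M * l * (R ^ 2 / (4 * r)) = (M * R) * (l * R / (4 * r)) := by ring
      rw [h6]
      calc (M * R) * (l * R / (4 * r)) ≤ (4 * r * θ) * (l * R / (4 * r)) :=
            mul_le_mul_of_nonneg_right hMR (by positivity)
        _ = θ * l * R := by
          field_simp
    have h6 : θ * l * R + θ * l * R ≤ 4 * θ * (R / 2 * ‖A τ‖) := by
      have h7 : θ * R * l ≤ θ * R * ‖A τ‖ := mul_le_mul_of_nonneg_left hAτ (by positivity)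
      linarith
    linarith

theorem thm_LIN : St_LIN := by
  intro K ε hε
  have hθ0 : 0 < min (ε / 16) (1 / 64 : ℝ) := by positivity
  refine ⟨fun _ => min (ε / 16) (1 / 64), fun _ => hθ0, ?_⟩
  rintro f j x hx hmap ⟨M, hM, R₀, hR₀, hAR⟩
  set θ : ℝ := min (ε / 16) (1 / 64) with hθ
  have hθ1 : θ ≤ ε / 16 := min_le_left _ _
  have hθ2 : θ ≤ 1 / 64 := min_le_right _ _
  set r : ℝ := rr K j with hrdef
  set c : ℂ := cc K j with hcdef
  have hr : 0 < r := LIN_rr K j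
  have hxc : ‖x - c‖ = r := by
    have h1 : x ∈ sphere c r := hx
    rwa [mem_sphere, dist_eq_norm] at h1
  have hM0 : 0 < M := by linarith
  set R₁ : ℝ := min (R₀ / 2) (min r (4 * r * θ / M)) with hR₁
  have hR₁0 : 0 < R₁ := by
    rw [hR₁]
    positivity
  have claim : ∀ R : ℝ, 0 < R → R ≤ R₁ → ∃ (δ : ℝ) (u : ℂ), 0 < δ ∧ ‖u‖ = 1 ∧ ∀ t : ℝ, |t| ≤ 1 →
      ‖f (c + (x - c) * Complex.exp (((t * R / (2 * r) : ℝ) : ℂ) * Complex.I)) - (f x + t * δ * u)‖ ≤
        4 * θ * δ := by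
    intro R hR hRR
    have h1 : R ≤ R₀ / 2 := hRR.trans (min_le_left _ _)
    have h2 : R ≤ r := hRR.trans ((min_le_right _ _).trans (min_le_left _ _))
    have h3 : R ≤ 4 * r * θ / M := hRR.trans ((min_le_right _ _).trans (min_le_right _ _))
    obtain ⟨A, l, hA, hN⟩ := hAR R hR (by linarith)
    refine LIN_one hr hxc hR h2 hθ0 ?_ hM0 hA hN
    rw [le_div_iff₀ hM0] at h3
    linarith
  choose! δ u hδ hu hP using claim
  -- the scales
  set S : ℕ → ℝ := fun k => R₁ / 2 ^ k with hS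
  have hS0 : ∀ k, 0 < S k := fun k => by positivity
  have hS1 : ∀ k, S k ≤ R₁ := fun k => by
    apply div_le_self hR₁0.le
    exact one_le_pow₀ (by norm_num)
  have hSs : ∀ k, S (k + 1) = S k / 2 := fun k => by
    simp only [hS]
    rw [pow_succ]
    field_simp
  have hstep : ∀ k, δ (S (k + 1)) ≤ 3 / 4 * δ (S k) ∧ δ (S k) ≤ 4 * δ (S (k + 1)) := by
    intro k
    have h1 := hP (S k) (hS0 k) (hS1 k) (1 / 2) (by rw [abs_of_pos (by norm_num)]; norm_num)
    have h2 := hP (S (k + 1)) (hS0 _) (hS1 _) 1 (by rw [abs_one])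
    have e1 : (1 : ℝ) * S (k + 1) / (2 * r) = 1 / 2 * S k / (2 * r) := by
      rw [hSs]
      ring
    rw [e1] at h2
    have hd1 := hδ (S k) (hS0 k) (hS1 k)
    have hd2 := hδ (S (k + 1)) (hS0 _) (hS1 _)
    have hu1 := hu (S k) (hS0 k) (hS1 k)
    have hu2 := hu (S (k + 1)) (hS0 _) (hS1 _)
    generalize f (c + (x - c) * Complex.exp (((1 / 2 * S k / (2 * r) : ℝ) : ℂ) * Complex.I)) = q at h1 h2
    have n1 : ‖((1 / 2 : ℝ) : ℂ) * (δ (S k) : ℂ) * u (S k)‖ = 1 / 2 * δ (S k) := by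
      rw [norm_mul, norm_mul, hu1, mul_one, Complex.norm_real, Complex.norm_real,
        Real.norm_of_nonneg (by norm_num), Real.norm_of_nonneg hd1.le]
    have n2 : ‖((1 : ℝ) : ℂ) * (δ (S (k + 1)) : ℂ) * u (S (k + 1))‖ = δ (S (k + 1)) := by
      rw [norm_mul, norm_mul, hu2, mul_one, Complex.norm_real, Complex.norm_real,
        Real.norm_of_nonneg (by norm_num), Real.norm_of_nonneg hd2.le, one_mul]
    have t1 : |‖q - f x‖ - 1 / 2 * δ (S k)| ≤ 4 * θ * δ (S k) := by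
      rw [← n1]
      refine (abs_norm_sub_norm_le _ _).trans ?_
      rw [sub_sub]
      exact h1
    have t2 : |‖q - f x‖ - δ (S (k + 1))| ≤ 4 * θ * δ (S (k + 1)) := by
      rw [← n2]
      refine (abs_norm_sub_norm_le _ _).trans ?_
      rw [sub_sub, n2]
      exact h2
    have g1 : 4 * θ * δ (S k) ≤ 1 / 16 * δ (S k) := mul_le_mul_of_nonneg_right (by linarith) hd1.le
    have g2 : 4 * θ * δ (S (k + 1)) ≤ 1 / 16 * δ (S (k + 1)) :=
      mul_le_mul_of_nonneg_right (by linarith) hd2.le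
    obtain ⟨a1, a2⟩ := abs_le.1 t1
    obtain ⟨a3, a4⟩ := abs_le.1 t2
    constructor
    · linarith
    · linarith
  have hpow : ∀ k, δ (S k) ≤ (3 / 4) ^ k * δ (S 0) := by
    intro k
    induction k with
    | zero => simp
    | succ k ih =>
      have h1 := (hstep k).1
      rw [pow_succ]
      linarith
  have hd0 : 0 < δ (S 0) := hδ (S 0) (hS0 0) (hS1 0)
  refine ⟨δ (S 0), hd0, ?_⟩
  intro d hd hdd
  have hex : ∃ k, δ (S k) < d := by
    obtain ⟨k, hk⟩ := exists_pow_lt_of_lt_one (div_pos hd hd0) (by norm_num : (3 / 4 : ℝ) < 1)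
    refine ⟨k, lt_of_le_of_lt (hpow k) ?_⟩
    rwa [lt_div_iff₀ hd0] at hk
  classical
  set k₀ := Nat.find hex with hk₀
  have hk1 : δ (S k₀) < d := Nat.find_spec hex
  have hk2 : k₀ ≠ 0 := by
    intro h1
    rw [h1] at hk1
    linarith
  obtain ⟨k, hk⟩ := Nat.exists_eq_succ_of_ne_zero hk2
  have hk3 : d ≤ δ (S k) := by
    have := Nat.find_min hex (m := k) (by rw [← hk₀, hk]; exact Nat.lt_succ_self k)
    exact not_lt.1 this
  have hk4 : δ (S k) ≤ 4 * d := by
    have h1 := (hstep k).2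
    have h2 : δ (S (k + 1)) < d := by
      have : k₀ = k + 1 := hk
      rw [← this]
      exact hk1
    linarith
  have hδk : 0 < δ (S k) := lt_of_lt_of_le hd hk3
  refine ⟨u (S k), hu _ (hS0 k) (hS1 k), ?_⟩
  intro t ht
  refine ⟨f (c + (x - c) * Complex.exp (((t * d / δ (S k) * S k / (2 * r) : ℝ) : ℂ) * Complex.I)), ?_, ?_⟩
  · apply hmap
    show _ ∈ sphere c r
    rw [mem_sphere, dist_eq_norm, add_sub_cancel_left, norm_mul, hxc,
      Complex.norm_exp_ofReal_mul_I, mul_one]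
  · have h1 := hP (S k) (hS0 k) (hS1 k) (t * d / δ (S k)) (by
      rw [abs_div, abs_mul, abs_of_pos hd, abs_of_pos hδk, div_le_one hδk]
      have := mul_le_mul_of_nonneg_right ht hd.le
      linarith)
    have e1 : ((t * d / δ (S k) : ℝ) : ℂ) * (δ (S k) : ℂ) = t * d := by
      have : (δ (S k) : ℂ) ≠ 0 := by exact_mod_cast hδk.ne'
      push_cast
      field_simp
    rw [e1] at h1
    refine h1.trans ?_
    calc 4 * θ * δ (S k) ≤ 4 * θ * (4 * d) := mul_le_mul_of_nonneg_left hk4 (by positivity)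
      _ ≤ ε * d := by
        have := mul_le_mul_of_nonneg_right hθ1 hd.le
        linarith

end RCP
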