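import Pool.Agent.RCP.St

/-!
# RCP, MB: normalised Moebius maps are bounded
-/

set_option autoImplicit false

noncomputable section

namespace RCP

open Metric RCE

private theorem MB_cj_add (σ : Bool) (z w : ℂ) : cj σ (z + w) = cj σ z + cj σ w := by
  cases σ <;> simp [cj]

private theorem MB_cj_mul (σ : Bool) (z w : ℂ) : cj σ (z * w) = cj σ z * cj σ w := by
  cases σ <;> simp [cj]

private theorem MB_cj_cj (σ : Bool) (z : ℂ) : cj σ (cj σ z) = z := by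
  cases σ <;> simp [cj]

private theorem MB_cj_real (σ : Bool) (s : ℝ) : cj σ (s : ℂ) = s := by
  cases σ <;> simp [cj]

private theorem MB_cj_norm (σ : Bool) (z : ℂ) : ‖cj σ z‖ = ‖z‖ := by
  cases σ <;> simp [cj]

private theorem MB_cj_sub (σ : Bool) (z w : ℂ) : cj σ z - cj σ w = cj σ (z - w) := by
  cases σ <;> simp [cj]

private theorem MB_sq (y u : ℂ) (s : ℝ) (σ : Bool) (hs : 0 < s) (hu : ‖u‖ = 1) (ζ : ℂ) :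
    √(‖(y + s * u * cj σ ζ) - y‖ ^ 2 + s ^ 2) = s * √(1 + ‖ζ‖ ^ 2) := by
  have h1 : ‖(y + s * u * cj σ ζ) - y‖ = s * ‖ζ‖ := by
    rw [add_sub_cancel_left, norm_mul, norm_mul, hu, MB_cj_norm, mul_one, Complex.norm_real,
      Real.norm_of_nonneg hs.le]
  have h2 : (s * ‖ζ‖) ^ 2 + s ^ 2 = s ^ 2 * (1 + ‖ζ‖ ^ 2) := by ring
  rw [h1, h2, Real.sqrt_mul (sq_nonneg s), Real.sqrt_sq hs.le]

private theorem MB_dd (y u : ℂ) (s : ℝ) (σ : Bool) (hs : 0 < s) (hu : ‖u‖ = 1) (ζ ζ' : ℂ) :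
    dd y s (y + s * u * cj σ ζ) (y + s * u * cj σ ζ') =
      ‖ζ - ζ'‖ / (√(1 + ‖ζ‖ ^ 2) * √(1 + ‖ζ'‖ ^ 2)) := by
  unfold dd
  rw [MB_sq y u s σ hs hu, MB_sq y u s σ hs hu]
  have h1 : ‖(y + s * u * cj σ ζ) - (y + s * u * cj σ ζ')‖ = s * ‖ζ - ζ'‖ := by
    have e : (y + s * u * cj σ ζ) - (y + s * u * cj σ ζ') = s * u * (cj σ ζ - cj σ ζ') := by ring
    rw [e, MB_cj_sub, norm_mul, norm_mul, hu, MB_cj_norm, mul_one, Complex.norm_real,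
      Real.norm_of_nonneg hs.le]
  rw [h1]
  have h2 : 0 < √(1 + ‖ζ‖ ^ 2) := Real.sqrt_pos.2 (by positivity)
  have h3 : 0 < √(1 + ‖ζ'‖ ^ 2) := Real.sqrt_pos.2 (by positivity)
  field_simp

/-- the triple argument -/
private theorem MB_tri (κ e e' e'' w w' w'' : ℝ) (hκ : 1 ≤ κ) (he : 0 < e) (he' : 0 < e')
    (he'' : 0 < e'') (hw : 0 < w) (hw' : 0 < w') (hw'' : 0 < w'')
    (h1 : w * w' ≤ κ * (e * e')) (h1' : e * e' ≤ κ * (w * w'))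
    (h2 : w * w'' ≤ κ * (e * e'')) (h2' : e * e'' ≤ κ * (w * w''))
    (h3 : w' * w'' ≤ κ * (e' * e'')) (h3' : e' * e'' ≤ κ * (w' * w'')) :
    w ≤ κ ^ 2 * e ∧ e ≤ κ ^ 2 * w := by
  have hκ0 : 0 < κ := by linarith
  have k34 : κ ^ 3 ≤ κ ^ 4 := pow_le_pow_right₀ hκ (by norm_num)
  constructor
  · have a1 : w ^ 2 * (e' * e'') ≤ κ ^ 3 * e ^ 2 * (e' * e'') := by
      calc w ^ 2 * (e' * e'') ≤ w ^ 2 * (κ * (w' * w'')) := mul_le_mul_of_nonneg_left h3' (by positivity)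
        _ = κ * ((w * w') * (w * w'')) := by ring
        _ ≤ κ * ((κ * (e * e')) * (κ * (e * e''))) :=
            mul_le_mul_of_nonneg_left (mul_le_mul h1 h2 (by positivity) (by positivity)) hκ0.le
        _ = κ ^ 3 * e ^ 2 * (e' * e'') := by ring
    have a2 : w ^ 2 ≤ κ ^ 3 * e ^ 2 := le_of_mul_le_mul_right a1 (by positivity)
    have a3 : w ^ 2 ≤ (κ ^ 2 * e) ^ 2 := by
      calc w ^ 2 ≤ κ ^ 3 * e ^ 2 := a2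
        _ ≤ κ ^ 4 * e ^ 2 := mul_le_mul_of_nonneg_right k34 (by positivity)
        _ = (κ ^ 2 * e) ^ 2 := by ring
    exact (sq_le_sq₀ hw.le (by positivity)).1 a3
  · have a1 : e ^ 2 * (w' * w'') ≤ κ ^ 3 * w ^ 2 * (w' * w'') := by
      calc e ^ 2 * (w' * w'') ≤ e ^ 2 * (κ * (e' * e'')) := mul_le_mul_of_nonneg_left h3 (by positivity)
        _ = κ * ((e * e') * (e * e'')) := by ring
        _ ≤ κ * ((κ * (w * w')) * (κ * (w * w''))) :=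
            mul_le_mul_of_nonneg_left (mul_le_mul h1' h2' (by positivity) (by positivity)) hκ0.le
        _ = κ ^ 3 * w ^ 2 * (w' * w'') := by ring
    have a2 : e ^ 2 ≤ κ ^ 3 * w ^ 2 := le_of_mul_le_mul_right a1 (by positivity)
    have a3 : e ^ 2 ≤ (κ ^ 2 * w) ^ 2 := by
      calc e ^ 2 ≤ κ ^ 3 * w ^ 2 := a2
        _ ≤ κ ^ 4 * w ^ 2 := mul_le_mul_of_nonneg_right k34 (by positivity)
        _ = (κ ^ 2 * w) ^ 2 := by ring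
    exact (sq_le_sq₀ he.le (by positivity)).1 a3

private theorem MB_core (κ M : ℝ) (hκ : 1 ≤ κ) (hM : 0 ≤ M) (Z : Set ℂ) (a b c d : ℂ)
    (hdet : a * d - b * c = 1) (hne : ∀ ζ ∈ Z, c * ζ + d ≠ 0)
    (hb : ∀ ζ ∈ Z, ‖(a * ζ + b) / (c * ζ + d)‖ ≤ M)
    (h1 : ∀ ζ ∈ Z, ∀ ζ' ∈ Z, ‖(a * ζ + b) / (c * ζ + d) - (a * ζ' + b) / (c * ζ' + d)‖ ≤
      κ * (‖ζ - ζ'‖ / (√(1 + ‖ζ‖ ^ 2) * √(1 + ‖ζ'‖ ^ 2))))
    (h2 : ∀ ζ ∈ Z, ∀ ζ' ∈ Z, ‖ζ - ζ'‖ / (√(1 + ‖ζ‖ ^ 2) * √(1 + ‖ζ'‖ ^ 2)) ≤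
      κ * ‖(a * ζ + b) / (c * ζ + d) - (a * ζ' + b) / (c * ζ' + d)‖)
    (h0 : (0 : ℂ) ∈ Z) (ζ₁ ζ₂ : ℂ) (hz1 : ζ₁ ∈ Z) (hn1 : ‖ζ₁‖ = 1) (hz2 : ζ₂ ∈ Z)
    (hn2 : ‖ζ₂‖ = 1 / 2) :
    ‖a‖ ≤ 3 * κ ^ 2 * (1 + M) ∧ ‖b‖ ≤ 3 * κ ^ 2 * (1 + M) ∧ ‖c‖ ≤ 3 * κ ^ 2 * (1 + M) ∧
      ‖d‖ ≤ 3 * κ ^ 2 * (1 + M) ∧
      ∀ ζ ∈ Z, √(1 + ‖ζ‖ ^ 2) ≤ 3 * κ ^ 2 * (1 + M) * ‖c * ζ + d‖ := by
  have hκ0 : 0 < κ := by linarith
  have hw : ∀ ζ : ℂ, 0 < √(1 + ‖ζ‖ ^ 2) := fun ζ => Real.sqrt_pos.2 (by positivity)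
  have he : ∀ ζ ∈ Z, 0 < ‖c * ζ + d‖ := fun ζ hζ => norm_pos_iff.2 (hne ζ hζ)
  -- pairs
  have hdiff : ∀ ζ ∈ Z, ∀ ζ' ∈ Z, ‖(a * ζ + b) / (c * ζ + d) - (a * ζ' + b) / (c * ζ' + d)‖ =
      ‖ζ - ζ'‖ / (‖c * ζ + d‖ * ‖c * ζ' + d‖) := by
    intro ζ hζ ζ' hζ'
    rw [← norm_mul, ← norm_div]
    congr 1
    rw [div_sub_div _ _ (hne ζ hζ) (hne ζ' hζ')]
    congr 1
    have e : (a * ζ + b) * (c * ζ' + d) - (c * ζ + d) * (a * ζ' + b) =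
      (a * d - b * c) * (ζ - ζ') := by ring
    rw [e, hdet, one_mul]
  have pair : ∀ ζ ∈ Z, ∀ ζ' ∈ Z, ζ ≠ ζ' →
      √(1 + ‖ζ‖ ^ 2) * √(1 + ‖ζ'‖ ^ 2) ≤ κ * (‖c * ζ + d‖ * ‖c * ζ' + d‖) ∧
      ‖c * ζ + d‖ * ‖c * ζ' + d‖ ≤ κ * (√(1 + ‖ζ‖ ^ 2) * √(1 + ‖ζ'‖ ^ 2)) := by
    intro ζ hζ ζ' hζ' hn
    have hr : 0 < ‖ζ - ζ'‖ := norm_pos_iff.2 (sub_ne_zero.2 hn)
    have hW : 0 < √(1 + ‖ζ‖ ^ 2) * √(1 + ‖ζ'‖ ^ 2) := mul_pos (hw ζ) (hw ζ')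
    have hE : 0 < ‖c * ζ + d‖ * ‖c * ζ' + d‖ := mul_pos (he ζ hζ) (he ζ' hζ')
    have k1 := h1 ζ hζ ζ' hζ'
    have k2 := h2 ζ hζ ζ' hζ'
    rw [hdiff ζ hζ ζ' hζ'] at k1 k2
    constructor
    · rw [mul_div_assoc', div_le_div_iff₀ hE hW] at k1
      have k3 : ‖ζ - ζ'‖ * (√(1 + ‖ζ‖ ^ 2) * √(1 + ‖ζ'‖ ^ 2)) ≤
          ‖ζ - ζ'‖ * (κ * (‖c * ζ + d‖ * ‖c * ζ' + d‖)) := by
        calc _ ≤ κ * ‖ζ - ζ'‖ * (‖c * ζ + d‖ * ‖c * ζ' + d‖) := k1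
          _ = _ := by ring
      exact le_of_mul_le_mul_left k3 hr
    · rw [mul_div_assoc', div_le_div_iff₀ hW hE] at k2
      have k3 : ‖ζ - ζ'‖ * (‖c * ζ + d‖ * ‖c * ζ' + d‖) ≤
          ‖ζ - ζ'‖ * (κ * (√(1 + ‖ζ‖ ^ 2) * √(1 + ‖ζ'‖ ^ 2))) := by
        calc _ ≤ κ * ‖ζ - ζ'‖ * (√(1 + ‖ζ‖ ^ 2) * √(1 + ‖ζ'‖ ^ 2)) := k2
          _ = _ := by ring
      exact le_of_mul_le_mul_left k3 hr
  have tri : ∀ ζ ∈ Z, ∀ ζ' ∈ Z, ∀ ζ'' ∈ Z, ζ ≠ ζ' → ζ ≠ ζ'' → ζ' ≠ ζ'' →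
      √(1 + ‖ζ‖ ^ 2) ≤ κ ^ 2 * ‖c * ζ + d‖ ∧ ‖c * ζ + d‖ ≤ κ ^ 2 * √(1 + ‖ζ‖ ^ 2) := by
    intro ζ hζ ζ' hζ' ζ'' hζ'' n1 n2 n3
    obtain ⟨p1, p1'⟩ := pair ζ hζ ζ' hζ' n1
    obtain ⟨p2, p2'⟩ := pair ζ hζ ζ'' hζ'' n2
    obtain ⟨p3, p3'⟩ := pair ζ' hζ' ζ'' hζ'' n3
    exact MB_tri κ _ _ _ _ _ _ hκ (he ζ hζ) (he ζ' hζ') (he ζ'' hζ'') (hw ζ) (hw ζ') (hw ζ'')
      p1 p1' p2 p2' p3 p3'
  have n01 : (0 : ℂ) ≠ ζ₁ := by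
    intro h
    rw [← h, norm_zero] at hn1
    norm_num at hn1
  have n02 : (0 : ℂ) ≠ ζ₂ := by
    intro h
    rw [← h, norm_zero] at hn2
    norm_num at hn2
  have n12 : ζ₁ ≠ ζ₂ := by
    intro h
    rw [h, hn2] at hn1
    norm_num at hn1
  have all : ∀ ζ ∈ Z, √(1 + ‖ζ‖ ^ 2) ≤ κ ^ 2 * ‖c * ζ + d‖ ∧
      ‖c * ζ + d‖ ≤ κ ^ 2 * √(1 + ‖ζ‖ ^ 2) := by
    intro ζ hζ
    by_cases e0 : ζ = 0
    · exact tri ζ hζ ζ₁ hz1 ζ₂ hz2 (by rw [e0]; exact n01) (by rw [e0]; exact n02) n12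
    by_cases e1 : ζ = ζ₁
    · exact tri ζ hζ 0 h0 ζ₂ hz2 e0 (by rw [e1]; exact n12) n02
    · exact tri ζ hζ 0 h0 ζ₁ hz1 e0 e1 n01
  have hK : 1 ≤ κ ^ 2 := one_le_pow₀ hκ
  have s0 : √(1 + ‖(0 : ℂ)‖ ^ 2) = 1 := by
    rw [norm_zero]
    norm_num
  have s1 : √(1 + ‖ζ₁‖ ^ 2) ≤ 2 := by
    rw [hn1, Real.sqrt_le_left (by norm_num)]
    norm_num
  have hd : ‖d‖ ≤ κ ^ 2 := by
    have h3 := (all 0 h0).2
    rw [mul_zero, zero_add, s0, mul_one] at h3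
    exact h3
  have hc1 : ‖c * ζ₁ + d‖ ≤ 2 * κ ^ 2 := by
    have h3 := (all ζ₁ hz1).2
    have h4 := mul_le_mul_of_nonneg_left s1 (by positivity : 0 ≤ κ ^ 2)
    linarith
  have hc : ‖c‖ ≤ 3 * κ ^ 2 := by
    have e : c * ζ₁ = (c * ζ₁ + d) - d := by ring
    have h3 : ‖c * ζ₁‖ ≤ ‖c * ζ₁ + d‖ + ‖d‖ := by
      rw [e]
      exact (norm_sub_le _ _).trans (by rw [← e])
    rw [norm_mul, hn1, mul_one] at h3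
    linarith
  have hbb : ‖b‖ ≤ M * κ ^ 2 := by
    have h3 := hb 0 h0
    rw [mul_zero, zero_add, mul_zero, zero_add] at h3
    have hd0 : d ≠ 0 := by
      have := hne 0 h0
      rwa [mul_zero, zero_add] at this
    have e : b = b / d * d := by field_simp
    rw [e, norm_mul]
    exact mul_le_mul h3 hd (norm_nonneg _) hM
  have haa : ‖a * ζ₁ + b‖ ≤ M * (2 * κ ^ 2) := by
    have h3 := hb ζ₁ hz1
    have e : a * ζ₁ + b = (a * ζ₁ + b) / (c * ζ₁ + d) * (c * ζ₁ + d) := by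
      rw [div_mul_cancel₀ _ (hne ζ₁ hz1)]
    rw [e, norm_mul]
    exact mul_le_mul h3 hc1 (norm_nonneg _) hM
  have ha : ‖a‖ ≤ 3 * (M * κ ^ 2) := by
    have e : a * ζ₁ = (a * ζ₁ + b) - b := by ring
    have h3 : ‖a * ζ₁‖ ≤ ‖a * ζ₁ + b‖ + ‖b‖ := by
      rw [e]
      exact (norm_sub_le _ _).trans (by rw [← e])
    rw [norm_mul, hn1, mul_one] at h3
    linarith
  have hMK : 0 ≤ M * κ ^ 2 := by positivity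
  have eB : 3 * κ ^ 2 * (1 + M) = 3 * κ ^ 2 + 3 * (M * κ ^ 2) := by ring
  refine ⟨by linarith, by linarith, by linarith, by linarith, fun ζ hζ => ?_⟩
  refine (all ζ hζ).1.trans ?_
  exact mul_le_mul_of_nonneg_right (by linarith) (norm_nonneg _)

theorem thm_MB (hFA : RCE.St_FA) (hSPH : RCE.St_SPH) (hTF : RCE.St_TF) : St_MB := by
  intro K Γ hG
  obtain ⟨κ, hκ, hF⟩ := hFA K Γ hG
  obtain ⟨M, hMd⟩ : ∃ M : ℝ, M = ‖K.c₀‖ + K.r₀ := ⟨_, rfl⟩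
  have hM : 0 ≤ M := by
    rw [hMd]
    have := K.r₀pos
    positivity
  have hbd : ∀ z ∈ K.T, ‖z‖ ≤ M := by
    intro z hz
    have h1 := ((hTF K).2.2.2.1 z hz).1
    have e : z = (z - K.c₀) + K.c₀ := by ring
    rw [e]
    refine (norm_add_le _ _).trans ?_
    rw [hMd]
    linarith
  have hK : 1 ≤ κ ^ 2 := one_le_pow₀ hκ
  refine ⟨3 * κ ^ 2 * (1 + M), ?_, ?_⟩
  · nlinarith [mul_nonneg hM (by positivity : (0 : ℝ) ≤ κ ^ 2)]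
  intro y u s hy hs hsr hu
  obtain ⟨g, hg, hgd⟩ := hF ⟨y, hy⟩ s hs hsr
  obtain ⟨α, β, γ, δ, hdet, hmob⟩ := hG.mob g hg
  obtain ⟨σ, hσ⟩ : ∃ σ : Bool, ∀ z : K.T, γ * cj σ z + δ ≠ 0 ∧
      (g z : ℂ) = (α * cj σ z + β) / (γ * cj σ z + δ) := by
    rcases hmob with h | h
    · refine ⟨false, fun z => ?_⟩
      simpa [cj] using h z
    · refine ⟨true, fun z => ?_⟩
      simpa [cj] using h z
  have hu0 : u ≠ 0 := by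
    intro h
    rw [h, norm_zero] at hu
    norm_num at hu
  have hsc : (s : ℂ) ≠ 0 := by exact_mod_cast hs.ne'
  have hU0 : cj σ u ≠ 0 := by
    intro h
    have h1 := MB_cj_norm σ u
    rw [h, norm_zero, hu] at h1
    norm_num at h1
  obtain ⟨t, ht⟩ := IsAlgClosed.exists_pow_nat_eq ((s : ℂ) * cj σ u) (n := 2) (by norm_num)
  have ht0 : t ≠ 0 := by
    rintro rfl
    rw [zero_pow (by norm_num)] at ht
    exact mul_ne_zero hsc hU0 ht.symm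
  -- the coefficients
  have hpt : ∀ ζ : ℂ, cj σ (y + s * u * cj σ ζ) = cj σ y + s * cj σ u * ζ := by
    intro ζ
    rw [MB_cj_add, MB_cj_mul, MB_cj_mul, MB_cj_cj, MB_cj_real]
  have hden : ∀ ζ : ℂ, γ * (s * cj σ u) / t * ζ + (γ * cj σ y + δ) / t =
      (γ * cj σ (y + s * u * cj σ ζ) + δ) / t := by
    intro ζ
    rw [hpt]
    ring
  have hnum : ∀ ζ : ℂ, α * (s * cj σ u) / t * ζ + (α * cj σ y + β) / t =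
      (α * cj σ (y + s * u * cj σ ζ) + β) / t := by
    intro ζ
    rw [hpt]
    ring
  have hval : ∀ ζ : ℂ, ∀ h : y + s * u * cj σ ζ ∈ K.T,
      (α * (s * cj σ u) / t * ζ + (α * cj σ y + β) / t) /
        (γ * (s * cj σ u) / t * ζ + (γ * cj σ y + δ) / t) = (g ⟨y + s * u * cj σ ζ, h⟩ : ℂ) := by
    intro ζ h
    rw [hnum, hden, (hσ ⟨_, h⟩).2, div_div_div_cancel_right₀ ht0]
  have hd1 : α * (s * cj σ u) / t * ((γ * cj σ y + δ) / t) -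
      (α * cj σ y + β) / t * (γ * (s * cj σ u) / t) = 1 := by
    have e : α * (s * cj σ u) / t * ((γ * cj σ y + δ) / t) -
      (α * cj σ y + β) / t * (γ * (s * cj σ u) / t) =
        (α * δ - β * γ) * ((s : ℂ) * cj σ u) / t ^ 2 := by
      field_simp
      ring
    rw [e, hdet, one_mul, ht, div_self (mul_ne_zero hsc hU0)]
  -- the points
  have hex : ∀ ρ : ℝ, 0 < ρ → ρ ≤ 1 → ∃ ζ : ℂ, y + s * u * cj σ ζ ∈ K.T ∧ ‖ζ‖ = ρ := by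
    intro ρ h0 h1
    obtain ⟨z, hz, hzn⟩ := hSPH K y (s * ρ) hy (by positivity)
      ((mul_le_mul_of_nonneg_left h1 hs.le).trans (by rw [mul_one]; exact hsr))
    refine ⟨cj σ ((z - y) / (s * u)), ?_, ?_⟩
    · rw [MB_cj_cj, mul_div_cancel₀ _ (mul_ne_zero hsc hu0), add_sub_cancel]
      exact hz
    · rw [MB_cj_norm, norm_div, norm_mul, hu, hzn, mul_one, Complex.norm_real,
        Real.norm_of_nonneg hs.le, mul_div_cancel_left₀ _ hs.ne']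
  obtain ⟨ζ₁, hz1, hn1⟩ := hex 1 (by norm_num) le_rfl
  obtain ⟨ζ₂, hz2, hn2⟩ := hex (1 / 2) (by norm_num) (by norm_num)
  obtain ⟨b1, b2, b3, b4, b5⟩ := MB_core κ M hκ hM {ζ | y + s * u * cj σ ζ ∈ K.T} _ _ _ _ hd1
    (fun ζ hζ => by
      rw [hden]
      exact div_ne_zero (hσ ⟨_, hζ⟩).1 ht0)
    (fun ζ hζ => by
      rw [hval ζ hζ]
      exact hbd _ (g _).2)
    (fun ζ hζ ζ' hζ' => by
      rw [hval ζ hζ, hval ζ' hζ', ← MB_dd y u s σ hs hu]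
      exact (hgd _ _).1)
    (fun ζ hζ ζ' hζ' => by
      rw [hval ζ hζ, hval ζ' hζ', ← MB_dd y u s σ hs hu]
      exact (hgd ⟨_, hζ⟩ ⟨_, hζ'⟩).2)
    (by
      show y + s * u * cj σ 0 ∈ K.T
      have e : cj σ 0 = 0 := by cases σ <;> simp [cj]
      rw [e, mul_zero, add_zero]
      exact hy)
    ζ₁ ζ₂ hz1 hn1 hz2 hn2
  refine ⟨σ, _, _, _, _, hd1, b1, b2, b3, b4, fun ζ hζ => ⟨b5 ζ hζ, ?_⟩⟩
  rw [hval ζ hζ]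
  exact (g _).2

end RCP
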