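import Pool.Agent.RCP.St

/-!
# RCP, module NIR: there is no injective continuous real function on a circle (proved by helper27)
-/

set_option autoImplicit false

namespace RCP

open Metric RCE

theorem thm_NIR : St_NIR := by
  rintro c r hr ⟨φ, hc, hinj⟩
  have hmem : ∀ θ : ℝ, c + r * Complex.exp (θ * Complex.I) ∈ sphere c r := by
    intro θ
    rw [mem_sphere_iff_norm, add_sub_cancel_left, norm_mul, Complex.norm_exp_ofReal_mul_I,
      Complex.norm_real, mul_one, Real.norm_of_nonneg hr.le]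
  have hmem' : ∀ θ : ℝ, c - r * Complex.exp (θ * Complex.I) ∈ sphere c r := by
    intro θ
    rw [mem_sphere_iff_norm, sub_sub_cancel_left, norm_neg, norm_mul,
      Complex.norm_exp_ofReal_mul_I, Complex.norm_real, mul_one, Real.norm_of_nonneg hr.le]
  have h1 : Continuous fun θ : ℝ => φ (c + r * Complex.exp (θ * Complex.I)) :=
    hc.comp_continuous (by fun_prop) hmem
  have h2 : Continuous fun θ : ℝ => φ (c - r * Complex.exp (θ * Complex.I)) :=
    hc.comp_continuous (by fun_prop) hmem'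
  obtain ⟨ψ, hψd⟩ : ∃ ψ : ℝ → ℝ, ∀ θ : ℝ, ψ θ = φ (c + r * Complex.exp (θ * Complex.I)) -
      φ (c - r * Complex.exp (θ * Complex.I)) := ⟨_, fun _ => rfl⟩
  have hψ : Continuous ψ := by
    have : ψ = fun θ : ℝ => φ (c + r * Complex.exp (θ * Complex.I)) -
      φ (c - r * Complex.exp (θ * Complex.I)) := funext hψd
    rw [this]
    exact h1.sub h2
  have hneg : ψ Real.pi = - ψ 0 := by
    rw [hψd, hψd]
    simp only [Complex.exp_pi_mul_I, Complex.ofReal_zero, zero_mul, Complex.exp_zero]
    rw [show c + (r : ℂ) * -1 = c - r * 1 by ring, show c - (r : ℂ) * -1 = c + r * 1 by ring]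
    ring
  have hz : (0 : ℝ) ∈ Set.range ψ := by
    rcases le_total (ψ 0) 0 with h | h
    · exact mem_range_of_exists_le_of_exists_ge hψ ⟨0, h⟩ ⟨Real.pi, by rw [hneg]; linarith⟩
    · exact mem_range_of_exists_le_of_exists_ge hψ ⟨Real.pi, by rw [hneg]; linarith⟩ ⟨0, h⟩
  obtain ⟨θ, hθ⟩ := hz
  rw [hψd] at hθ
  have heq : φ (c + r * Complex.exp (θ * Complex.I)) = φ (c - r * Complex.exp (θ * Complex.I)) :=
    sub_eq_zero.1 hθ
  have h := hinj (hmem θ) (hmem' θ) heq
  have h0 : (r : ℂ) * Complex.exp (θ * Complex.I) = 0 := by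
    have h' : (2 : ℂ) * (r * Complex.exp (θ * Complex.I)) = 0 := by linear_combination h
    rcases mul_eq_zero.1 h' with h2 | h2
    · norm_num at h2
    · exact h2
  rcases mul_eq_zero.1 h0 with h | h
  · exact hr.ne' (by exact_mod_cast h)
  · exact Complex.exp_ne_zero _ h

end RCP
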