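import Pool.Agent.RCP.St

/-!
# RCP, module NLG: no logarithm of an injective map from a circle to a circle around the origin
-/

set_option autoImplicit false

namespace RCP

open Metric RCE

/-- a ray from an interior point meets a circle once -/
private theorem NLG_ray {p z : ℂ} {ρ : ℝ} {v : ℂ} {s t : ℝ} (hz : ‖z - p‖ < ρ) (hs : 0 < s) (ht : 0 < t)
    (h1 : ‖z + s * v - p‖ = ρ) (h2 : ‖z + t * v - p‖ = ρ) : s = t := by
  have e1 : ∀ a : ℝ, ‖z + a * v - p‖ ^ 2 = ‖z - p‖ ^ 2 + 2 * a * ((z - p).re * v.re + (z - p).im * v.im) + a ^ 2 * ‖v‖ ^ 2 := by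
    intro a
    rw [← Complex.normSq_eq_norm_sq, ← Complex.normSq_eq_norm_sq, ← Complex.normSq_eq_norm_sq, Complex.normSq_apply,
      Complex.normSq_apply, Complex.normSq_apply]
    simp only [Complex.add_re, Complex.sub_re, Complex.mul_re, Complex.ofReal_re, Complex.ofReal_im, Complex.add_im, Complex.sub_im,
      Complex.mul_im]
    ring
  have hρ : 0 < ρ := (norm_nonneg _).trans_lt hz
  have e2 := e1 s
  have e3 := e1 t
  rw [h1] at e2
  rw [h2] at e3
  set B : ℝ := (z - p).re * v.re + (z - p).im * v.im with hB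
  have hlt : ‖z - p‖ ^ 2 < ρ ^ 2 := pow_lt_pow_left₀ hz (norm_nonneg _) two_ne_zero
  by_contra hne
  -- subtract
  have e4 : (s - t) * (2 * B + (s + t) * ‖v‖ ^ 2) = 0 := by nlinarith
  have e5 : 2 * B + (s + t) * ‖v‖ ^ 2 = 0 := by
    rcases mul_eq_zero.1 e4 with h | h
    · exact absurd (sub_eq_zero.1 h) hne
    · exact h
  -- then `ρ² = |z - p|² - s t |v|²`
  have e6 : ρ ^ 2 = ‖z - p‖ ^ 2 - s * t * ‖v‖ ^ 2 := by
    have : 2 * B = -(s + t) * ‖v‖ ^ 2 := by linarith
    have e7 : 2 * s * B = s * (2 * B) := by ring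
    rw [e2, e7, this]
    ring
  have e8 : 0 ≤ s * t * ‖v‖ ^ 2 := by positivity
  linarith

theorem thm_NLG (hNIR : St_NIR) : St_NLG := by
  intro c p z r ρ g hr hg hinj hm hz
  rintro ⟨h, hh, he⟩
  apply hNIR c r hr
  refine ⟨fun x => (h x).im, Complex.continuous_im.comp_continuousOn hh, ?_⟩
  intro x hx x' hx' heq
  simp only at heq
  apply hinj hx hx'
  have h1 := he x hx
  have h2 := he x' hx'
  -- polar form
  have e1 : ∀ w : ℂ, Complex.exp w = ((Real.exp w.re : ℝ) : ℂ) * Complex.exp (w.im * Complex.I) := by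
    intro w
    conv_lhs => rw [← Complex.re_add_im w]
    rw [Complex.exp_add, Complex.ofReal_exp]
  rw [e1] at h1 h2
  rw [← heq] at h2
  have hgx : g x = z + ((Real.exp (h x).re : ℝ) : ℂ) * Complex.exp ((h x).im * Complex.I) := by
    rw [h1]
    ring
  have hgx' : g x' = z + ((Real.exp (h x').re : ℝ) : ℂ) * Complex.exp ((h x).im * Complex.I) := by
    rw [h2]
    ring
  have n1 : ‖g x - p‖ = ρ := by
    rw [← dist_eq_norm]
    exact hm hx
  have n2 : ‖g x' - p‖ = ρ := by
    rw [← dist_eq_norm]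
    exact hm hx'
  rw [hgx] at n1
  rw [hgx'] at n2
  have h3 := NLG_ray hz (Real.exp_pos _) (Real.exp_pos _) n1 n2
  rw [hgx, hgx', h3]

end RCP
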