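import Pool.Agent.RCP.St

/-!
# RCP/PA: peripheral points with affine behaviour along the carpet (helper85)
-/

set_option autoImplicit false

namespace RCP

open Metric RCE

/-- the inner normal vector and the free ball which touches a point of a peripheral circle -/
private theorem PA_free (hTF : RCE.St_TF) (K : Cp) (j : Option ℕ) (x : ℂ) (hx : x ∈ PC K j) :
    x ∈ K.T ∧ ∃ (n : ℂ) (ρ₀ : ℝ), 0 < ρ₀ ∧ ‖n‖ = 1 ∧ Free K (x + ρ₀ * n) ρ₀ := by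
  obtain ⟨-, hi, h0, hT, -⟩ := hTF K
  cases j with
  | none =>
    have hx' : x ∈ sphere K.c₀ K.r₀ := hx
    refine ⟨h0 hx', (x - K.c₀) / K.r₀, K.r₀, K.r₀pos, ?_, ?_⟩
    · rw [norm_div, Complex.norm_real, Real.norm_of_nonneg K.r₀pos.le, mem_sphere_iff_norm.mp hx', div_self K.r₀pos.ne']
    · intro p hp
      have hne : (K.r₀ : ℂ) ≠ 0 := by exact_mod_cast K.r₀pos.ne'
      have e : x + K.r₀ * ((x - K.c₀) / K.r₀) = 2 * x - K.c₀ := by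
        rw [mul_div_cancel₀ _ hne]
        ring
      rw [e]
      have h1 := (hT p hp).1
      have h2 : ‖(2 * x - K.c₀) - K.c₀‖ = 2 * K.r₀ := by
        have e2 : (2 * x - K.c₀) - K.c₀ = 2 * (x - K.c₀) := by ring
        rw [e2, norm_mul, mem_sphere_iff_norm.mp hx']
        simp
      have h3 : ‖(2 * x - K.c₀) - K.c₀‖ ≤ ‖p - K.c₀‖ + ‖p - (2 * x - K.c₀)‖ := by
        have e3 : (2 * x - K.c₀) - K.c₀ = (p - K.c₀) - (p - (2 * x - K.c₀)) := by ring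
        rw [e3]
        exact norm_sub_le _ _
      linarith
  | some i =>
    have hx' : x ∈ sphere (K.c i) (K.r i) := hx
    refine ⟨hi i hx', (K.c i - x) / K.r i, K.r i, K.rpos i, ?_, ?_⟩
    · rw [norm_div, Complex.norm_real, Real.norm_of_nonneg (K.rpos i).le, norm_sub_rev, mem_sphere_iff_norm.mp hx',
        div_self (K.rpos i).ne']
    · intro p hp
      have hne : (K.r i : ℂ) ≠ 0 := by exact_mod_cast (K.rpos i).ne'
      have e : x + K.r i * ((K.c i - x) / K.r i) = K.c i := by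
        rw [mul_div_cancel₀ _ hne]
        ring
      rw [e]
      exact (hT p hp).2 i

theorem thm_PA (hHLE : St_HLE) (hPRF : St_PRF) (hWIN : RCE.St_WIN) (hTF : RCE.St_TF) : St_PA := by
  intro K Γ hG
  have key : ∀ M : ℝ, ∃ ε₃ θ c₂ : ℝ, 0 < θ ∧ θ ≤ 1 / 8 ∧ 0 < c₂ ∧
      (∀ y ∈ K.T, FB K y ε₃ (16 * (max M 1) ^ 2) → ∃ j, y ∈ PC K j) ∧
      ∀ (x n : ℂ) (R l ρ₀ : ℝ) (A : ℂ →ₗ[ℝ] ℂ) (f : ℂ → ℂ), x ∈ K.T → 0 < R → R ≤ K.r₀ → R ≤ ρ₀ →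
        3 * (max M 1) ^ 2 * (l * R) ≤ K.r₀ → Dist A l (max M 1) → ContinuousOn f K.T →
        Set.MapsTo f K.T K.T → Near K.T f x R A (θ * l * R) → ‖n‖ = 1 → Free K (x + ρ₀ * n) ρ₀ →
        ∃ (w : ℂ) (ρ : ℝ), c₂ * (l * R) ≤ ρ ∧ ρ ≤ 2 * (max M 1) * c₂ * (l * R) ∧ Free K w ρ ∧ ‖w - f x‖ ≤ (1 + ε₃) * ρ := by
    intro M
    have hM : 1 ≤ max M 1 := le_max_right _ _
    have hM2 : 1 ≤ 16 * (max M 1) ^ 2 := by nlinarith
    obtain ⟨ε₃, he0, he1, hP⟩ := hPRF K Γ hG (16 * (max M 1) ^ 2) hM2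
    obtain ⟨θ, c₂, h1, h2, h3, -, h5⟩ := hHLE K Γ hG (max M 1) ε₃ hM he0 he1
    exact ⟨ε₃, θ, c₂, h1, h2, h3, hP, h5⟩
  choose ε₃ θ c₂ hθ0 hθ8 hc0 hP hH using key
  refine ⟨θ, hθ0, ?_⟩
  rintro f j x hf hm hx ⟨M, hM, R₀, hR₀, hA⟩
  obtain ⟨hxT, n, ρ₀, hρ₀, hn, hfree⟩ := PA_free hTF K j x hx
  have hmax : max M 1 = M := max_eq_left hM
  have hP' := hP M
  have hH' := hH M
  rw [hmax] at hP' hH'
  refine hP' (f x) (hm hxT) ?_
  have hr := K.r₀pos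
  have hM2 : 0 < 3 * M ^ 2 := by positivity
  have hR₁ : 0 < min (R₀ / 2) (min ρ₀ K.r₀) := lt_min (by linarith) (lt_min hρ₀ hr)
  obtain ⟨d₀, hd₀, hd⟩ := hWIN K x f M (θ M) (min (R₀ / 2) (min ρ₀ K.r₀)) hxT hM (hθ0 M).le (hθ8 M) hR₁
    ((min_le_right _ _).trans (min_le_right _ _))
    (fun R hR hR' => hA R hR (by
      have := hR'.trans (min_le_left _ _)
      linarith)) (hf x hxT) (c₂ M) (K.r₀ / (3 * M ^ 2)) (hc0 M) (div_pos hr hM2)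
  refine ⟨d₀, hd₀, ?_⟩
  intro d hd1 hd2
  obtain ⟨R, l, A, hR, hRR, hD, hN, hl1, hl2, hl3⟩ := hd d hd1 hd2
  have h3 : 3 * M ^ 2 * (l * R) ≤ K.r₀ := by
    have := (le_div_iff₀ hM2).mp hl1
    linarith
  obtain ⟨w, ρ, hw1, hw2, hw3, hw4⟩ := hH' x n R l ρ₀ A f hxT hR ((hRR.trans (min_le_right _ _)).trans (min_le_right _ _))
    ((hRR.trans (min_le_right _ _)).trans (min_le_left _ _)) h3 hD hf hm hN hn hfree
  refine ⟨w, ρ, hl3.trans hw1, ?_, hw3, hw4⟩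
  have h4 : 2 * M * (c₂ M * (l * R)) ≤ 2 * M * (8 * M * d) := mul_le_mul_of_nonneg_left hl2 (by linarith)
  calc ρ ≤ 2 * M * c₂ M * (l * R) := hw2
    _ = 2 * M * (c₂ M * (l * R)) := by ring
    _ ≤ 2 * M * (8 * M * d) := h4
    _ = 16 * M ^ 2 * d := by ring

end RCP
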