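import Pool.Agent.RCP.St

/-!
# RCP, module PB: points of peripheral circles with affine behaviour along the circle
-/

set_option autoImplicit false

namespace RCP

open Metric RCE

theorem thm_PB (hTLQ : St_TLQ) (hLIN : St_LIN) (hPRF : St_PRF) : St_PB := by
  intro K Γ hΓ hN
  obtain ⟨ε₃, hε₃, _, hprf⟩ := hPRF K Γ hΓ 1 (le_refl 1)
  obtain ⟨c₁, hc₁, _, htlq⟩ := hTLQ K Γ hΓ hN ε₃ hε₃
  obtain ⟨θ, hθ, hlin⟩ := hLIN K (c₁ ^ 2) (by positivity)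
  refine ⟨θ, hθ, ?_⟩
  intro f j x hx hm haff
  have hr₀ := K.r₀pos
  obtain ⟨d₀, hd₀, hnln⟩ := hlin f j x hx hm haff
  apply hprf (f x) (hm hx)
  refine ⟨c₁ * min d₀ K.r₀, mul_pos hc₁ (lt_min hd₀ hr₀), ?_⟩
  intro d' hd' hd'lt
  have hd1 : d' / c₁ < min d₀ K.r₀ := by
    rw [div_lt_iff₀ hc₁]
    linarith
  have hd2 : 0 < d' / c₁ := div_pos hd' hc₁
  obtain ⟨u, hu, hseg⟩ := hnln (d' / c₁) hd2 (hd1.trans_le (min_le_left _ _))
  obtain ⟨w, hw, hwy⟩ := htlq (f x) u (d' / c₁) (hm hx) hd2 (hd1.le.trans (min_le_right _ _)) hu hseg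
  have he : c₁ * (d' / c₁) = d' := by
    field_simp
  rw [he] at hw hwy
  exact ⟨w, d', le_refl _, by rw [one_mul], hw, hwy⟩

end RCP
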