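import Pool.Agent.RCP.St

/-!
# RCP: points with free balls at all scales are on peripheral circles
-/

set_option autoImplicit false

namespace RCP

open Metric RCE

private lemma PRF_lim (a b C d : ℝ)
    (h : ∀ k : ℕ, a ≤ b + C * (d / 2 ^ k)) : a ≤ b := by
  have h1 : Filter.Tendsto (fun k : ℕ => b + C * (d * (1 / 2) ^ k)) Filter.atTop
      (nhds (b + C * (d * 0))) := by
    refine Filter.Tendsto.const_add _ (Filter.Tendsto.const_mul _ (Filter.Tendsto.const_mul _ ?_))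
    exact tendsto_pow_atTop_nhds_zero_of_lt_one (by norm_num) (by norm_num)
  rw [mul_zero, mul_zero, add_zero] at h1
  refine ge_of_tendsto' h1 fun k => ?_
  have h2 := h k
  have h3 : d / 2 ^ k = d * (1 / 2) ^ k := by
    rw [one_div, inv_pow]
    rfl
  rw [h3] at h2
  exact h2

theorem thm_PRF (hTWB : St_TWB) (hCC : RCE.St_CC) (hTF : RCE.St_TF) : St_PRF := by
  intro K Γ hG Λ hΛ
  obtain ⟨ε, hε0, hε1, hT⟩ := hTWB K Γ hG (2 * Λ) (by linarith)
  refine ⟨ε, hε0, hε1, ?_⟩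
  rintro y hy ⟨d₀, hd₀, hF⟩
  have hr₀ := K.r₀pos
  have hΛ0 : 0 < Λ := by linarith
  set d₁ : ℝ := min (d₀ / 2) (K.r₀ / Λ) with hd₁
  have hd10 : 0 < d₁ := lt_min (by positivity) (by positivity)
  have hd1a : d₁ ≤ d₀ / 2 := min_le_left _ _
  have hd1b : Λ * d₁ ≤ K.r₀ := by
    have h1 : d₁ ≤ K.r₀ / Λ := min_le_right _ _
    rw [le_div_iff₀ hΛ0] at h1
    linarith
  have hdk : ∀ k : ℕ, 0 < d₁ / 2 ^ k ∧ d₁ / 2 ^ k ≤ d₁ := by
    intro k
    refine ⟨by positivity, div_le_self hd10.le (one_le_pow₀ (by norm_num))⟩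
  have hex : ∀ k : ℕ, ∃ (w : ℂ) (ρ : ℝ), d₁ / 2 ^ k ≤ ρ ∧ ρ ≤ Λ * (d₁ / 2 ^ k) ∧ Free K w ρ ∧
      ‖w - y‖ ≤ (1 + ε) * ρ := fun k => hF _ (hdk k).1 (by have := (hdk k).2; linarith)
  choose w ρ h1 h2 h3 h4 using hex
  have hρ0 : ∀ k, 0 < ρ k := fun k => (hdk k).1.trans_le (h1 k)
  have hstep : ∀ k, d₁ / 2 ^ k = 2 * (d₁ / 2 ^ (k + 1)) := by
    intro k
    rw [pow_succ]
    field_simp
  have hmeet : ∀ k, ‖w k - w (k + 1)‖ < ρ k + ρ (k + 1) := by
    intro k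
    refine hT y (w k) (w (k + 1)) (ρ k) (ρ (k + 1)) hy (hρ0 k) (hρ0 (k + 1)) ?_ ?_ ?_ (h3 k)
      (h3 (k + 1)) (h4 k) (h4 (k + 1))
    · calc ρ k ≤ Λ * (d₁ / 2 ^ k) := h2 k
        _ = 2 * Λ * (d₁ / 2 ^ (k + 1)) := by rw [hstep k]; ring
        _ ≤ 2 * Λ * ρ (k + 1) := mul_le_mul_of_nonneg_left (h1 (k + 1)) (by positivity)
    · have h5 : d₁ / 2 ^ (k + 1) ≤ d₁ / 2 ^ k := by
        have := hstep k
        have := (hdk (k + 1)).1
        linarith
      calc ρ (k + 1) ≤ Λ * (d₁ / 2 ^ (k + 1)) := h2 (k + 1)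
        _ ≤ Λ * ρ k := mul_le_mul_of_nonneg_left (h5.trans (h1 k)) hΛ0.le
        _ ≤ 2 * Λ * ρ k := by
            have := hρ0 k
            have h6 : 0 ≤ Λ * ρ k := by positivity
            linarith
    · refine (min_le_left _ _).trans ((h2 k).trans ?_)
      exact (mul_le_mul_of_nonneg_left (hdk k).2 hΛ0.le).trans hd1b
  -- the union of the balls
  have hpre : IsPreconnected (⋃ k, ball (w k) (ρ k)) := by
    refine IsPreconnected.iUnion_of_chain (fun k => (convex_ball _ _).isPreconnected) fun k => ?_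
    -- the point which divides the segment
    have ha := hρ0 k
    have hb := hρ0 (k + 1)
    have hs : 0 < ρ k + ρ (k + 1) := by linarith
    refine ⟨w k + ((ρ k / (ρ k + ρ (k + 1)) : ℝ) : ℂ) * (w (k + 1) - w k), ?_, ?_⟩
    · rw [mem_ball, dist_eq_norm, add_sub_cancel_left, norm_mul, Complex.norm_real,
        Real.norm_eq_abs, abs_of_nonneg (by positivity), norm_sub_rev]
      calc ρ k / (ρ k + ρ (k + 1)) * ‖w k - w (k + 1)‖
          < ρ k / (ρ k + ρ (k + 1)) * (ρ k + ρ (k + 1)) :=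
            mul_lt_mul_of_pos_left (hmeet k) (by positivity)
        _ = ρ k := by field_simp
    · have h5 : w k + ((ρ k / (ρ k + ρ (k + 1)) : ℝ) : ℂ) * (w (k + 1) - w k) - w (Order.succ k) =
          ((ρ (k + 1) / (ρ k + ρ (k + 1)) : ℝ) : ℂ) * (w k - w (k + 1)) := by
        have h6 : Order.succ k = k + 1 := rfl
        have h7 : ((ρ k : ℂ) + (ρ (k + 1) : ℂ)) ≠ 0 := by
          rw [← Complex.ofReal_add]
          exact_mod_cast hs.ne'
        rw [h6]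
        push_cast
        field_simp
        ring
      rw [mem_ball, dist_eq_norm, h5, norm_mul, Complex.norm_real,
        Real.norm_eq_abs, abs_of_nonneg (by positivity)]
      calc ρ (k + 1) / (ρ k + ρ (k + 1)) * ‖w k - w (k + 1)‖
          < ρ (k + 1) / (ρ k + ρ (k + 1)) * (ρ k + ρ (k + 1)) :=
            mul_lt_mul_of_pos_left (hmeet k) (by positivity)
        _ = ρ (k + 1) := by field_simp
  have hmemw : ∀ k, w k ∈ ⋃ k, ball (w k) (ρ k) := fun k =>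
    Set.mem_iUnion.2 ⟨k, mem_ball_self (hρ0 k)⟩
  have hdis : ∀ p ∈ ⋃ k, ball (w k) (ρ k), p ∉ K.T := by
    intro p hp hpT
    obtain ⟨k, hk⟩ := Set.mem_iUnion.1 hp
    rw [mem_ball, dist_eq_norm] at hk
    exact absurd (h3 k p hpT) (not_le.2 hk)
  obtain ⟨-, -, -, hTF4, -⟩ := hTF K
  obtain ⟨hy0, hyi⟩ := hTF4 y hy
  have hwy : ∀ k : ℕ, ‖w k - y‖ ≤ (2 * Λ) * (d₁ / 2 ^ k) := by
    intro k
    calc ‖w k - y‖ ≤ (1 + ε) * ρ k := h4 k
      _ ≤ 2 * ρ k := mul_le_mul_of_nonneg_right (by linarith) (hρ0 k).le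
      _ ≤ 2 * (Λ * (d₁ / 2 ^ k)) := mul_le_mul_of_nonneg_left (h2 k) (by norm_num)
      _ = (2 * Λ) * (d₁ / 2 ^ k) := by ring
  rcases hCC K _ hpre ⟨w 0, hmemw 0⟩ hdis with ⟨i, hi⟩ | hout
  · refine ⟨some i, ?_⟩
    have h5 : ‖y - K.c i‖ ≤ K.r i := by
      refine PRF_lim _ _ (2 * Λ) d₁ fun k => ?_
      have h6 := hi (hmemw k)
      rw [mem_ball, dist_eq_norm] at h6
      have h7 : ‖y - K.c i‖ ≤ ‖y - w k‖ + ‖w k - K.c i‖ := by
        have := norm_add_le (y - w k) (w k - K.c i)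
        rwa [sub_add_sub_cancel] at this
      rw [norm_sub_rev y (w k)] at h7
      have := hwy k
      linarith
    show y ∈ sphere (K.c i) (K.r i)
    rw [mem_sphere, dist_eq_norm]
    exact le_antisymm h5 (hyi i)
  · refine ⟨none, ?_⟩
    have h5 : K.r₀ ≤ ‖y - K.c₀‖ := by
      refine PRF_lim _ _ (2 * Λ) d₁ fun k => ?_
      have h6 := hout _ (hmemw k)
      have h7 : ‖w k - K.c₀‖ ≤ ‖w k - y‖ + ‖y - K.c₀‖ := by
        have := norm_add_le (w k - y) (y - K.c₀)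
        rwa [sub_add_sub_cancel] at this
      have := hwy k
      linarith
    show y ∈ sphere K.c₀ K.r₀
    rw [mem_sphere, dist_eq_norm]
    exact le_antisymm hy0 h5

end RCP
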