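import Pool.Agent.RCP.St

/-!
# RCP, module RSP: relative separation of the peripheral circles (helper76)
-/

set_option autoImplicit false

namespace RCP

open Metric RCE

/-- the complementary component -/
private def RSPco (K : Cp) : Option ℕ → Set ℂ
  | none => {z | K.r₀ < ‖z - K.c₀‖}
  | some i => ball (K.c i) (K.r i)

private theorem RSPpos (K : Cp) (j : Option ℕ) : 0 < rr K j := by
  cases j with
  | none => exact K.r₀pos
  | some i => exact K.rpos i

private theorem RSPrle (K : Cp) (j : Option ℕ) : rr K j ≤ K.r₀ := by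
  cases j with
  | none => exact le_refl _
  | some i =>
    show K.r i ≤ K.r₀
    have hr := K.rpos i
    have h1 : K.c i + (K.r i : ℂ) ∈ ball K.c₀ K.r₀ := by
      apply K.sub i
      rw [mem_closedBall, dist_eq_norm, add_sub_cancel_left, Complex.norm_real, Real.norm_eq_abs,
        abs_of_pos hr]
    have h2 : K.c i - (K.r i : ℂ) ∈ ball K.c₀ K.r₀ := by
      apply K.sub i
      rw [mem_closedBall, dist_eq_norm, sub_sub_cancel_left, norm_neg, Complex.norm_real,
        Real.norm_eq_abs, abs_of_pos hr]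
    rw [mem_ball, dist_eq_norm] at h1 h2
    have h3 : ‖(2 * K.r i : ℂ)‖ ≤
        ‖K.c i + (K.r i : ℂ) - K.c₀‖ + ‖K.c i - (K.r i : ℂ) - K.c₀‖ := by
      have e : (2 * K.r i : ℂ) = (K.c i + (K.r i : ℂ) - K.c₀) - (K.c i - (K.r i : ℂ) - K.c₀) := by
        ring
      rw [e]
      exact norm_sub_le _ _
    have h4 : ‖(2 * K.r i : ℂ)‖ = 2 * K.r i := by
      rw [norm_mul, Complex.norm_real, Real.norm_eq_abs, abs_of_pos hr, Complex.norm_ofNat]
    linarith

private theorem RSPmem (hTF : RCE.St_TF) (K : Cp) (j : Option ℕ) {p : ℂ} (hp : p ∈ PC K j) :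
    p ∈ K.T := by
  obtain ⟨-, h2, h3, -, -⟩ := hTF K
  cases j with
  | none => exact h3 hp
  | some i => exact h2 i hp

private theorem RSPout (hTF : RCE.St_TF) (K : Cp) (j : Option ℕ) {z : ℂ} (hz : z ∈ RSPco K j) :
    z ∉ K.T := by
  intro hT
  obtain ⟨-, -, -, h4, -⟩ := hTF K
  obtain ⟨h5, h6⟩ := h4 z hT
  cases j with
  | none =>
    have h7 : K.r₀ < ‖z - K.c₀‖ := hz
    linarith
  | some i =>
    have h7 : z ∈ ball (K.c i) (K.r i) := hz
    rw [mem_ball, dist_eq_norm] at h7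
    have := h6 i
    linarith

private theorem RSPdis (K : Cp) (i j : Option ℕ) (hij : i ≠ j) {z : ℂ} (h1 : z ∈ RSPco K i)
    (h2 : z ∈ RSPco K j) : False := by
  cases i with
  | none =>
    cases j with
    | none => exact hij rfl
    | some j =>
      have h3 : z ∈ ball K.c₀ K.r₀ := K.sub j (ball_subset_closedBall h2)
      rw [mem_ball, dist_eq_norm] at h3
      have h4 : K.r₀ < ‖z - K.c₀‖ := h1
      linarith
  | some i =>
    cases j with
    | none =>
      have h3 : z ∈ ball K.c₀ K.r₀ := K.sub i (ball_subset_closedBall h1)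
      rw [mem_ball, dist_eq_norm] at h3
      have h4 : K.r₀ < ‖z - K.c₀‖ := h2
      linarith
    | some j =>
      have hne : i ≠ j := fun h => hij (by rw [h])
      exact Set.disjoint_left.1 (K.disj i j hne) (ball_subset_closedBall h1)
        (ball_subset_closedBall h2)

private theorem RSPball (K : Cp) (j : Option ℕ) {p : ℂ} {r : ℝ} (hp : p ∈ PC K j) (hr : 0 < r)
    (hrj : r ≤ rr K j) : ∃ w : ℂ, ‖w - p‖ = r ∧ ball w r ⊆ RSPco K j := by
  cases j with
  | none =>
    have h0 : 0 < K.r₀ := K.r₀pos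
    have hp' : ‖p - K.c₀‖ = K.r₀ := by
      have h : p ∈ sphere K.c₀ K.r₀ := hp
      rwa [mem_sphere, dist_eq_norm] at h
    refine ⟨p + ((r / K.r₀ : ℝ) : ℂ) * (p - K.c₀), ?_, ?_⟩
    · rw [add_sub_cancel_left, norm_mul, Complex.norm_real, Real.norm_eq_abs,
        abs_of_pos (div_pos hr h0), hp', div_mul_cancel₀ _ h0.ne']
    · intro z hz
      rw [mem_ball, dist_eq_norm] at hz
      show K.r₀ < ‖z - K.c₀‖
      have e : p + ((r / K.r₀ : ℝ) : ℂ) * (p - K.c₀) - K.c₀ =
          (((1 + r / K.r₀ : ℝ)) : ℂ) * (p - K.c₀) := by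
        push_cast
        ring
      have h1 : ‖p + ((r / K.r₀ : ℝ) : ℂ) * (p - K.c₀) - K.c₀‖ = K.r₀ + r := by
        have h2 : 0 < 1 + r / K.r₀ := by positivity
        rw [e, norm_mul, Complex.norm_real, Real.norm_eq_abs, abs_of_pos h2, hp', add_mul,
          div_mul_cancel₀ _ h0.ne', one_mul]
      have h3 : ‖p + ((r / K.r₀ : ℝ) : ℂ) * (p - K.c₀) - K.c₀‖ ≤
          ‖z - K.c₀‖ + ‖z - (p + ((r / K.r₀ : ℝ) : ℂ) * (p - K.c₀))‖ := by
        have e2 : p + ((r / K.r₀ : ℝ) : ℂ) * (p - K.c₀) - K.c₀ =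
            (z - K.c₀) - (z - (p + ((r / K.r₀ : ℝ) : ℂ) * (p - K.c₀))) := by ring
        rw [e2]
        exact norm_sub_le _ _
      linarith
  | some i =>
    have h0 : 0 < K.r i := K.rpos i
    have hri : r ≤ K.r i := hrj
    have hp' : ‖p - K.c i‖ = K.r i := by
      have h : p ∈ sphere (K.c i) (K.r i) := hp
      rwa [mem_sphere, dist_eq_norm] at h
    refine ⟨p + ((r / K.r i : ℝ) : ℂ) * (K.c i - p), ?_, ?_⟩
    · rw [add_sub_cancel_left, norm_mul, Complex.norm_real, Real.norm_eq_abs,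
        abs_of_pos (div_pos hr h0), norm_sub_rev, hp', div_mul_cancel₀ _ h0.ne']
    · intro z hz
      rw [mem_ball, dist_eq_norm] at hz
      show z ∈ ball (K.c i) (K.r i)
      rw [mem_ball, dist_eq_norm]
      have e : p + ((r / K.r i : ℝ) : ℂ) * (K.c i - p) - K.c i =
          (((1 - r / K.r i : ℝ)) : ℂ) * (p - K.c i) := by
        push_cast
        ring
      have h1 : ‖p + ((r / K.r i : ℝ) : ℂ) * (K.c i - p) - K.c i‖ = K.r i - r := by
        have h2 : 0 ≤ 1 - r / K.r i := by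
          have := (div_le_one h0).2 hri
          linarith
        rw [e, norm_mul, Complex.norm_real, Real.norm_eq_abs, abs_of_nonneg h2, hp', sub_mul,
          div_mul_cancel₀ _ h0.ne', one_mul]
      have h3 : ‖z - K.c i‖ ≤ ‖z - (p + ((r / K.r i : ℝ) : ℂ) * (K.c i - p))‖ +
          ‖p + ((r / K.r i : ℝ) : ℂ) * (K.c i - p) - K.c i‖ := by
        have e2 : z - K.c i = (z - (p + ((r / K.r i : ℝ) : ℂ) * (K.c i - p))) +
            (p + ((r / K.r i : ℝ) : ℂ) * (K.c i - p) - K.c i) := by ring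
        calc ‖z - K.c i‖ = ‖(z - (p + ((r / K.r i : ℝ) : ℂ) * (K.c i - p))) +
              (p + ((r / K.r i : ℝ) : ℂ) * (K.c i - p) - K.c i)‖ := by rw [← e2]
          _ ≤ _ := norm_add_le _ _
      linarith

theorem thm_RSP (hTWB : St_TWB) (hTF : RCE.St_TF) : St_RSP := by
  intro K Γ hG
  obtain ⟨ε, hε0, hε1, hT⟩ := hTWB K Γ hG 1 le_rfl
  refine ⟨ε, hε0, hε1, ?_⟩
  intro i j hij p hp q hq
  by_contra hcon
  rw [not_le] at hcon
  obtain ⟨r, hr⟩ : ∃ r, r = min (rr K i) (rr K j) := ⟨_, rfl⟩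
  rw [← hr] at hcon
  have hr0 : 0 < r := by
    rw [hr]
    exact lt_min (RSPpos K i) (RSPpos K j)
  have hri : r ≤ rr K i := by
    rw [hr]
    exact min_le_left _ _
  have hrj : r ≤ rr K j := by
    rw [hr]
    exact min_le_right _ _
  obtain ⟨w, hw1, hw2⟩ := RSPball K i hp hr0 hri
  obtain ⟨w', hv1, hv2⟩ := RSPball K j hq hr0 hrj
  have hF : ∀ (l : Option ℕ) (u : ℂ), ball u r ⊆ RSPco K l → Free K u r := by
    intro l u hu z hz
    by_contra hc
    rw [not_le] at hc
    refine RSPout hTF K l (hu ?_) hz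
    rw [mem_ball, dist_eq_norm]
    exact hc
  have h1 : ‖w' - p‖ ≤ (1 + ε) * r := by
    have h2 : ‖w' - p‖ ≤ ‖w' - q‖ + ‖p - q‖ := by
      have e : w' - p = (w' - q) - (p - q) := by ring
      rw [e]
      exact norm_sub_le _ _
    linarith
  have h3 : ‖w - p‖ ≤ (1 + ε) * r := by
    rw [hw1]
    nlinarith
  have h4 := hT p w w' r r (RSPmem hTF K i hp) hr0 hr0 (by linarith) (by linarith)
    (by rw [min_self]; exact hri.trans (RSPrle K i)) (hF i w hw2) (hF j w' hv2) h3 h1
  have h5 : ‖(w + w') / 2 - w‖ < r := by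
    have e : (w + w') / 2 - w = -((w - w') / 2) := by ring
    rw [e, norm_neg, norm_div, Complex.norm_ofNat]
    linarith
  have h6 : ‖(w + w') / 2 - w'‖ < r := by
    have e : (w + w') / 2 - w' = (w - w') / 2 := by ring
    rw [e, norm_div, Complex.norm_ofNat]
    linarith
  refine RSPdis K i j hij (z := (w + w') / 2) (hw2 ?_) (hv2 ?_)
  · rw [mem_ball, dist_eq_norm]
    exact h5
  · rw [mem_ball, dist_eq_norm]
    exact h6

end RCP
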