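import Pool.Agent.RCP.St

/-!
# RCP SQZ: an inequality for two discs (MP_d2bd1a_an)
-/

set_option autoImplicit false

namespace RCP

open Metric RCE

private lemma SQZ_one (y w p : ℂ) (ρ s τ ε : ℝ) (hρ : 0 < ρ) (hε : 0 ≤ ε) (hε1 : ε ≤ 1) (hτ : 0 ≤ τ)
    (h1 : ρ ≤ ‖w - y‖) (h2 : ‖w - y‖ ≤ (1 + ε) * ρ) (h3 : ‖p - y‖ + τ ≤ s)
    (h4 : ∀ z, ‖z - p‖ = τ → ρ ≤ ‖z - w‖) :
    2 * inner ℝ (p - y) (w - y) + 2 * τ * ρ ≤ s ^ 2 + 3 * ε * ρ ^ 2 := by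
  have ha0 : 0 < ‖w - y‖ := lt_of_lt_of_le hρ h1
  obtain ⟨t, ht⟩ : ∃ t : ℝ, t = τ / ‖w - y‖ := ⟨_, rfl⟩
  have ht0 : 0 ≤ t := by rw [ht]; positivity
  have ht1 : t * ‖w - y‖ = τ := by rw [ht]; field_simp
  have hn : ‖t • (w - y)‖ = τ := by rw [norm_smul, Real.norm_eq_abs, abs_of_nonneg ht0, ht1]
  have h5 := h4 (p + t • (w - y)) (by rw [add_sub_cancel_left]; exact hn)
  have e1 : p + t • (w - y) - w = ((p - y) + t • (w - y)) - (w - y) := by abel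
  rw [e1] at h5
  have h6 : ρ ^ 2 ≤ ‖((p - y) + t • (w - y)) - (w - y)‖ ^ 2 := pow_le_pow_left₀ hρ.le h5 2
  rw [norm_sub_sq_real, inner_add_left, real_inner_smul_left, real_inner_self_eq_norm_sq] at h6
  have h7 : ‖(p - y) + t • (w - y)‖ ≤ s := (norm_add_le _ _).trans (by rw [hn]; exact h3)
  have h8 : ‖(p - y) + t • (w - y)‖ ^ 2 ≤ s ^ 2 := pow_le_pow_left₀ (norm_nonneg _) h7 2
  have h9 : t * ‖w - y‖ ^ 2 = τ * ‖w - y‖ := by rw [pow_two, ← mul_assoc, ht1]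
  have h10 : ‖w - y‖ ^ 2 ≤ ((1 + ε) * ρ) ^ 2 := pow_le_pow_left₀ ha0.le h2 2
  have h11 : ((1 + ε) * ρ) ^ 2 ≤ ρ ^ 2 + 3 * ε * ρ ^ 2 := by
    have : ε ^ 2 * ρ ^ 2 ≤ ε * ρ ^ 2 := mul_le_mul_of_nonneg_right (by nlinarith) (by positivity)
    nlinarith
  have h12 : τ * ρ ≤ τ * ‖w - y‖ := mul_le_mul_of_nonneg_left h1 hτ
  rw [h9] at h6
  linarith

private lemma SQZ_vec (a b : ℂ) (ρ ρ' ε Λ : ℝ) (hρ : 0 < ρ) (hρ' : 0 < ρ') (hε : 0 ≤ ε) (hε1 : ε ≤ 1)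
    (hΛ : 1 ≤ Λ) (l1 : ρ ≤ Λ * ρ') (l2 : ρ' ≤ Λ * ρ) (h1 : ‖a‖ ≤ (1 + ε) * ρ) (h2 : ‖b‖ ≤ (1 + ε) * ρ')
    (h3 : ρ + ρ' ≤ ‖a - b‖) : ‖ρ' • a + ρ • b‖ ^ 2 ≤ 12 * ε * Λ * (ρ * ρ') ^ 2 := by
  have e1 : ‖ρ' • a + ρ • b‖ ^ 2 = ρ' ^ 2 * ‖a‖ ^ 2 + 2 * (ρ' * (ρ * inner ℝ a b)) + ρ ^ 2 * ‖b‖ ^ 2 := by
    rw [norm_add_sq_real, real_inner_smul_left, real_inner_smul_right, norm_smul, norm_smul, mul_pow, mul_pow,
      Real.norm_eq_abs, Real.norm_eq_abs, sq_abs, sq_abs]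
  have e2 := norm_sub_sq_real a b
  have e3 : 2 * (ρ' * (ρ * inner ℝ a b)) = ρ * ρ' * (‖a‖ ^ 2 + ‖b‖ ^ 2 - ‖a - b‖ ^ 2) := by
    rw [e2]
    ring
  have f1 : ‖a‖ ^ 2 ≤ ((1 + ε) * ρ) ^ 2 := pow_le_pow_left₀ (norm_nonneg _) h1 2
  have f2 : ‖b‖ ^ 2 ≤ ((1 + ε) * ρ') ^ 2 := pow_le_pow_left₀ (norm_nonneg _) h2 2
  have f3 : (ρ + ρ') ^ 2 ≤ ‖a - b‖ ^ 2 := pow_le_pow_left₀ (by positivity) h3 2
  have g : (1 + ε) ^ 2 ≤ 1 + 3 * ε := by nlinarith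
  have f1' : ‖a‖ ^ 2 ≤ (1 + 3 * ε) * ρ ^ 2 := by
    rw [mul_pow] at f1
    exact f1.trans (mul_le_mul_of_nonneg_right g (by positivity))
  have f2' : ‖b‖ ^ 2 ≤ (1 + 3 * ε) * ρ' ^ 2 := by
    rw [mul_pow] at f2
    exact f2.trans (mul_le_mul_of_nonneg_right g (by positivity))
  have k1 : ρ' ^ 2 * ‖a‖ ^ 2 ≤ ρ' ^ 2 * ((1 + 3 * ε) * ρ ^ 2) := mul_le_mul_of_nonneg_left f1' (by positivity)
  have k2 : ρ ^ 2 * ‖b‖ ^ 2 ≤ ρ ^ 2 * ((1 + 3 * ε) * ρ' ^ 2) := mul_le_mul_of_nonneg_left f2' (by positivity)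
  have k3 : ρ * ρ' * (‖a‖ ^ 2 + ‖b‖ ^ 2 - ‖a - b‖ ^ 2) ≤
      ρ * ρ' * ((1 + 3 * ε) * ρ ^ 2 + (1 + 3 * ε) * ρ' ^ 2 - (ρ + ρ') ^ 2) :=
    mul_le_mul_of_nonneg_left (by linarith) (by positivity)
  have k4 : ρ ^ 2 ≤ Λ * (ρ * ρ') := by nlinarith
  have k5 : ρ' ^ 2 ≤ Λ * (ρ * ρ') := by nlinarith
  have hpp : 0 < ρ * ρ' := mul_pos hρ hρ'
  have k6 : (3 * ε * (ρ * ρ')) * (ρ ^ 2 + ρ' ^ 2) ≤ (3 * ε * (ρ * ρ')) * (2 * (Λ * (ρ * ρ'))) :=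
    mul_le_mul_of_nonneg_left (by linarith) (by positivity)
  have k7 : 6 * ε * (ρ * ρ') ^ 2 ≤ 6 * ε * (ρ * ρ') ^ 2 * Λ := by
    have : 0 ≤ 6 * ε * (ρ * ρ') ^ 2 := by positivity
    nlinarith
  rw [e1, e3]
  nlinarith

theorem thm_SQZ : St_SQZ := by
  intro c Λ hc hc1 hΛ
  have hΛ0 : 0 < Λ := by linarith
  refine ⟨c ^ 2 / (48 * Λ), c / 2, by positivity, ?_, by positivity, by linarith, ?_⟩
  · rw [div_le_one (by positivity)]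
    nlinarith
  intro y w w' p ρ ρ' s τ hρ hρ' l1 l2 h1 h2 h3 h4 h5 hs hτ h6 h7
  obtain ⟨ε, hε⟩ : ∃ ε : ℝ, ε = c ^ 2 / (48 * Λ) := ⟨_, rfl⟩
  rw [← hε] at h3 h4
  have hεΛ : 48 * (ε * Λ) = c ^ 2 := by rw [hε]; field_simp
  have hε0 : 0 ≤ ε := by rw [hε]; positivity
  have hε1 : ε ≤ 1 := by
    rw [hε, div_le_one (by positivity)]
    nlinarith
  have hmin : 0 < min ρ ρ' := lt_min hρ hρ'
  have hs0 : 0 < s := by rw [hs]; positivity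
  have hτ0 : 0 ≤ τ := le_trans (by positivity) hτ
  have s1 : s ≤ c / 2 * ρ := by
    rw [hs]
    exact mul_le_mul_of_nonneg_left (min_le_left _ _) (by positivity)
  have s2 : s ≤ c / 2 * ρ' := by
    rw [hs]
    exact mul_le_mul_of_nonneg_left (min_le_right _ _) (by positivity)
  have s3 : (ρ + ρ') * (c / 2) ≤ 2 * Λ * s := by
    have m1 : ρ + ρ' ≤ 2 * Λ * min ρ ρ' := by
      rcases le_total ρ ρ' with h | h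
      · rw [min_eq_left h]
        nlinarith
      · rw [min_eq_right h]
        nlinarith
    rw [hs]
    calc (ρ + ρ') * (c / 2) ≤ (2 * Λ * min ρ ρ') * (c / 2) := mul_le_mul_of_nonneg_right m1 (by positivity)
      _ = 2 * Λ * (c / 2 * min ρ ρ') := by ring
  have q1 := SQZ_one y w p ρ s τ ε hρ hε0 hε1 hτ0 h1 h3 h6 (fun z hz => (h7 z hz).1)
  have q2 := SQZ_one y w' p ρ' s τ ε hρ' hε0 hε1 hτ0 h2 h4 h6 (fun z hz => (h7 z hz).2)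
  have h5' : ρ + ρ' ≤ ‖(w - y) - (w' - y)‖ := by
    have e : (w - y) - (w' - y) = w - w' := by abel
    rw [e]
    exact h5
  have q3 := SQZ_vec (w - y) (w' - y) ρ ρ' ε Λ hρ hρ' hε0 hε1 hΛ l1 l2 h3 h4 h5'
  have hpp : 0 < ρ * ρ' := mul_pos hρ hρ'
  have q4 : ‖ρ' • (w - y) + ρ • (w' - y)‖ ≤ c / 2 * (ρ * ρ') := by
    apply le_of_sq_le_sq _ (by positivity)
    refine q3.trans (le_of_eq ?_)
    have : 12 * ε * Λ = c ^ 2 / 4 := by linarith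
    rw [this]
    ring
  have q5 : -(s * (c / 2 * (ρ * ρ'))) ≤ inner ℝ (p - y) (ρ' • (w - y) + ρ • (w' - y)) := by
    have i1 := abs_real_inner_le_norm (p - y) (ρ' • (w - y) + ρ • (w' - y))
    have i2 : ‖p - y‖ ≤ s := by linarith
    have i3 : ‖p - y‖ * ‖ρ' • (w - y) + ρ • (w' - y)‖ ≤ s * (c / 2 * (ρ * ρ')) :=
      mul_le_mul i2 q4 (norm_nonneg _) hs0.le
    exact (abs_le.1 (i1.trans i3)).1
  rw [inner_add_right, real_inner_smul_right, real_inner_smul_right] at q5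
  have r1 : ρ' * (2 * inner ℝ (p - y) (w - y) + 2 * τ * ρ) ≤ ρ' * (s ^ 2 + 3 * ε * ρ ^ 2) :=
    mul_le_mul_of_nonneg_left q1 hρ'.le
  have r2 : ρ * (2 * inner ℝ (p - y) (w' - y) + 2 * τ * ρ') ≤ ρ * (s ^ 2 + 3 * ε * ρ' ^ 2) :=
    mul_le_mul_of_nonneg_left q2 hρ.le
  have r3 : ρ' * s ^ 2 ≤ (c / 2 * s) * (ρ * ρ') := by
    have : s * (s * ρ') ≤ (c / 2 * ρ) * (s * ρ') := mul_le_mul_of_nonneg_right s1 (by positivity)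
    nlinarith
  have r4 : ρ * s ^ 2 ≤ (c / 2 * s) * (ρ * ρ') := by
    have : s * (s * ρ) ≤ (c / 2 * ρ') * (s * ρ) := mul_le_mul_of_nonneg_right s2 (by positivity)
    nlinarith
  have r5 : (4 * τ) * (ρ * ρ') ≤ (2 * c * s + 3 * ε * (ρ + ρ')) * (ρ * ρ') := by
    have e1 : ρ' * (3 * ε * ρ ^ 2) + ρ * (3 * ε * ρ' ^ 2) = 3 * ε * (ρ + ρ') * (ρ * ρ') := by ring
    nlinarith
  have r6 := le_of_mul_le_mul_right r5 hpp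
  have r7 : 3 * ε * (ρ + ρ') ≤ c * s / 4 := by
    have e1 : (3 * ε) * ((ρ + ρ') * (c / 2)) ≤ (3 * ε) * (2 * Λ * s) := mul_le_mul_of_nonneg_left s3 (by positivity)
    have e2 : (3 * ε) * (2 * Λ * s) = (c / 2) * (c * s / 4) := by
      have : ε * Λ = c ^ 2 / 48 := by linarith
      calc (3 * ε) * (2 * Λ * s) = 6 * (ε * Λ) * s := by ring
        _ = (c / 2) * (c * s / 4) := by rw [this]; ring
    have e3 : (3 * ε * (ρ + ρ')) * (c / 2) ≤ (c * s / 4) * (c / 2) := by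
      calc (3 * ε * (ρ + ρ')) * (c / 2) = (3 * ε) * ((ρ + ρ') * (c / 2)) := by ring
        _ ≤ (c / 2) * (c * s / 4) := by rw [← e2]; exact e1
        _ = (c * s / 4) * (c / 2) := by ring
    exact le_of_mul_le_mul_right e3 (by positivity)
  have hcs : 0 < c * s := by positivity
  linarith

end RCP
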