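import Pool.Agent.RCP.St

/-!
# RCP: module SRC (MP_d2bd1a_an)

Injective continuous maps between circles are onto.
-/

set_option autoImplicit false

namespace RCP

open Metric RCE

private lemma SRC_alg (a b a' b' : ℝ) (h : a ^ 2 + b ^ 2 = 1) (h' : a' ^ 2 + b' ^ 2 = 1)
    (ha : a < 1) (ha' : a' < 1) (hq : b / (1 - a) = b' / (1 - a')) : a = a' ∧ b = b' := by
  have h1 : 0 < 1 - a := by linarith
  have h2 : 0 < 1 - a' := by linarith
  rw [div_eq_div_iff h1.ne' h2.ne'] at hq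
  have h3 : (1 - a ^ 2) * (1 - a') ^ 2 = (1 - a' ^ 2) * (1 - a) ^ 2 := by
    have e1 : 1 - a ^ 2 = b ^ 2 := by linarith
    have e2 : 1 - a' ^ 2 = b' ^ 2 := by linarith
    rw [e1, e2, ← mul_pow, ← mul_pow, hq]
  have h4 : ((1 - a) * (1 - a')) * ((1 + a) * (1 - a') - (1 + a') * (1 - a)) = 0 := by
    have : ((1 - a) * (1 - a')) * ((1 + a) * (1 - a') - (1 + a') * (1 - a)) =
      (1 - a ^ 2) * (1 - a') ^ 2 - (1 - a' ^ 2) * (1 - a) ^ 2 := by ring
    rw [this, h3, sub_self]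
  have h5 : (1 + a) * (1 - a') - (1 + a') * (1 - a) = 0 :=
    (mul_eq_zero.1 h4).resolve_left (mul_pos h1 h2).ne'
  have h6 : a = a' := by linarith
  refine ⟨h6, ?_⟩
  rw [h6] at hq
  exact mul_right_cancel₀ h2.ne' hq

private lemma SRC_re (u : ℂ) (hu : ‖u‖ = 1) (h1 : u ≠ 1) : u.re ^ 2 + u.im ^ 2 = 1 ∧ u.re < 1 := by
  have h : u.re ^ 2 + u.im ^ 2 = 1 := by
    have := Complex.normSq_apply u
    rw [Complex.normSq_eq_norm_sq, hu] at this
    nlinarith
  refine ⟨h, ?_⟩
  by_contra hc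
  push Not at hc
  have h2 : u.re = 1 := by nlinarith [sq_nonneg u.im]
  have h3 : u.im = 0 := by
    rw [h2] at h
    have : u.im ^ 2 = 0 := by linarith
    exact pow_eq_zero_iff (two_ne_zero) |>.1 this
  exact h1 (Complex.ext (by simpa using h2) (by simpa using h3))

theorem thm_SRC (hNIR : St_NIR) : St_SRC := by
  intro c p r ρ g hr hρ hg hinj hm w hw
  by_contra hno
  push Not at hno
  have hwp : w - p ≠ 0 := by
    intro h
    rw [mem_sphere, dist_eq_norm, h, norm_zero] at hw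
    exact hρ.ne hw
  have hw' : ‖w - p‖ = ρ := by rw [← dist_eq_norm]; exact hw
  have hu : ∀ x ∈ sphere c r, ‖(g x - p) / (w - p)‖ = 1 ∧ (g x - p) / (w - p) ≠ 1 := by
    intro x hx
    constructor
    · have h1 : ‖g x - p‖ = ρ := by
        rw [← dist_eq_norm]
        exact hm hx
      rw [norm_div, h1, hw', div_self hρ.ne']
    · intro h
      rw [div_eq_one_iff_eq hwp] at h
      exact hno x hx (sub_left_inj.1 h)
  have hc : ContinuousOn (fun x => (g x - p) / (w - p)) (sphere c r) :=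
    (hg.sub continuousOn_const).div_const _
  refine hNIR c r hr ⟨fun x => ((g x - p) / (w - p)).im / (1 - ((g x - p) / (w - p)).re), ?_, ?_⟩
  · refine (Complex.continuous_im.comp_continuousOn hc).div
      (continuousOn_const.sub (Complex.continuous_re.comp_continuousOn hc)) fun x hx => ?_
    have := (SRC_re _ (hu x hx).1 (hu x hx).2).2
    exact (sub_pos.2 this).ne'
  · intro x hx y hy hxy
    obtain ⟨h1, h2⟩ := SRC_re _ (hu x hx).1 (hu x hx).2
    obtain ⟨h3, h4⟩ := SRC_re _ (hu y hy).1 (hu y hy).2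
    obtain ⟨h5, h6⟩ := SRC_alg _ _ _ _ h1 h3 h2 h4 hxy
    have h7 : (g x - p) / (w - p) = (g y - p) / (w - p) := Complex.ext h5 h6
    rw [div_left_inj' hwp] at h7
    exact hinj hx hy (sub_left_inj.1 h7)

end RCP
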