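import Pool.Agent.RCP.St

/-!
# RCP: a long segment close to the carpet is close to a peripheral circle
-/

set_option autoImplicit false

namespace RCP

open Metric RCE Filter Topology

/-- passing to the limit -/
private theorem TLQ_lim {T : Set ℂ} (hT : IsClosed T) {B : ℝ} {A B' C D ζ : ℕ → ℂ} {a b c d z : ℂ}
    (hA : Tendsto A atTop (𝓝 a)) (hB : Tendsto B' atTop (𝓝 b)) (hC : Tendsto C atTop (𝓝 c))
    (hD : Tendsto D atTop (𝓝 d)) (hζ : Tendsto ζ atTop (𝓝 z))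
    (h : ∀ᶠ k in atTop, √(1 + ‖ζ k‖ ^ 2) ≤ B * ‖C k * ζ k + D k‖ ∧
      (A k * ζ k + B' k) / (C k * ζ k + D k) ∈ T) :
    √(1 + ‖z‖ ^ 2) ≤ B * ‖c * z + d‖ ∧ c * z + d ≠ 0 ∧ (a * z + b) / (c * z + d) ∈ T := by
  have h1 : Tendsto (fun k => √(1 + ‖ζ k‖ ^ 2)) atTop (𝓝 (√(1 + ‖z‖ ^ 2))) :=
    ((tendsto_const_nhds.add (hζ.norm.pow 2))).sqrt
  have h2 : Tendsto (fun k => B * ‖C k * ζ k + D k‖) atTop (𝓝 (B * ‖c * z + d‖)) :=
    ((hC.mul hζ).add hD).norm.const_mul B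
  have h3 : √(1 + ‖z‖ ^ 2) ≤ B * ‖c * z + d‖ :=
    le_of_tendsto_of_tendsto h1 h2 (h.mono fun k hk => hk.1)
  have h4 : c * z + d ≠ 0 := by
    intro h5
    rw [h5, norm_zero, mul_zero] at h3
    have h6 : 0 < √(1 + ‖z‖ ^ 2) := Real.sqrt_pos.2 (by positivity)
    linarith
  refine ⟨h3, h4, ?_⟩
  have h5 : Tendsto (fun k => (A k * ζ k + B' k) / (C k * ζ k + D k)) atTop
      (𝓝 ((a * z + b) / (c * z + d))) :=
    ((hA.mul hζ).add hB).div ((hC.mul hζ).add hD) h4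
  exact hT.mem_of_tendsto h5 (h.mono fun k hk => hk.2)

private theorem TLQ_cj_norm (σ : Bool) (z : ℂ) : ‖cj σ z‖ = ‖z‖ := by
  unfold cj
  split_ifs
  · exact RCLike.norm_conj z
  · rfl

private theorem TLQ_cj_sub (σ : Bool) (z w : ℂ) : cj σ z - cj σ w = cj σ (z - w) := by
  unfold cj
  split_ifs
  · rw [map_sub]
  · rfl

private theorem TLQ_cj_cj (σ : Bool) (z : ℂ) : cj σ (cj σ z) = z := by
  unfold cj
  split_ifs
  · exact Complex.conj_conj z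
  · rfl

private theorem TLQ_cj_real (σ : Bool) (t : ℝ) : cj σ (t : ℂ) = t := by
  unfold cj
  split_ifs
  · exact Complex.conj_ofReal t
  · rfl

theorem thm_TLQ (hMB : St_MB) (hCIR : St_CIR) (hTF : RCE.St_TF) : St_TLQ := by
  intro K Γ hΓ hN ε₃ hε₃
  obtain ⟨hTc, -, -, hT4, -⟩ := hTF K
  have hTcl : IsClosed K.T := hTc.isClosed
  obtain ⟨B, hB1, hMB'⟩ := hMB K Γ hΓ
  by_contra hcon
  push Not at hcon
  -- the counterexamples
  have hc1 : ∀ n : ℕ, ∃ (y u : ℂ) (d : ℝ), y ∈ K.T ∧ 0 < d ∧ d ≤ K.r₀ ∧ ‖u‖ = 1 ∧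
      (∀ t : ℝ, |t| ≤ 1 → ∃ p ∈ K.T, ‖p - (y + t * d * u)‖ ≤ (1 / ((n : ℝ) + 1)) ^ 2 * d) ∧
      ∀ w : ℂ, Free K w (1 / ((n : ℝ) + 1) * d) → (1 + ε₃) * (1 / ((n : ℝ) + 1) * d) < ‖w - y‖ := by
    intro n
    have hn : (0 : ℝ) < (n : ℝ) + 1 := by positivity
    have hn1 : 1 / ((n : ℝ) + 1) ≤ 1 := by
      rw [div_le_one hn]
      have : (0 : ℝ) ≤ n := Nat.cast_nonneg n
      linarith
    exact hcon (1 / ((n : ℝ) + 1)) (by positivity) hn1
  choose y u d hy hd hdr hu hseg hfree using hc1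
  set s : ℕ → ℝ := fun n => 1 / ((n : ℝ) + 1) * d n with hs
  have hs0 : ∀ n, 0 < s n := fun n => by
    have : (0 : ℝ) < (n : ℝ) + 1 := by positivity
    have := hd n
    positivity
  have hsr : ∀ n, s n ≤ K.r₀ := fun n => by
    have hn : (0 : ℝ) < (n : ℝ) + 1 := by positivity
    have hn1 : 1 / ((n : ℝ) + 1) ≤ 1 := by
      rw [div_le_one hn]
      have : (0 : ℝ) ≤ n := Nat.cast_nonneg n
      linarith
    have h1 : s n ≤ 1 * d n := mul_le_mul_of_nonneg_right hn1 (hd n).le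
    linarith [hdr n]
  have hmb := fun n => hMB' (y n) (u n) (s n) (hy n) (hs0 n) (hsr n) (hu n)
  choose σ a b c e hdet hab hbb hcb heb hm using hmb
  -- a subsequence
  have hX : IsCompact ((Set.univ : Set Bool) ×ˢ closedBall (0 : ℂ) B ×ˢ closedBall (0 : ℂ) B ×ˢ
      closedBall (0 : ℂ) B ×ˢ closedBall (0 : ℂ) B) :=
    isCompact_univ.prod ((isCompact_closedBall 0 B).prod ((isCompact_closedBall 0 B).prod
      ((isCompact_closedBall 0 B).prod (isCompact_closedBall 0 B))))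
  obtain ⟨⟨σ₀, a₀, b₀, c₀, e₀⟩, -, φ, hφ, hlim⟩ := hX.tendsto_subseq
    (x := fun n => (σ n, a n, b n, c n, e n)) (fun n => by
      refine ⟨Set.mem_univ _, ?_, ?_, ?_, ?_⟩
      · simpa using hab n
      · simpa using hbb n
      · simpa using hcb n
      · simpa using heb n)
  have hlσ : ∀ᶠ k in atTop, σ (φ k) = σ₀ := by
    have h1 : Tendsto (fun k => σ (φ k)) atTop (𝓝 σ₀) := (Prod.tendsto_iff _ _ |>.1 hlim).1
    rw [nhds_discrete, tendsto_pure] at h1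
    exact h1
  have hl1 := (Prod.tendsto_iff _ _ |>.1 hlim).2
  have hla : Tendsto (fun k => a (φ k)) atTop (𝓝 a₀) := (Prod.tendsto_iff _ _ |>.1 hl1).1
  have hl2 := (Prod.tendsto_iff _ _ |>.1 hl1).2
  have hlb : Tendsto (fun k => b (φ k)) atTop (𝓝 b₀) := (Prod.tendsto_iff _ _ |>.1 hl2).1
  have hl3 := (Prod.tendsto_iff _ _ |>.1 hl2).2
  have hlc : Tendsto (fun k => c (φ k)) atTop (𝓝 c₀) := (Prod.tendsto_iff _ _ |>.1 hl3).1
  have hle : Tendsto (fun k => e (φ k)) atTop (𝓝 e₀) := (Prod.tendsto_iff _ _ |>.1 hl3).2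
  have hdet0 : a₀ * e₀ - b₀ * c₀ = 1 := by
    have h1 : Tendsto (fun k => a (φ k) * e (φ k) - b (φ k) * c (φ k)) atTop
        (𝓝 (a₀ * e₀ - b₀ * c₀)) := (hla.mul hle).sub (hlb.mul hlc)
    have h2 : (fun k => a (φ k) * e (φ k) - b (φ k) * c (φ k)) = fun _ => (1 : ℂ) := by
      funext k
      exact hdet (φ k)
    rw [h2] at h1
    exact tendsto_nhds_unique h1 tendsto_const_nhds |>.symm ▸ rfl
  -- coordinates
  have hne : ∀ n, ((s n : ℂ)) * u n ≠ 0 := fun n => by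
    apply mul_ne_zero
    · exact_mod_cast (hs0 n).ne'
    · intro h1
      have := hu n
      rw [h1, norm_zero] at this
      exact zero_ne_one this
  have hcoord : ∀ n (q w : ℂ), ∃ ζ : ℂ, q = y n + s n * u n * cj (σ n) ζ ∧
      ‖ζ - w‖ = ‖q - (y n + s n * u n * cj (σ n) w)‖ / s n := by
    intro n q w
    refine ⟨cj (σ n) ((q - y n) / (s n * u n)), ?_, ?_⟩
    · rw [TLQ_cj_cj, mul_div_cancel₀ _ (hne n)]
      ring
    · have h1 : cj (σ n) ((q - y n) / (s n * u n)) - w =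
          cj (σ n) ((q - y n) / (s n * u n) - cj (σ n) w) := by
        rw [← TLQ_cj_sub, TLQ_cj_cj]
      have h2 : (q - y n) / (s n * u n) - cj (σ n) w =
          (q - (y n + s n * u n * cj (σ n) w)) / (s n * u n) := by
        rw [eq_div_iff (hne n), sub_mul, div_mul_cancel₀ _ (hne n)]
        ring
      rw [h1, TLQ_cj_norm, h2, norm_div, norm_mul, hu n, mul_one, Complex.norm_real,
        Real.norm_of_nonneg (hs0 n).le]
  have L : ∀ (χ : ℕ → ℕ) (ζ : ℕ → ℂ) (z : ℂ), Tendsto χ atTop atTop → Tendsto ζ atTop (𝓝 z) →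
      (∀ᶠ k in atTop, y (φ (χ k)) + s (φ (χ k)) * u (φ (χ k)) * cj (σ (φ (χ k))) (ζ k) ∈ K.T) →
      √(1 + ‖z‖ ^ 2) ≤ B * ‖c₀ * z + e₀‖ ∧ c₀ * z + e₀ ≠ 0 ∧ (a₀ * z + b₀) / (c₀ * z + e₀) ∈ K.T := by
    intro χ ζ z hχ hζ h
    exact TLQ_lim hTcl (hla.comp hχ) (hlb.comp hχ) (hlc.comp hχ) (hle.comp hχ) hζ
      (h.mono fun k hk => hm _ _ hk)
  -- real points
  have P1 : ∀ t : ℝ, √(1 + ‖(t : ℂ)‖ ^ 2) ≤ B * ‖c₀ * t + e₀‖ ∧ c₀ * t + e₀ ≠ 0 ∧
      (a₀ * t + b₀) / (c₀ * t + e₀) ∈ K.T := by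
    intro t
    have h1 : ∀ k, ∃ ζ : ℂ, (|t| ≤ (φ k : ℝ) + 1 →
        y (φ k) + s (φ k) * u (φ k) * cj (σ (φ k)) ζ ∈ K.T) ∧ ‖ζ - t‖ ≤ 1 / ((φ k : ℝ) + 1) := by
      intro k
      have hn : (0 : ℝ) < (φ k : ℝ) + 1 := by positivity
      by_cases hk : |t| ≤ (φ k : ℝ) + 1
      · obtain ⟨p, hp, hpn⟩ := hseg (φ k) (t / ((φ k : ℝ) + 1)) (by
          rw [abs_div, abs_of_pos hn, div_le_one hn]
          exact hk)
        obtain ⟨ζ, h1, h2⟩ := hcoord (φ k) p t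
        refine ⟨ζ, fun _ => h1 ▸ hp, ?_⟩
        have e1 : (s (φ k) : ℂ) * u (φ k) * (t : ℂ) =
            ((t / ((φ k : ℝ) + 1) : ℝ) : ℂ) * (d (φ k) : ℂ) * u (φ k) := by
          simp only [hs]
          push_cast
          ring
        rw [h2, TLQ_cj_real, e1, div_le_iff₀ (hs0 _)]
        refine hpn.trans (le_of_eq ?_)
        simp only [hs]
        ring
      · exact ⟨t, fun h => absurd h hk, by
          rw [sub_self, norm_zero]
          positivity⟩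
    choose ζ h2 h3 using h1
    refine L id ζ t tendsto_id ?_ ?_
    · rw [tendsto_iff_norm_sub_tendsto_zero]
      exact squeeze_zero (fun _ => norm_nonneg _) h3
        ((tendsto_one_div_add_atTop_nhds_zero_nat (𝕜 := ℝ)).comp hφ.tendsto_atTop)
    · filter_upwards [eventually_ge_atTop ⌈|t|⌉₊] with k hk
      apply h2
      have h4 : |t| ≤ (k : ℝ) := (Nat.le_ceil _).trans (by exact_mod_cast hk)
      have h5 : (k : ℝ) ≤ φ k := by exact_mod_cast hφ.le_apply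
      show |t| ≤ (φ k : ℝ) + 1
      linarith
  have hB0 : 0 < B := by linarith
  have hc0 : c₀ ≠ 0 := by
    intro h1
    obtain ⟨h2, -, -⟩ := P1 (B * ‖e₀‖ + 1)
    rw [h1, zero_mul, zero_add, Complex.norm_real, Real.norm_eq_abs, sq_abs] at h2
    have h3 : 0 ≤ B * ‖e₀‖ := by positivity
    have h4 : B * ‖e₀‖ + 1 ≤ √(1 + (B * ‖e₀‖ + 1) ^ 2) := by
      apply Real.le_sqrt_of_sq_le
      linarith
    linarith
  have hD : ((starRingEnd ℂ) c₀ * e₀).im ≠ 0 := by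
    intro h1
    have hn0 : Complex.normSq c₀ ≠ 0 := by
      rw [Ne, Complex.normSq_eq_zero]
      exact hc0
    obtain ⟨-, h2, -⟩ := P1 (-((starRingEnd ℂ) c₀ * e₀).re / Complex.normSq c₀)
    apply h2
    have h3 : (starRingEnd ℂ) c₀ * e₀ = ((((starRingEnd ℂ) c₀ * e₀).re : ℝ) : ℂ) := by
      apply Complex.ext
      · rw [Complex.ofReal_re]
      · rw [Complex.ofReal_im, h1]
    have h4 : (starRingEnd ℂ) c₀ * (c₀ * ((-((starRingEnd ℂ) c₀ * e₀).re / Complex.normSq c₀ : ℝ) : ℂ) + e₀) = 0 := by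
      have h5 : (starRingEnd ℂ) c₀ * c₀ = (Complex.normSq c₀ : ℂ) := (Complex.normSq_eq_conj_mul_self).symm
      have h6 : (Complex.normSq c₀ : ℂ) ≠ 0 := by exact_mod_cast hn0
      rw [mul_add, ← mul_assoc, h5]
      generalize hg : ((starRingEnd ℂ) c₀ * e₀).re = g at h3 ⊢
      rw [h3]
      push_cast
      field_simp
      ring
    rcases mul_eq_zero.1 h4 with h5 | h5
    · exact absurd ((map_eq_zero _).1 h5) hc0
    · exact h5
  have hac : a₀ / c₀ ∈ K.T := by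
    have h1 : Tendsto (fun n : ℕ => (a₀ * (((n : ℝ) + 1 : ℝ) : ℂ) + b₀) / (c₀ * (((n : ℝ) + 1 : ℝ) : ℂ) + e₀))
        atTop (𝓝 (a₀ / c₀)) := by
      rw [tendsto_iff_norm_sub_tendsto_zero]
      have hc0n : 0 < ‖c₀‖ := norm_pos_iff.2 hc0
      refine squeeze_zero (g := fun n : ℕ => B / ‖c₀‖ * (1 / ((n : ℝ) + 1))) (fun _ => norm_nonneg _)
        (fun n => ?_) ?_
      · obtain ⟨h2, h3, -⟩ := P1 ((n : ℝ) + 1)
        have h4 : (a₀ * (((n : ℝ) + 1 : ℝ) : ℂ) + b₀) / (c₀ * (((n : ℝ) + 1 : ℝ) : ℂ) + e₀) - a₀ / c₀ =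
            -1 / (c₀ * (c₀ * (((n : ℝ) + 1 : ℝ) : ℂ) + e₀)) := by
          rw [div_sub_div _ _ h3 hc0, ← hdet0]
          congr 1
          · ring
          · ring
        have hn : (0 : ℝ) < (n : ℝ) + 1 := by positivity
        have h5 : (n : ℝ) + 1 ≤ √(1 + ‖(((n : ℝ) + 1 : ℝ) : ℂ)‖ ^ 2) := by
          apply Real.le_sqrt_of_sq_le
          rw [Complex.norm_real, Real.norm_eq_abs, sq_abs]
          linarith
        have h6 : 0 < ‖c₀ * (((n : ℝ) + 1 : ℝ) : ℂ) + e₀‖ := norm_pos_iff.2 h3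
        rw [h4, norm_div, norm_neg, norm_one, norm_mul, div_mul_div_comm, mul_one,
          div_le_div_iff₀ (by positivity) (by positivity), one_mul]
        have h7 : ‖c₀‖ * ((n : ℝ) + 1) ≤ ‖c₀‖ * (B * ‖c₀ * (((n : ℝ) + 1 : ℝ) : ℂ) + e₀‖) :=
          mul_le_mul_of_nonneg_left (h5.trans h2) hc0n.le
        linarith
      · have h2 := (tendsto_one_div_add_atTop_nhds_zero_nat (𝕜 := ℝ)).const_mul (B / ‖c₀‖)
        rwa [mul_zero] at h2
    exact hTcl.mem_of_tendsto h1 (Eventually.of_forall fun n => (P1 _).2.2)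
  -- the circle
  obtain ⟨p, ρ, hρ, hC1, hC2⟩ := hCIR a₀ b₀ c₀ e₀ hdet0 hD
  have hsph : sphere p ρ ⊆ K.T := by
    intro w hw
    rw [mem_sphere, dist_eq_norm] at hw
    rcases hC2 w hw with h1 | ⟨t, -, h1⟩
    · rw [h1]
      exact hac
    · rw [← h1]
      exact (P1 t).2.2
  obtain ⟨j, hpj, hρj⟩ := hN p ρ hρ hsph
  -- the free ball
  obtain ⟨κ, hκ, hκj⟩ : ∃ κ : ℝ, κ ^ 2 = 1 ∧ (match j with
      | none => κ * ((starRingEnd ℂ) c₀ * e₀).im < 0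
      | some _ => 0 < κ * ((starRingEnd ℂ) c₀ * e₀).im) := by
    rcases lt_or_gt_of_ne hD with h1 | h1
    · cases j with
      | none => exact ⟨1, by norm_num, by show 1 * _ < (0 : ℝ); linarith⟩
      | some i => exact ⟨-1, by norm_num, by show (0 : ℝ) < -1 * _; linarith⟩
    · cases j with
      | none => exact ⟨-1, by norm_num, by show -1 * _ < (0 : ℝ); linarith⟩
      | some i => exact ⟨1, by norm_num, by show (0 : ℝ) < 1 * _; linarith⟩
  have hκ1 : |κ| = 1 := by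
    have h1 : |κ| ^ 2 = 1 := by rw [sq_abs, hκ]
    have h2 : 0 ≤ |κ| := abs_nonneg κ
    nlinarith
  set ω : ℂ := ((κ * (1 + ε₃) : ℝ) : ℂ) * Complex.I with hω
  have hωn : ‖ω‖ = 1 + ε₃ := by
    rw [hω, norm_mul, Complex.norm_I, mul_one, Complex.norm_real, Real.norm_eq_abs, abs_mul, hκ1,
      one_mul, abs_of_pos (by linarith)]
  have hq : ∀ k, ∃ ζ : ℂ, y (φ k) + s (φ k) * u (φ k) * cj (σ (φ k)) ζ ∈ K.T ∧ ζ ∈ closedBall ω 1 := by
    intro k
    have h1 : ¬ Free K (y (φ k) + s (φ k) * u (φ k) * cj (σ (φ k)) ω) (s (φ k)) := by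
      intro h2
      have h3 := hfree (φ k) _ h2
      have h4 : ‖y (φ k) + s (φ k) * u (φ k) * cj (σ (φ k)) ω - y (φ k)‖ = s (φ k) * (1 + ε₃) := by
        rw [add_sub_cancel_left, norm_mul, norm_mul, hu, mul_one, TLQ_cj_norm, hωn,
          Complex.norm_real, Real.norm_of_nonneg (hs0 _).le]
      rw [h4] at h3
      have h5 : (1 + ε₃) * s (φ k) < s (φ k) * (1 + ε₃) := h3
      linarith
    unfold Free at h1
    push Not at h1
    obtain ⟨q, hq, hqn⟩ := h1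
    obtain ⟨ζ, h2, h3⟩ := hcoord (φ k) q ω
    refine ⟨ζ, h2 ▸ hq, ?_⟩
    rw [mem_closedBall, dist_eq_norm, h3, div_le_one (hs0 _)]
    exact hqn.le
  choose ζ hζT hζb using hq
  obtain ⟨z, hz, χ, hχ, hζlim⟩ := (isCompact_closedBall ω 1).tendsto_subseq hζb
  obtain ⟨-, hz1, hz2⟩ := L χ (ζ ∘ χ) z hχ.tendsto_atTop hζlim (Eventually.of_forall fun k => hζT (χ k))
  have hzi : ε₃ ≤ κ * z.im := by
    rw [mem_closedBall, dist_eq_norm] at hz
    have h1 : |(z - ω).im| ≤ 1 := (Complex.abs_im_le_norm _).trans hz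
    have h2 : (z - ω).im = z.im - κ * (1 + ε₃) := by
      rw [hω, Complex.sub_im, Complex.im_ofReal_mul, Complex.I_im, mul_one]
    rw [h2] at h1
    have h3 : |κ * (z.im - κ * (1 + ε₃))| ≤ 1 := by
      rw [abs_mul, hκ1, one_mul]
      exact h1
    have h4 := (abs_le.1 h3).1
    have h5 : κ * (z.im - κ * (1 + ε₃)) = κ * z.im - κ ^ 2 * (1 + ε₃) := by ring
    rw [h5, hκ] at h4
    linarith
  have hN2 : 0 < ‖c₀ * z + e₀‖ := norm_pos_iff.2 hz1
  have hform := hC1 z hz1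
  set D : ℝ := ((starRingEnd ℂ) c₀ * e₀).im with hDdef
  have e2 : -z.im / (D * ‖c₀ * z + e₀‖ ^ 2) = -((κ * D) * (κ * z.im)) / (D ^ 2 * ‖c₀ * z + e₀‖ ^ 2) := by
    have h1 : (κ * D) * (κ * z.im) = κ ^ 2 * (D * z.im) := by ring
    rw [h1, hκ, one_mul]
    field_simp
  rw [e2] at hform
  have hden : 0 < D ^ 2 * ‖c₀ * z + e₀‖ ^ 2 := by positivity
  obtain ⟨ho, hi⟩ := hT4 _ hz2
  have hq0 := norm_nonneg ((a₀ * z + b₀) / (c₀ * z + e₀) - p)
  cases j with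
  | none =>
    have h1 : κ * D < 0 := hκj
    have h2 : 0 < -((κ * D) * (κ * z.im)) / (D ^ 2 * ‖c₀ * z + e₀‖ ^ 2) := by
      apply div_pos _ hden
      have : 0 < (-(κ * D)) * (κ * z.im) := mul_pos (by linarith) (by linarith)
      linarith
    have hp' : p = K.c₀ := hpj
    have hr' : ρ = K.r₀ := hρj
    rw [← hp', ← hr'] at ho
    have h3 : ‖(a₀ * z + b₀) / (c₀ * z + e₀) - p‖ ^ 2 ≤ ρ ^ 2 := by
      exact pow_le_pow_left₀ hq0 ho 2
    linarith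
  | some i =>
    have h1 : 0 < κ * D := hκj
    have h2 : -((κ * D) * (κ * z.im)) / (D ^ 2 * ‖c₀ * z + e₀‖ ^ 2) < 0 := by
      apply div_neg_of_neg_of_pos _ hden
      have : 0 < (κ * D) * (κ * z.im) := mul_pos h1 (by linarith)
      linarith
    have hp' : p = K.c i := hpj
    have hr' : ρ = K.r i := hρj
    have h3 := hi i
    rw [← hp', ← hr'] at h3
    have h4 : ρ ^ 2 ≤ ‖(a₀ * z + b₀) / (c₀ * z + e₀) - p‖ ^ 2 := pow_le_pow_left₀ hρ.le h3 2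
    linarith

end RCP
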