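import Pool.Agent.RCP.St

/-!
# RCP, module TOP: a map which maps peripheral circles to peripheral circles is onto
-/

set_option autoImplicit false

namespace RCP

open Metric RCE

private theorem TOP_mem (K : Cp) (p : ℂ) (hp : p ∈ closedBall K.c₀ K.r₀) (hpT : p ∉ K.T) :
    ∃ n, p ∈ ball (K.c n) (K.r n) := by
  by_contra hcon
  push Not at hcon
  apply hpT
  refine ⟨hp, fun h => ?_⟩
  obtain ⟨n, hn⟩ := Set.mem_iUnion.1 h
  exact hcon n hn

theorem thm_TOP (hLGB : St_LGB) (hLGA : St_LGA) (hLGH : St_LGH) (hNLG : St_NLG) (hSRC : St_SRC)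
    (hEXT : St_EXT) (hTF : RCE.St_TF) : St_TOP := by
  intro K f τ hf hmap hinj hτ
  obtain ⟨-, hsph, hout, hT1, -⟩ := hTF K
  have hPT : ∀ j, PC K j ⊆ K.T := by
    intro j
    cases j with
    | none => exact hout
    | some i => exact hsph i
  have hrr : ∀ j, 0 < rr K j := by
    intro j
    cases j with
    | none => exact K.r₀pos
    | some i => exact K.rpos i
  have hdis : ∀ i j, i ≠ j → ∀ p ∈ PC K i, p ∉ PC K j := by
    have h0 : ∀ i, ∀ p ∈ PC K (some i), p ∉ PC K none := by
      intro i p hp hp'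
      have h1 : p ∈ ball K.c₀ K.r₀ := K.sub i (sphere_subset_closedBall hp)
      have h2 : dist p K.c₀ = K.r₀ := hp'
      have h3 : dist p K.c₀ < K.r₀ := h1
      linarith
    intro i j hij p hp hp'
    cases i with
    | none =>
      cases j with
      | none => exact hij rfl
      | some j => exact h0 j p hp' hp
    | some i =>
      cases j with
      | none => exact h0 i p hp hp'
      | some j =>
        have h1 : i ≠ j := fun h => hij (congrArg some h)
        exact Set.disjoint_left.1 (K.disj i j h1) (sphere_subset_closedBall hp) (sphere_subset_closedBall hp')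
  have hcont : ∀ j, ContinuousOn f (PC K j) := fun j => hf.mono (hPT j)
  have hinj' : ∀ j, Set.InjOn f (PC K j) := fun j => hinj.mono (hPT j)
  have hsurj : ∀ j, ∀ w ∈ PC K (τ j), ∃ x ∈ PC K j, f x = w := by
    intro j
    exact hSRC (cc K j) (cc K (τ j)) (rr K j) (rr K (τ j)) f (hrr j) (hrr _) (hcont j) (hinj' j) (hτ j)
  have hτi : Function.Injective τ := by
    intro i j hij
    by_contra hne
    obtain ⟨w, hw⟩ : (PC K (τ i)).Nonempty := NormedSpace.sphere_nonempty.2 (hrr _).le
    obtain ⟨x, hx, hxw⟩ := hsurj i w hw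
    obtain ⟨y, hy, hyw⟩ := hsurj j w (hij ▸ hw)
    have hxy : x = y := hinj (hPT i hx) (hPT j hy) (hxw.trans hyw.symm)
    exact hdis i j hne x hx (hxy ▸ hy)
  refine Set.Subset.antisymm hmap.image_subset ?_
  intro z hz
  by_contra hzf
  have hzne : ∀ p ∈ K.T, f p ≠ z := fun p hp h => hzf ⟨p, hp, h⟩
  have hzPC : ∀ j, z ∉ PC K (τ j) := by
    intro j hj
    obtain ⟨x, hx, hxz⟩ := hsurj j z hj
    exact hzne x (hPT j hx) hxz
  obtain ⟨hz0, hzi⟩ := hT1 z hz
  have hzball : ∀ i, z ∉ ball (K.c i) (K.r i) := by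
    intro i h
    rw [mem_ball, dist_eq_norm] at h
    exact absurd (hzi i) (not_le.2 h)
  have hzlt : z ∉ PC K none → ‖z - K.c₀‖ < K.r₀ := by
    intro h
    refine lt_of_le_of_ne hz0 fun h1 => h ?_
    show z ∈ sphere K.c₀ K.r₀
    rw [mem_sphere, dist_eq_norm]
    exact h1
  -- the induced map
  obtain ⟨τ', hτ'⟩ : ∃ τ' : ℕ → ℕ, ∀ n, τ (some n) ≠ none → τ (some n) = some (τ' n) := by
    refine ⟨fun n => (τ (some n)).getD 0, fun n hn => ?_⟩
    obtain ⟨k, hk⟩ := Option.ne_none_iff_exists'.1 hn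
    show τ (some n) = some ((τ (some n)).getD 0)
    rw [hk]
    rfl
  have hτ'i : ∀ I : Set ℕ, (∀ n ∈ I, τ (some n) ≠ none) → Set.InjOn τ' I := by
    intro I hI m hm n hn hmn
    have h1 := hτ' m (hI m hm)
    have h2 := hτ' n (hI n hn)
    rw [hmn, ← h2] at h1
    exact Option.some_injective _ (hτi h1)
  have hτ'm : ∀ I : Set ℕ, (∀ n ∈ I, τ (some n) ≠ none) → ∀ n ∈ I,
      Set.MapsTo f (sphere (K.c n) (K.r n)) (sphere (K.c (τ' n)) (K.r (τ' n))) := by
    intro I hI n hn
    have h1 := hτ (some n)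
    rw [hτ' n (hI n hn)] at h1
    exact h1
  by_cases hex : ∃ n, τ (some n) = none
  · -- some inner circle goes to the outer circle
    obtain ⟨n, hn⟩ := hex
    obtain ⟨m, hm⟩ : ∃ m, τ none = some m := by
      refine Option.ne_none_iff_exists'.1 fun h => ?_
      have := hτi (h.trans hn.symm)
      simp at this
    have hI : ∀ k ∈ ({n}ᶜ : Set ℕ), τ (some k) ≠ none := by
      intro k hk h
      exact hk (Option.some_injective _ (hτi (h.trans hn.symm)))
    obtain ⟨F, hF1, hF2, hF3⟩ := hEXT K f {n}ᶜ τ' hf (hτ'i _ hI) (hτ'm _ hI)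
    have hset : closedBall K.c₀ K.r₀ \ ⋃ k ∈ (({n}ᶜ : Set ℕ))ᶜ, ball (K.c k) (K.r k) =
        closedBall K.c₀ K.r₀ \ ball (K.c n) (K.r n) := by
      rw [compl_compl, Set.biUnion_singleton]
    rw [hset] at hF1
    have hFz : ∀ p ∈ closedBall K.c₀ K.r₀ \ ball (K.c n) (K.r n), F p - z ≠ 0 := by
      intro p hp
      rw [sub_ne_zero]
      by_cases hpT : p ∈ K.T
      · rw [hF2 p hpT]
        exact hzne p hpT
      · obtain ⟨k, hk⟩ := TOP_mem K p hp.1 hpT
        have hkn : k ∈ ({n}ᶜ : Set ℕ) := by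
          intro h
          rw [Set.mem_singleton_iff.1 h] at hk
          exact hp.2 hk
        intro h
        exact hzball _ (h ▸ hF3 k hkn p hk)
    obtain ⟨h₀, hh1, hh2⟩ := hLGH (K.c m) z (K.r m) (K.rpos m) (hzi m)
    have hfm : Set.MapsTo f (sphere K.c₀ K.r₀) (closedBall (K.c m) (K.r m) \ {z}) := by
      intro p hp
      have h1 := hτ none
      rw [hm] at h1
      exact ⟨sphere_subset_closedBall (h1 hp), hzne p (hout hp)⟩
    obtain ⟨h₁, hk1, hk2⟩ := hLGA K.c₀ (K.c n) K.r₀ (K.r n) (fun p => F p - z) (K.rpos n) (K.sub n)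
      (hF1.sub continuousOn_const) hFz ⟨h₀ ∘ f, hh1.comp (hcont none) hfm, fun p hp => by
        show Complex.exp (h₀ (f p)) = F p - z
        rw [hh2 _ (hfm hp), hF2 p (hout hp)]⟩
    refine hNLG (K.c n) K.c₀ z (K.r n) K.r₀ f (K.rpos n) (hcont (some n)) (hinj' (some n)) ?_ ?_
      ⟨h₁, hk1, fun p hp => ?_⟩
    · have h1 := hτ (some n)
      rw [hn] at h1
      exact h1
    · apply hzlt
      have h1 := hzPC (some n)
      rwa [hn] at h1
    · rw [hk2 p hp]
      show F p - z = f p - z
      rw [hF2 p (hsph n hp)]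
  · push Not at hex
    have hI : ∀ k ∈ (Set.univ : Set ℕ), τ (some k) ≠ none := fun k _ => hex k
    obtain ⟨F, hF1, hF2, hF3⟩ := hEXT K f Set.univ τ' hf (hτ'i _ hI) (hτ'm _ hI)
    have hset : closedBall K.c₀ K.r₀ \ ⋃ k ∈ ((Set.univ : Set ℕ))ᶜ, ball (K.c k) (K.r k) =
        closedBall K.c₀ K.r₀ := by
      rw [Set.compl_univ, Set.biUnion_empty, Set.sdiff_empty]
    rw [hset] at hF1
    cases hm : τ none with
    | none =>
      have hFz : ∀ p ∈ closedBall K.c₀ K.r₀, F p - z ≠ 0 := by
        intro p hp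
        rw [sub_ne_zero]
        by_cases hpT : p ∈ K.T
        · rw [hF2 p hpT]
          exact hzne p hpT
        · obtain ⟨k, hk⟩ := TOP_mem K p hp hpT
          intro h
          exact hzball _ (h ▸ hF3 k (Set.mem_univ k) p hk)
      obtain ⟨h₁, hk1, hk2⟩ := hLGB K.c₀ K.r₀ (fun p => F p - z) K.r₀pos (hF1.sub continuousOn_const) hFz
      refine hNLG K.c₀ K.c₀ z K.r₀ K.r₀ f K.r₀pos (hcont none) (hinj' none) ?_ ?_
        ⟨h₁, hk1.mono sphere_subset_closedBall, fun p hp => ?_⟩
      · have h1 := hτ none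
        rw [hm] at h1
        exact h1
      · apply hzlt
        have h1 := hzPC none
        rwa [hm] at h1
      · rw [hk2 p (sphere_subset_closedBall hp)]
        show F p - z = f p - z
        rw [hF2 p (hout hp)]
    | some m =>
      have hcm : K.c m ∉ K.T := by
        intro h
        have h1 := (hT1 _ h).2 m
        rw [sub_self, norm_zero] at h1
        exact absurd h1 (not_le.2 (K.rpos m))
      have hFz : ∀ p ∈ closedBall K.c₀ K.r₀, F p - K.c m ≠ 0 := by
        intro p hp
        rw [sub_ne_zero]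
        by_cases hpT : p ∈ K.T
        · rw [hF2 p hpT]
          intro h
          exact hcm (h ▸ hmap hpT)
        · obtain ⟨k, hk⟩ := TOP_mem K p hp hpT
          intro h
          have h1 : K.c m ∈ ball (K.c (τ' k)) (K.r (τ' k)) := h ▸ hF3 k (Set.mem_univ k) p hk
          have h2 : τ' k ≠ m := by
            intro h3
            have h4 := hτ' k (hex k)
            rw [h3, ← hm] at h4
            have h5 := hτi h4
            simp at h5
          exact Set.disjoint_left.1 (K.disj _ _ h2) (ball_subset_closedBall h1)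
            (mem_closedBall_self (K.rpos m).le)
      obtain ⟨h₁, hk1, hk2⟩ := hLGB K.c₀ K.r₀ (fun p => F p - K.c m) K.r₀pos (hF1.sub continuousOn_const) hFz
      refine hNLG K.c₀ (K.c m) (K.c m) K.r₀ (K.r m) f K.r₀pos (hcont none) (hinj' none) ?_ ?_
        ⟨h₁, hk1.mono sphere_subset_closedBall, fun p hp => ?_⟩
      · have h1 := hτ none
        rw [hm] at h1
        exact h1
      · rw [sub_self, norm_zero]
        exact K.rpos m
      · rw [hk2 p (sphere_subset_closedBall hp)]
        show F p - K.c m = f p - K.c m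
        rw [hF2 p (hout hp)]

end RCP
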