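import Pool.Agent.RCE.All
import Pool.Agent.RCP.BIG
import Pool.Agent.RCP.CHN
import Pool.Agent.RCP.CIR
import Pool.Agent.RCP.CNV
import Pool.Agent.RCP.DEN
import Pool.Agent.RCP.ELC
import Pool.Agent.RCP.ELT
import Pool.Agent.RCP.EXT
import Pool.Agent.RCP.FIN
import Pool.Agent.RCP.GDF
import Pool.Agent.RCP.GGF
import Pool.Agent.RCP.GQM
import Pool.Agent.RCP.GQS
import Pool.Agent.RCP.HLE
import Pool.Agent.RCP.HOP
import Pool.Agent.RCP.HPA
import Pool.Agent.RCP.HPB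
import Pool.Agent.RCP.KAP
import Pool.Agent.RCP.LGA
import Pool.Agent.RCP.LGB
import Pool.Agent.RCP.LGC
import Pool.Agent.RCP.LGH
import Pool.Agent.RCP.LIN
import Pool.Agent.RCP.MB
import Pool.Agent.RCP.NIR
import Pool.Agent.RCP.NLG
import Pool.Agent.RCP.PA
import Pool.Agent.RCP.PB
import Pool.Agent.RCP.PRF
import Pool.Agent.RCP.RSP
import Pool.Agent.RCP.SQZ
import Pool.Agent.RCP.SRC
import Pool.Agent.RCP.TLQ
import Pool.Agent.RCP.TOP
import Pool.Agent.RCP.TWB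

/-!
# RCP: assembly of the modules
-/

set_option autoImplicit false

namespace RCP

theorem all_TWB : St_TWB := thm_TWB thm_SQZ RCE.all_HOL
theorem all_PRF : St_PRF := thm_PRF all_TWB RCE.thm_CC RCE.thm_TF
theorem all_RSP : St_RSP := thm_RSP all_TWB RCE.thm_TF
theorem all_DEN : St_DEN := thm_DEN RCE.all_KEY RCE.thm_TF
theorem all_HLE : St_HLE := thm_HLE all_DEN RCE.all_VV RCE.thm_SV
theorem all_PA : St_PA := thm_PA all_HLE all_PRF (RCE.thm_WIN RCE.all_SPH) RCE.thm_TF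
theorem all_MB : St_MB := thm_MB RCE.all_FA RCE.all_SPH RCE.thm_TF
theorem all_TLQ : St_TLQ := thm_TLQ all_MB thm_CIR RCE.thm_TF
theorem all_PB : St_PB := thm_PB all_TLQ thm_LIN all_PRF
theorem all_HOP : St_HOP := thm_HOP all_RSP thm_KAP thm_CHN thm_HPA thm_HPB
theorem all_LGB : St_LGB := thm_LGB thm_LGC
theorem all_LGA : St_LGA := thm_LGA thm_LGC
theorem all_NLG : St_NLG := thm_NLG thm_NIR
theorem all_SRC : St_SRC := thm_SRC thm_NIR
theorem all_BIG : St_BIG := thm_BIG RCE.thm_PK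
theorem all_EXT : St_EXT := thm_EXT all_BIG RCE.thm_TF
theorem all_TOP : St_TOP := thm_TOP all_LGB all_LGA thm_LGH all_NLG all_SRC all_EXT RCE.thm_TF
theorem all_CON : St_CON := thm_CON thm_GDF (thm_GGF RCE.thm_STB) (thm_GQS RCE.thm_STB) thm_GQM
theorem all_ELT : St_ELT := thm_ELT RCE.thm_CC RCE.thm_TF
theorem main : Main := thm_FIN all_PA all_PB all_CON all_ELT thm_ELC all_HOP all_TOP RCE.thm_TF

end RCP
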