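import Pool.Agent.RCE.St
import Mathlib.MeasureTheory.Measure.Hausdorff

/-!
# RCP: embeddings of round group carpets which are regular on the peripheral circles (MP_d2bd1a_an). Definitions (helper80)

Continues `Pool.Agent.RCE`. `T = K.T`. The peripheral circles are `PC K j`, `j : Option ℕ` (`none` is the outer circle).
-/

set_option autoImplicit false

namespace RCP

open Metric RCE

/-- centre of the peripheral circle `j` -/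
def cc (K : Cp) : Option ℕ → ℂ
  | none => K.c₀
  | some i => K.c i

/-- radius of the peripheral circle `j` -/
def rr (K : Cp) : Option ℕ → ℝ
  | none => K.r₀
  | some i => K.r i

/-- the peripheral circle `j` -/
def PC (K : Cp) (j : Option ℕ) : Set ℂ := sphere (cc K j) (rr K j)

/-- the open ball with centre `w` and radius `ρ` does not meet the carpet -/
def Free (K : Cp) (w : ℂ) (ρ : ℝ) : Prop := ∀ p ∈ K.T, ρ ≤ ‖p - w‖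

/-- at all small scales `d` there is a free ball of radius about `d` (up to the factor `Λ`) which almost touches `y` -/
def FB (K : Cp) (y : ℂ) (ε Λ : ℝ) : Prop := ∃ d₀ : ℝ, 0 < d₀ ∧ ∀ d : ℝ, 0 < d → d < d₀ →
  ∃ (w : ℂ) (ρ : ℝ), d ≤ ρ ∧ ρ ≤ Λ * d ∧ Free K w ρ ∧ ‖w - y‖ ≤ (1 + ε) * ρ

/-- all circles in the carpet are peripheral -/
def NPC (K : Cp) : Prop := ∀ (p : ℂ) (ρ : ℝ), 0 < ρ → sphere p ρ ⊆ K.T → ∃ j, p = cc K j ∧ ρ = rr K j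

/-- at all small scales `d` the carpet contains up to `ε d` a segment with midpoint `y` and length `2 d` -/
def NLN (K : Cp) (y : ℂ) (ε : ℝ) : Prop := ∃ d₀ : ℝ, 0 < d₀ ∧ ∀ d : ℝ, 0 < d → d < d₀ →
  ∃ u : ℂ, ‖u‖ = 1 ∧ ∀ t : ℝ, |t| ≤ 1 → ∃ p ∈ K.T, ‖p - (y + t * d * u)‖ ≤ ε * d

/-- `f` is almost affine along `S` at `x` -/
def AAffS (S : Set ℂ) (θ : ℝ → ℝ) (f : ℂ → ℂ) (x : ℂ) : Prop := ∃ M : ℝ, 1 ≤ M ∧ ∃ R₀ : ℝ, 0 < R₀ ∧ ∀ R : ℝ, 0 < R → R < R₀ →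
  ∃ (A : ℂ →ₗ[ℝ] ℂ) (l : ℝ), Dist A l M ∧ Near S f x R A (θ M * l * R)

/-- the set `S` meets all small ellipses around `x` -/
def Ell (S : Set ℂ) (x : ℂ) (r : ℝ) : Prop := ∀ (A : ℂ →ₗ[ℝ] ℂ) (l M σ : ℝ), Dist A l M → 0 < σ → σ ≤ l * r → ∃ p ∈ S, ‖A (p - x)‖ = σ

/-- objects of chains: points and peripheral circles -/
def rad (K : Cp) : ℂ ⊕ Option ℕ → ℝ
  | Sum.inl _ => 0
  | Sum.inr j => rr K j

/-- the object as a set -/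
def os (K : Cp) : ℂ ⊕ Option ℕ → Set ℂ
  | Sum.inl p => {p}
  | Sum.inr j => PC K j

/-- condition (a) -/
def Reg (S : Set ℂ) (f : ℂ → ℂ) (x : ℂ) : Prop := ∃ A : ℂ →L[ℝ] ℂ, Function.Injective A ∧ HasFDerivWithinAt f A S x

/-- condition (b) -/
def GAf (S : Set ℂ) (θ : ℝ → ℝ) (f : ℂ → ℂ) (x : ℂ) : Prop := ∃ M : ℝ, 1 ≤ M ∧ ∃ R₀ : ℝ, 0 < R₀ ∧ ∀ R : ℝ, 0 < R → R < R₀ →
  ∃ (A : ℂ →ₗ[ℝ] ℂ) (l : ℝ), Dist A l M ∧ ∀ p ∈ S, ∀ q ∈ S, ‖p - x‖ < R → ‖q - x‖ < R → |‖f p - f q‖ - ‖A (p - q)‖| ≤ θ M * l * R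

/-- condition (c) -/
def QSm (S : Set ℂ) (ε : ℝ) (f : ℂ → ℂ) (x : ℂ) : Prop := ∃ R : ℝ, 0 < R ∧ Set.InjOn f (S ∩ ball x R) ∧ AlmSim S f x R ε

/-- condition (d) -/
def QMb (S : Set ℂ) (ε : ℝ) (f : ℂ → ℂ) (x : ℂ) : Prop := ∃ R : ℝ, 0 < R ∧ Set.InjOn f (S ∩ ball x R) ∧
  ∀ a ∈ S ∩ ball x R, ∀ b ∈ S ∩ ball x R, ∀ c ∈ S ∩ ball x R, ∀ d ∈ S ∩ ball x R, a ≠ c → b ≠ d → cr a b c d ≤ 2 →
    |cr (f a) (f b) (f c) (f d) - cr a b c d| ≤ ε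

/-- one of the conditions (a), (b), (c), (d) along `S` at `x` -/
def Good (S : Set ℂ) (θ : ℝ → ℝ) (ε : ℝ) (f : ℂ → ℂ) (x : ℂ) : Prop := Reg S f x ∨ GAf S θ f x ∨ QSm S ε f x ∨ QMb S ε f x

end RCP
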