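import Pool.Agent.RCP.All

/-!
# RCP, module FN2: the main theorem with flat images

`NLP`: if all circles in the carpet are peripheral, a point at which the carpet contains, up to `ε d`, segments at all small scales is on
a peripheral circle.  `main2`: as `main`, with this condition on the image point as a further alternative.
-/

set_option autoImplicit false

namespace RCP

open Metric RCE

theorem NLP (hTLQ : St_TLQ) (hPRF : St_PRF) (K : Cp) (Γ : Subgroup (Equiv.Perm K.T)) (hΓ : Grp K Γ) (hN : NPC K) :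
    ∃ ε : ℝ, 0 < ε ∧ ∀ y ∈ K.T, NLN K y ε → ∃ j, y ∈ PC K j := by
  obtain ⟨ε₃, hε₃, _, hprf⟩ := hPRF K Γ hΓ 1 (le_refl 1)
  obtain ⟨c₁, hc₁, _, htlq⟩ := hTLQ K Γ hΓ hN ε₃ hε₃
  refine ⟨c₁ ^ 2, by positivity, ?_⟩
  intro y hy hnln
  have hr₀ := K.r₀pos
  obtain ⟨d₀, hd₀, hnln⟩ := hnln
  apply hprf y hy
  refine ⟨c₁ * min d₀ K.r₀, mul_pos hc₁ (lt_min hd₀ hr₀), ?_⟩
  intro d' hd' hd'lt
  have hd1 : d' / c₁ < min d₀ K.r₀ := by
    rw [div_lt_iff₀ hc₁]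
    linarith
  have hd2 : 0 < d' / c₁ := div_pos hd' hc₁
  obtain ⟨u, hu, hseg⟩ := hnln (d' / c₁) hd2 (hd1.trans_le (min_le_left _ _))
  obtain ⟨w, hw, hwy⟩ := htlq y u (d' / c₁) hy hd2 (hd1.le.trans (min_le_right _ _)) hu hseg
  have he : c₁ * (d' / c₁) = d' := by
    field_simp
  rw [he] at hw hwy
  exact ⟨w, d', le_refl _, by rw [one_mul], hw, hwy⟩

theorem NLN_mono {K : Cp} {y : ℂ} {ε ε' : ℝ} (h : ε ≤ ε') (h1 : NLN K y ε) : NLN K y ε' := by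
  obtain ⟨d₀, hd₀, h2⟩ := h1
  refine ⟨d₀, hd₀, ?_⟩
  intro d hd hd1
  obtain ⟨u, hu, h3⟩ := h2 d hd hd1
  refine ⟨u, hu, ?_⟩
  intro t ht
  obtain ⟨p, hp, h4⟩ := h3 t ht
  exact ⟨p, hp, h4.trans (mul_le_mul_of_nonneg_right h hd.le)⟩

theorem Good_mono {S : Set ℂ} {θ : ℝ → ℝ} {ε ε' : ℝ} {f : ℂ → ℂ} {x : ℂ} (h : ε ≤ ε') (h1 : Good S θ ε f x) : Good S θ ε' f x := by
  rcases h1 with h1 | h1 | ⟨R, hR, hi, h1⟩ | ⟨R, hR, hi, h1⟩
  · exact Or.inl h1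
  · exact Or.inr (Or.inl h1)
  · refine Or.inr (Or.inr (Or.inl ⟨R, hR, hi, ?_⟩))
    intro a ha b hb c hc h2 h3 h4 h5
    exact (h1 a ha b hb c hc h2 h3 h4 h5).trans (mul_le_mul_of_nonneg_right h (by positivity))
  · refine Or.inr (Or.inr (Or.inr ⟨R, hR, hi, ?_⟩))
    intro a ha b hb c hc d hd h2 h3 h4
    exact (h1 a ha b hb c hc d hd h2 h3 h4).trans h

private theorem FN2_mono {S : Set ℂ} {θ θ' : ℝ → ℝ} {f : ℂ → ℂ} {x : ℂ} (h : ∀ M, θ M ≤ θ' M) (h1 : AAffS S θ f x) :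
    AAffS S θ' f x := by
  obtain ⟨M, hM, R₀, hR₀, h2⟩ := h1
  refine ⟨M, hM, R₀, hR₀, ?_⟩
  intro R hR hR1
  obtain ⟨A, l, hA, hN⟩ := h2 R hR hR1
  refine ⟨A, l, hA, ?_⟩
  intro p hp hpx
  refine (hN p hp hpx).trans ?_
  have := h M
  have h3 := hA.1
  gcongr

private theorem FN2_sub (K : Cp) (j : Option ℕ) : PC K j ⊆ K.T := by
  cases j with
  | none => exact (RCE.thm_TF K).2.2.1
  | some i => exact (RCE.thm_TF K).2.1 i

private theorem FN2_rr (K : Cp) (j : Option ℕ) : 0 < rr K j := by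
  cases j with
  | none => exact K.r₀pos
  | some i => exact K.rpos i

private theorem FN2_nontriv (K : Cp) (j : Option ℕ) : (PC K j).Nontrivial := by
  have hr := FN2_rr K j
  refine ⟨cc K j + (rr K j : ℂ), ?_, cc K j - (rr K j : ℂ), ?_, ?_⟩
  · simp [PC, abs_of_pos hr]
  · simp [PC, abs_of_pos hr]
  · intro h
    have h1 : (rr K j : ℂ) = 0 := by
      linear_combination h / 2
    have h2 : rr K j = 0 := by
      exact_mod_cast h1
    exact hr.ne' h2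

private theorem FN2_conn (K : Cp) (j : Option ℕ) : IsPreconnected (PC K j) :=
  isPreconnected_sphere (by rw [Complex.rank_real_complex]; exact Nat.one_lt_ofNat) _ _

/-- Compact connected sets in the carpet and self embeddings. -/
theorem main2 (K : Cp) (Γ : Subgroup (Equiv.Perm K.T)) (hΓ : Grp K Γ) :
    ∃ (κ ε : ℝ) (θ : ℝ → ℝ), 0 < κ ∧ 0 < ε ∧ (∀ M, 0 < θ M) ∧
      (NPC K → ∀ J : Set ℂ, J ⊆ K.T → IsCompact J → IsPreconnected J → J.Nontrivial →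
        MeasureTheory.Measure.hausdorffMeasure κ {y ∈ J | ¬ NLN K y ε} = 0 → ∃ j, J ⊆ PC K j) ∧
      ∀ f : ℂ → ℂ, ContinuousOn f K.T → Set.MapsTo f K.T K.T → Set.InjOn f K.T →
        MeasureTheory.Measure.hausdorffMeasure κ (f '' {x | ∃ j, x ∈ PC K j ∧ ¬ Good K.T θ ε f x ∧
          ¬ (NPC K ∧ (Good (PC K j) θ ε f x ∨ NLN K (f x) ε))}) = 0 → f '' K.T = K.T := by
  obtain ⟨κ, hκ, _, hhop⟩ := all_HOP K Γ hΓ
  obtain ⟨θ₁, hθ₁, hpa⟩ := all_PA K Γ hΓ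
  have hex : ∃ (ε₂ : ℝ) (θ₂ : ℝ → ℝ), 0 < ε₂ ∧ (∀ M, 0 < θ₂ M) ∧ (NPC K →
      (∀ (f : ℂ → ℂ) (j : Option ℕ) (x : ℂ), x ∈ PC K j → Set.MapsTo f (PC K j) K.T → AAffS (PC K j) θ₂ f x → ∃ j', f x ∈ PC K j') ∧
      ∀ y ∈ K.T, NLN K y ε₂ → ∃ j, y ∈ PC K j) := by
    by_cases hN : NPC K
    · obtain ⟨θ₂, h2, h3⟩ := all_PB K Γ hΓ hN
      obtain ⟨ε₂, h4, h5⟩ := NLP all_TLQ all_PRF K Γ hΓ hN
      exact ⟨ε₂, θ₂, h4, h2, fun _ => ⟨h3, h5⟩⟩
    · exact ⟨1, fun _ => 1, one_pos, fun _ => one_pos, fun h => absurd h hN⟩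
  obtain ⟨ε₂, θ₂, hε₂, hθ₂, hpb⟩ := hex
  obtain ⟨θ, ε, hθ, hε, hcon⟩ := all_CON (fun M => min (θ₁ M) (θ₂ M)) (fun M => lt_min (hθ₁ M) (hθ₂ M))
  refine ⟨κ, min ε ε₂, θ, hκ, lt_min hε hε₂, hθ, ?_, ?_⟩
  · intro hN J hJ hJc hJp hJn hJz
    apply hhop J hJ hJc hJp hJn
    refine MeasureTheory.measure_mono_null ?_ hJz
    rintro y ⟨hy, hn⟩
    refine ⟨hy, fun h => hn ?_⟩
    exact Set.mem_iUnion.2 ((hpb hN).2 y (hJ hy) (NLN_mono (min_le_right _ _) h))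
  intro f hf hm hinj hnull
  have hsub : ∀ j, PC K j ⊆ K.T := FN2_sub K
  have hτ : ∀ j : Option ℕ, ∃ j' : Option ℕ, Set.MapsTo f (PC K j) (PC K j') := by
    intro j
    have hfj : ContinuousOn f (PC K j) := hf.mono (hsub j)
    have hJT : f '' (PC K j) ⊆ K.T := by
      rintro _ ⟨x, hx, rfl⟩
      exact hm (hsub j hx)
    have hJc : IsCompact (f '' (PC K j)) := (isCompact_sphere _ _).image_of_continuousOn hfj
    have hJp : IsPreconnected (f '' (PC K j)) := (FN2_conn K j).image f hfj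
    have hJn : (f '' (PC K j)).Nontrivial := (FN2_nontriv K j).image_of_injOn (hinj.mono (hsub j))
    have hJz : MeasureTheory.Measure.hausdorffMeasure κ (f '' (PC K j) \ ⋃ i, PC K i) = 0 := by
      refine MeasureTheory.measure_mono_null ?_ hnull
      rintro _ ⟨⟨x, hx, rfl⟩, hn⟩
      have hn' : ¬ ∃ i, f x ∈ PC K i := by
        intro h
        exact hn (Set.mem_iUnion.2 h)
      refine ⟨x, ⟨j, hx, ?_, ?_⟩, rfl⟩
      · intro hg
        apply hn'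
        apply hpa f j x hf hm hx
        exact FN2_mono (fun M => min_le_left _ _) (hcon K.T f x K.r₀ (hsub j hx) K.r₀pos (all_ELT K x (hsub j hx)) hf
          (Good_mono (min_le_left _ _) hg))
      · rintro ⟨hN, hg | hg⟩
        · apply hn'
          apply (hpb hN).1 f j x hx (fun p hp => hm (hsub j hp))
          exact FN2_mono (fun M => min_le_right _ _) (hcon (PC K j) f x (rr K j) hx (FN2_rr K j) (thm_ELC K j x hx) hfj
            (Good_mono (min_le_left _ _) hg))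
        · exact hn' ((hpb hN).2 (f x) (hm (hsub j hx)) (NLN_mono (min_le_right _ _) hg))
    obtain ⟨j', hj'⟩ := hhop _ hJT hJc hJp hJn hJz
    exact ⟨j', fun p hp => hj' ⟨p, hp, rfl⟩⟩
  choose τ hτ using hτ
  exact all_TOP K f τ hf hm hinj hτ

end RCP
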