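import Pool.Agent.RCP.St

/-!
# RCP.HPB: injective chains of open sets in a connected set (MP_d2bd1a_an)
-/

set_option autoImplicit false

namespace RCP

open Metric RCE

theorem thm_HPB : St_HPB := by
  intro ι F W J hJ hW hcov a ha b hb hJa hJb
  classical
  let H : SimpleGraph ι :=
    { Adj := fun i j => i ≠ j ∧ i ∈ F ∧ j ∈ F ∧ (W i ∩ W j).Nonempty
      symm := ⟨fun i j h => ⟨h.1.symm, h.2.2.1, h.2.1, by rw [Set.inter_comm]; exact h.2.2.2⟩⟩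
      loopless := ⟨fun i h => h.1 rfl⟩ }
  have hr : H.Reachable a b := by
    by_contra hnb
    let U1 : Set ℂ := ⋃ i ∈ F, ⋃ (_ : H.Reachable a i), W i
    let U2 : Set ℂ := ⋃ i ∈ F, ⋃ (_ : ¬ H.Reachable a i), W i
    have o1 : IsOpen U1 := isOpen_biUnion fun i hi => isOpen_iUnion fun _ => hW i hi
    have o2 : IsOpen U2 := isOpen_biUnion fun i hi => isOpen_iUnion fun _ => hW i hi
    have hc : J ⊆ U1 ∪ U2 := by
      intro x hx
      obtain ⟨i, hi, hxi⟩ := Set.mem_iUnion₂.1 (hcov hx)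
      by_cases h : H.Reachable a i
      · exact Or.inl (Set.mem_iUnion₂.2 ⟨i, hi, Set.mem_iUnion.2 ⟨h, hxi⟩⟩)
      · exact Or.inr (Set.mem_iUnion₂.2 ⟨i, hi, Set.mem_iUnion.2 ⟨h, hxi⟩⟩)
    have n1 : (J ∩ U1).Nonempty := by
      obtain ⟨x, hx, hxa⟩ := hJa
      exact ⟨x, hx, Set.mem_iUnion₂.2 ⟨a, ha, Set.mem_iUnion.2 ⟨SimpleGraph.Reachable.refl a, hxa⟩⟩⟩
    have n2 : (J ∩ U2).Nonempty := by
      obtain ⟨x, hx, hxb⟩ := hJb
      exact ⟨x, hx, Set.mem_iUnion₂.2 ⟨b, hb, Set.mem_iUnion.2 ⟨hnb, hxb⟩⟩⟩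
    obtain ⟨x, _, hx1, hx2⟩ := hJ U1 U2 o1 o2 hc n1 n2
    obtain ⟨i, hi, h1⟩ := Set.mem_iUnion₂.1 hx1
    obtain ⟨hri, hxi⟩ := Set.mem_iUnion.1 h1
    obtain ⟨j, hj, h2⟩ := Set.mem_iUnion₂.1 hx2
    obtain ⟨hrj, hxj⟩ := Set.mem_iUnion.1 h2
    apply hrj
    have hij : i ≠ j := by
      rintro rfl
      exact hrj hri
    have hadj : H.Adj i j := ⟨hij, hi, hj, ⟨x, hxi, hxj⟩⟩
    exact hri.trans hadj.reachable
  obtain ⟨p, hp⟩ := hr.exists_isPath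
  refine ⟨p.length, p.getVert, p.getVert_zero, p.getVert_length, ?_, ?_, ?_⟩
  · intro k hk
    rcases Nat.eq_zero_or_pos k with rfl | hk0
    · rw [p.getVert_zero]
      exact ha
    · obtain ⟨m, rfl⟩ : ∃ m, k = m + 1 := ⟨k - 1, by omega⟩
      exact (p.adj_getVert_succ (show m < p.length by omega)).2.2.1
  · intro k hk
    exact (p.adj_getVert_succ hk).2.2.2
  · exact hp.getVert_injOn

end RCP
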