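import Pool.Agent.RCP.Defs

/-!
# RCP: statements of the modules

Every `St_X` is the statement of the module `X`; its proof is in the docstring, with the modules it uses after the word `from`
(names as `RCE.St_HOL` are statements of `Pool.Agent.RCE.St`, all proved in `Pool.Agent.RCE`).
A module proves `theorem thm_X (h1 : St_A) (h2 : RCE.St_B) ... : St_X` (drop unused hypotheses).

Conventions: `T = K.T`, `r₀ = K.r₀`, `y = f x`; `PC j` is the peripheral circle `j` (`none` is the outer circle); the component `j` of the complement of `T`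
is `ball (K.c i) (K.r i)` for `j = some i` and `{p | r₀ < |p - c₀|}` for `j = none`.

Theorem (`Main`): an embedding `f : T → T` which is at all points of the peripheral circles, up to a set with image of measure `0` of a positive
dimension `κ`, close to affine or Moebius at small scales along `T` (or along the peripheral circle if all circles in `T` are peripheral) is onto.
-/

set_option autoImplicit false

namespace RCP

open Metric RCE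

/-! ## Two free balls -/

/-- [SQZ] (inequality) PROOF. `η = c / 2`, `ε = c² / (48 Λ)`. Let `a = w - y`, `b = w' - y`, `⟨x, x'⟩ = re (x conj x')`. For `z₁ = p + τ a / |a|`: `ρ² ≤ |z₁ - w|² = |z₁ - y|² - 2 ⟨z₁ - y, a⟩ + |a|²` and
`|z₁ - y| ≤ s`, so `2 ⟨p - y, a⟩ + 2 τ |a| ≤ s² + 3 ε ρ²`; divide by `ρ ≤ |a|`: `2 τ ≤ s² / ρ + 3 ε ρ - 2 ⟨p - y, a / ρ⟩`. The same for `z₂ = p + τ b / |b|`. Add, with `|p - y| ≤ s`, `s / ρ ≤ η`,
`ρ + ρ' ≤ 2 Λ s / η`: `4 c s ≤ 4 τ ≤ s (2 η + 6 ε Λ / η + 2 |a / ρ + b / ρ'|)`. And `|a/ρ + b/ρ'|² = |a|²/ρ² + |b|²/ρ'² + (|a|² + |b|² - |a - b|²) / (ρ ρ') ≤ 2 (1+ε)² + (3 ε (ρ² + ρ'²) - 2 ρ ρ') / (ρ ρ') ≤ 6 ε + 6 ε Λ ≤ 12 ε Λ = c² / 4`.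
So `4 c ≤ c + c / 4 + c`, a contradiction. -/
def St_SQZ : Prop := ∀ c Λ : ℝ, 0 < c → c ≤ 1 → 1 ≤ Λ → ∃ ε η : ℝ, 0 < ε ∧ ε ≤ 1 ∧ 0 < η ∧ η ≤ 1 ∧ ∀ (y w w' p : ℂ) (ρ ρ' s τ : ℝ), 0 < ρ → 0 < ρ' →
  ρ ≤ Λ * ρ' → ρ' ≤ Λ * ρ → ρ ≤ ‖w - y‖ → ρ' ≤ ‖w' - y‖ → ‖w - y‖ ≤ (1 + ε) * ρ → ‖w' - y‖ ≤ (1 + ε) * ρ' → ρ + ρ' ≤ ‖w - w'‖ →
  s = η * min ρ ρ' → c * s ≤ τ → ‖p - y‖ + τ ≤ s → (∀ z, ‖z - p‖ = τ → ρ ≤ ‖z - w‖ ∧ ρ' ≤ ‖z - w'‖) → False

/-- [TWB] (two free balls which almost touch the same point meet) from SQZ, RCE.St_HOL. PROOF. `c` of HOL, SQZ for `c`, `Λ`. If `ρ + ρ' ≤ |w - w'|`, take HOL at `(y, s)`, `s = η min ρ ρ' ≤ r₀`: a circle `sphere p τ ⊆ T` with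
`c s ≤ τ` and `closedBall p τ ⊆ ball y s`, so `|p - y| + τ ≤ s` (the point of the circle farthest from `y`). `Free` gives the hypotheses of SQZ (for `y ∈ T` and for the points of the circle). -/
def St_TWB : Prop := ∀ (K : Cp) (Γ : Subgroup (Equiv.Perm K.T)), Grp K Γ → ∀ Λ : ℝ, 1 ≤ Λ → ∃ ε : ℝ, 0 < ε ∧ ε ≤ 1 ∧
  ∀ (y w w' : ℂ) (ρ ρ' : ℝ), y ∈ K.T → 0 < ρ → 0 < ρ' → ρ ≤ Λ * ρ' → ρ' ≤ Λ * ρ → min ρ ρ' ≤ K.r₀ → Free K w ρ → Free K w' ρ' →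
  ‖w - y‖ ≤ (1 + ε) * ρ → ‖w' - y‖ ≤ (1 + ε) * ρ' → ‖w - w'‖ < ρ + ρ'

/-- [PRF] from TWB, RCE.St_CC, RCE.St_TF. PROOF. `ε` of TWB for `2 Λ`. `d_k = d₁ / 2^k`, `d₁ = min (d₀ / 2) (r₀ / Λ)`, `ball w_k ρ_k` the free balls of `FB`. By TWB two consecutive ones meet, and by CC each of them (connected, disjoint from `T`) is in one
component of the complement of `T`: all are in the same component (different components are disjoint). The distance of `y` from `ball w_k ρ_k` is at most `ε ρ_k`, which tends to `0`. So `y ∈ T` is in the closure of the component: `y ∈ PC j`. -/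
def St_PRF : Prop := ∀ (K : Cp) (Γ : Subgroup (Equiv.Perm K.T)), Grp K Γ → ∀ Λ : ℝ, 1 ≤ Λ → ∃ ε : ℝ, 0 < ε ∧ ε ≤ 1 ∧
  ∀ y ∈ K.T, FB K y ε Λ → ∃ j, y ∈ PC K j

/-- [RSP] (relative separation of the peripheral circles) from TWB, RCE.St_TF. PROOF. `c` = `ε` of TWB for `Λ = 1`. Let `r = min (rr i) (rr j)` and `|p - q| < c r`. For `p ∈ PC j`, `0 < r ≤ rr j` there is a ball `ball w r` in the component `j` with `|w - p| = r`: `w = p + (r / K.r i) (K.c i - p)` for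
`j = some i`, `w = p + (r / r₀) (p - c₀)` for `j = none`. So there are `w` for `p, i` and `w'` for `q, j`, both free, `|w' - p| ≤ r + |p - q| ≤ (1 + c) r`. TWB with `y = p`: `|w - w'| < 2 r`, so `(w + w') / 2` is in both components, but they are disjoint. -/
def St_RSP : Prop := ∀ (K : Cp) (Γ : Subgroup (Equiv.Perm K.T)), Grp K Γ → ∃ c : ℝ, 0 < c ∧ c ≤ 1 ∧
  ∀ i j : Option ℕ, i ≠ j → ∀ p ∈ PC K i, ∀ q ∈ PC K j, c * min (rr K i) (rr K j) ≤ ‖p - q‖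

/-! ## Points of the peripheral circles where the map is close to affine along the carpet -/

/-- [DEN] (the image is dense at the same scale) from RCE.St_KEY, RCE.St_TF. PROOF. `ε`, `θ_K` of KEY for `M`; `c = min (ε / 4) (1 / 32)`, `θ = min (1 / 32) (θ_K ε' / (2 ε))`. Let `G = f '' (T ∩ closedBall x (R / 2))` (compact, not empty), `e = f p` the nearest point of `G` to `z`, `δ = |z - e| ≤ |z - y| < c l R`.
Suppose `δ > ε' l R`. `|f p - y| ≤ δ + |z - y| < l R / 16` and `|f p - y| ≥ l |p - x| - l R / 32`, so `|p - x| < R / 8`. Let `R' = δ / (ε l) < R / 4`. KEY at the centre `p` with `R'` and the same `A`, `l`: for `q ∈ T`, `|q - p| < R'`: `|q - x| < R / 2` and `|f q - f p - A (q - p)| ≤ 2 θ l R ≤ θ_K l R'`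
(`R' ≥ ε' R / ε`), `|f q - z| ≥ δ ≥ |z - f p| / 2`, and `ε l R' = δ = |z - f p|`. A contradiction. -/
def St_DEN : Prop := ∀ (K : Cp) (Γ : Subgroup (Equiv.Perm K.T)), Grp K Γ → ∀ M : ℝ, 1 ≤ M → ∃ c : ℝ, 0 < c ∧ c ≤ 1 ∧ ∀ ε' : ℝ, 0 < ε' → ∃ θ : ℝ, 0 < θ ∧
  ∀ (x : ℂ) (R l : ℝ) (A : ℂ →ₗ[ℝ] ℂ) (f : ℂ → ℂ), x ∈ K.T → 0 < R → R ≤ K.r₀ → 3 * M ^ 2 * (l * R) ≤ K.r₀ → Dist A l M → ContinuousOn f K.T →
  Set.MapsTo f K.T K.T → Near K.T f x R A (θ * l * R) → ∀ z ∈ K.T, ‖z - f x‖ < c * (l * R) → ∃ p ∈ K.T, ‖p - x‖ < R ∧ ‖f p - z‖ ≤ ε' * (l * R)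

/-- [HLE] (the image of a free ball touching `x`) from DEN, RCE.St_VV, RCE.St_SV. PROOF. `ε₁ = ε₄ = ε₃ / 4`, `c` of DEN, `c_a = c / (4 M)`, `θ` the minimum of `ε₄ c_a / 2`, of the one of DEN for `ε' = ε₄ c_a / 2` and of the one of VV for `ε₁`, `M`; `c₂ = 3 c_a / 4`. Singular values `L, μ` of `A`: `l ≤ |μ| =: l'` and `L ≤ M l`, `μ ≠ 0`, and
`L < (1 + ε₁) l'` by VV (`3 M |μ| R ≤ 3 M² l R`), so `l' |v| ≤ |A v| ≤ (1 + ε₁) l' |v|`, `l ≤ l' ≤ M l`. `ρ = c_a R`, `q = x + ρ n`: `ball q ρ ⊆ ball (x + ρ₀ n) ρ₀` is free. `w = y + A (ρ n)`, `ρ_w = (1 - ε₄) l' ρ`. Let `z ∈ T`, `|z - w| < ρ_w`. `|z - y| < 3 l' ρ ≤ 3 M l c_a R < c l R`, so by DEN there is `p ∈ T`, `|p - x| < R`,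
`|f p - z| ≤ ε' l R`. `l' |p - q| ≤ |A (p - x) - A (ρ n)| < (θ + ε') l R + (1 - ε₄) l' ρ ≤ l' ρ`, but `ball q ρ` is free. So `ball w ρ_w` is free. `|w - y| ≤ (1 + ε₁) l' ρ ≤ (1 + ε₃) ρ_w`, `c₂ l R ≤ ρ_w ≤ 2 M c₂ l R`. -/
def St_HLE : Prop := ∀ (K : Cp) (Γ : Subgroup (Equiv.Perm K.T)), Grp K Γ → ∀ M ε₃ : ℝ, 1 ≤ M → 0 < ε₃ → ε₃ ≤ 1 → ∃ θ c₂ : ℝ, 0 < θ ∧ θ ≤ 1 / 8 ∧ 0 < c₂ ∧ c₂ ≤ 1 ∧
  ∀ (x n : ℂ) (R l ρ₀ : ℝ) (A : ℂ →ₗ[ℝ] ℂ) (f : ℂ → ℂ), x ∈ K.T → 0 < R → R ≤ K.r₀ → R ≤ ρ₀ → 3 * M ^ 2 * (l * R) ≤ K.r₀ → Dist A l M → ContinuousOn f K.T →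
  Set.MapsTo f K.T K.T → Near K.T f x R A (θ * l * R) → ‖n‖ = 1 → Free K (x + ρ₀ * n) ρ₀ →
  ∃ (w : ℂ) (ρ : ℝ), c₂ * (l * R) ≤ ρ ∧ ρ ≤ 2 * M * c₂ * (l * R) ∧ Free K w ρ ∧ ‖w - f x‖ ≤ (1 + ε₃) * ρ

/-- [PA] from HLE, PRF, RCE.St_WIN, RCE.St_TF. PROOF. For `M ≥ 1` (use `max M 1`): `ε₃` of PRF for `Λ = 16 M²`, `θ M`, `c₂` of HLE for `M`, `ε₃`. `x ∈ PC j`: there are `n`, `|n| = 1`, and `ρ₀ = rr j` with `Free K (x + ρ₀ n) ρ₀`: `n = (K.c i - x) / K.r i` resp. `n = (x - c₀) / r₀`. WIN with `R₁ = min (R₀ / 2) (min ρ₀ r₀)`, `ε₂ = c₂`,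
`η = r₀ / (3 M²)`: for `0 < d < d₀` there are `R, l, A` with `d ≤ c₂ l R ≤ 8 M d`; HLE gives a free ball with `d ≤ ρ ≤ 2 M c₂ l R ≤ 16 M² d`. So `FB K (f x) ε₃ (16 M²)`; PRF. -/
def St_PA : Prop := ∀ (K : Cp) (Γ : Subgroup (Equiv.Perm K.T)), Grp K Γ → ∃ θ : ℝ → ℝ, (∀ M, 0 < θ M) ∧
  ∀ (f : ℂ → ℂ) (j : Option ℕ) (x : ℂ), ContinuousOn f K.T → Set.MapsTo f K.T K.T → x ∈ PC K j → AAffS K.T θ f x → ∃ j', f x ∈ PC K j'

/-! ## Carpets without non peripheral circles -/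

/-- identity or conjugation -/
def cj (σ : Bool) (ζ : ℂ) : ℂ := if σ then (starRingEnd ℂ) ζ else ζ

/-- [MB] (normalised Moebius maps are bounded) from RCE.St_FA, RCE.St_SPH, RCE.St_TF. PROOF. `γ` of FA for `(y, s)`. If `γ p = (α p + β) / (γ' p + δ)` take `σ = false`; with `p = y + s u ζ`: `γ p = (a' ζ + b') / (c' ζ + d')`, `a' = α s u`, `b' = α y + β`, `c' = γ' s u`, `d' = γ' y + δ`, `a' d' - b' c' = s u`. If `γ p = (α conj p + β) / (γ' conj p + δ)` take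
`σ = true`, `p = y + s u conj ζ`, `conj p = conj y + s conj u ζ`, and the same with `conj u`, `conj y`. Divide by a square root of the determinant. Let `m ζ = (a ζ + b) / (c ζ + d)`, `N ζ = |c ζ + d| / √(1 + |ζ|²)`. For `ζ ≠ ζ'` with `p, p' ∈ T`: `|m ζ - m ζ'| = |ζ - ζ'| / (|c ζ + d| |c ζ' + d|)` and
`dd y s p p' = |ζ - ζ'| / (√(1 + |ζ|²) √(1 + |ζ'|²))`, so by FA `1 / κ ≤ N ζ N ζ' ≤ κ`. `T` contains `y` (`ζ = 0`) and points with `|ζ| = 1`, `|ζ| = 1 / 2` (SPH). So for each `ζ` with `p ∈ T` there are two others, and `(N ζ)² = (N ζ N ζ') (N ζ N ζ'') / (N ζ' N ζ'')` is between `κ^{-3}` and `κ^3`: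
`κ^{-2} ≤ N ζ ≤ κ^2`. So `|d| ≤ κ²`, `|c| ≤ 3 κ²`, and `|a ζ + b| = |m ζ| |c ζ + d|` gives bounds of `b` and `a`. -/
def St_MB : Prop := ∀ (K : Cp) (Γ : Subgroup (Equiv.Perm K.T)), Grp K Γ → ∃ B : ℝ, 1 ≤ B ∧ ∀ (y u : ℂ) (s : ℝ), y ∈ K.T → 0 < s → s ≤ K.r₀ → ‖u‖ = 1 →
  ∃ (σ : Bool) (a b c d : ℂ), a * d - b * c = 1 ∧ ‖a‖ ≤ B ∧ ‖b‖ ≤ B ∧ ‖c‖ ≤ B ∧ ‖d‖ ≤ B ∧
    ∀ ζ : ℂ, y + s * u * cj σ ζ ∈ K.T → √(1 + ‖ζ‖ ^ 2) ≤ B * ‖c * ζ + d‖ ∧ (a * ζ + b) / (c * ζ + d) ∈ K.T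

/-- [CIR] (image of the real line) PROOF. `D = im (conj c d)`, `p = (a conj d - b conj c) / (-2 i D)`, `ρ = 1 / (2 |D|)`. `m ζ - p = (conj c ζ + conj d) / (2 i D (c ζ + d))` (uses `a d - b c = 1` and `c conj d - d conj c = -2 i D`), and `|conj c ζ + conj d| = |c conj ζ + d|`,
`|c conj ζ + d|² - |c ζ + d|² = -4 D im ζ`. For the last claim: `w ≠ a / c`, `ζ = (d w - b) / (a - c w)`, `m ζ = w`, and `im ζ = 0` by the formula. (`c ≠ 0` because `D ≠ 0`.) -/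
def St_CIR : Prop := ∀ a b c d : ℂ, a * d - b * c = 1 → ((starRingEnd ℂ) c * d).im ≠ 0 → ∃ (p : ℂ) (ρ : ℝ), 0 < ρ ∧
  (∀ ζ : ℂ, c * ζ + d ≠ 0 → ‖(a * ζ + b) / (c * ζ + d) - p‖ ^ 2 - ρ ^ 2 = -ζ.im / (((starRingEnd ℂ) c * d).im * ‖c * ζ + d‖ ^ 2)) ∧
  ∀ w : ℂ, ‖w - p‖ = ρ → w = a / c ∨ ∃ t : ℝ, c * t + d ≠ 0 ∧ (a * t + b) / (c * t + d) = w

/-- [TLQ] (a long segment close to `T` is close to a peripheral circle) from MB, CIR, RCE.St_TF. PROOF. Suppose not; for `c₁ = 1 / (n + 1)` there are `y_n, u_n, d_n`; `s_n = d_n / (n + 1)`. MB for `(y_n, u_n, s_n)`: `σ_n, a_n, ..., d_n`; pass to a subsequence with constant `σ` and convergent coefficients, `a d - b c = 1`. Let `m_n ζ`, `m ζ` be the Moebius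
maps. (1) Real `t`: for large `n` there is `p_n ∈ T`, `|p_n - (y_n + t s_n u_n)| ≤ s_n / (n + 1)`, so `p_n = y_n + s_n u_n cj σ ζ_n`, `|ζ_n - t| ≤ 1 / (n + 1)`. In the limit `√(1 + t²) ≤ B |c t + d|` and `m t ∈ T` (`T` is closed). So `c ≠ 0`, `D = im (conj c d) ≠ 0` (take `t = - re (conj c d) / |c|²`), and `a / c = lim_{t → ∞} m t ∈ T`.
(2) CIR: `sphere p ρ ⊆ T`, so by `NPC` it is `PC j`. (3) Let `κ' = ±1` be the sign of `D` if `j = some i` and the opposite sign if `j = none`, `ω = κ' i (1 + ε₃)`. By assumption `ball (y_n + s_n u_n cj σ ω) s_n` is not free: there are `ζ_n` with `y_n + s_n u_n cj σ ζ_n ∈ T`, `|ζ_n - ω| < 1`. A subsequence converges to `ζ`, `|ζ - ω| ≤ 1`, so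
`κ' im ζ ≥ ε₃ > 0`, `c ζ + d ≠ 0` and `m ζ ∈ T`. By CIR `|m ζ - p| < ρ` if `j = some i` and `> ρ` if `j = none`: not in `T`, a contradiction. -/
def St_TLQ : Prop := ∀ (K : Cp) (Γ : Subgroup (Equiv.Perm K.T)), Grp K Γ → NPC K → ∀ ε₃ : ℝ, 0 < ε₃ → ∃ c₁ : ℝ, 0 < c₁ ∧ c₁ ≤ 1 ∧
  ∀ (y u : ℂ) (d : ℝ), y ∈ K.T → 0 < d → d ≤ K.r₀ → ‖u‖ = 1 → (∀ t : ℝ, |t| ≤ 1 → ∃ p ∈ K.T, ‖p - (y + t * d * u)‖ ≤ c₁ ^ 2 * d) →
  ∃ w : ℂ, Free K w (c₁ * d) ∧ ‖w - y‖ ≤ (1 + ε₃) * (c₁ * d)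

/-- [LIN] (images of peripheral circles are almost straight) PROOF. `θ = min (ε / 16) (1 / 64)` (constant). Let `PC j = sphere c r`, `τ = i (x - c) / r`. For `0 < R ≤ r`, `|t| ≤ 1` let `p_t = c + (x - c) exp (i t R / (2 r))`: `|p_t - x| < R`, `|p_t - x - (t R / 2) τ| ≤ R² / (8 r)`. With `d_R = (R / 2) |A τ| ≥ l R / 2`, `u = A τ / |A τ|`:
`|f p_t - (y + t d_R u)| ≤ θ l R + M l R² / (8 r) ≤ 4 θ d_R` if `M R / (8 r) ≤ θ`. Consecutive scales `R`, `R / 2`: the point `p` for `(R, t = 1/2)` is the one for `(R / 2, t = 1)`, so `|f p - y|` is between `(1/2 ± 4 θ) d_R` and between `(1 ± 4 θ) d_{R/2}`: `d_R / 4 ≤ d_{R/2} ≤ 3 d_R / 4`. So for `R_k = R_1 / 2^k`: `d_{R_k} → 0`, and for small `d`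
there is `k` with `d ≤ d_{R_k} ≤ 4 d`; for `|t| ≤ 1` use `t' = t d / d_{R_k}`: the error is `≤ 4 θ d_{R_k} ≤ 16 θ d ≤ ε d`. -/
def St_LIN : Prop := ∀ (K : Cp) (ε : ℝ), 0 < ε → ∃ θ : ℝ → ℝ, (∀ M, 0 < θ M) ∧ ∀ (f : ℂ → ℂ) (j : Option ℕ) (x : ℂ), x ∈ PC K j →
  Set.MapsTo f (PC K j) K.T → AAffS (PC K j) θ f x → NLN K (f x) ε

/-- [PB] from TLQ, LIN, PRF. PROOF. `ε₃` of PRF for `Λ = 1`, `c₁` of TLQ, LIN for `ε = c₁²`. For `0 < d' < c₁ min d₀ r₀` use `d = d' / c₁` in `NLN` and TLQ: a free ball of radius `d'` which almost touches `f x`. So `FB K (f x) ε₃ 1`. -/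
def St_PB : Prop := ∀ (K : Cp) (Γ : Subgroup (Equiv.Perm K.T)), Grp K Γ → NPC K → ∃ θ : ℝ → ℝ, (∀ M, 0 < θ M) ∧
  ∀ (f : ℂ → ℂ) (j : Option ℕ) (x : ℂ), x ∈ PC K j → Set.MapsTo f (PC K j) K.T → AAffS (PC K j) θ f x → ∃ j', f x ∈ PC K j'

/-! ## Connected sets which are on peripheral circles up to a small set -/

/-- [KAP] PROOF. `C = 1 + 2 / c`, `κ = 1 / C`. Let `g₂ ≤ g₁`; `r ≤ g₂ / c`, so `g ≤ g₁ + C g₂`. If `g₁ = 0` all is `0`. `t = g₂ / g₁ ∈ [0, 1]`: `(1 + C t)^κ ≤ 1 + κ C t = 1 + t ≤ 1 + t^κ` (`Real.rpow_one_add_le_one_add_mul_self`); multiply by `g₁^κ`. -/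
def St_KAP : Prop := ∀ c : ℝ, 0 < c → c ≤ 1 → ∃ κ : ℝ, 0 < κ ∧ κ ≤ 1 ∧
  ∀ g₁ g₂ r g : ℝ, 0 ≤ r → c * r ≤ g₁ → c * r ≤ g₂ → 0 ≤ g → g ≤ g₁ + g₂ + 2 * r → g ^ κ ≤ g₁ ^ κ + g₂ ^ κ

/-- [CHN] (chains) PROOF. (1) Claim: if `a < b ≤ n` and `rad (O k) ≤ rad (O a)`, `rad (O k) ≤ rad (O b)` for `a < k < b`, then there are `p ∈ os (O a)`, `q ∈ os (O b)` with `|p - q|^κ ≤ ∑_{a ≤ k < b} (g k)^κ`. Induction on `b - a`; `b = a + 1` is clear. Otherwise let `a < k < b` have the greatest `rad (O k)`; by induction there are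
`p ∈ os (O a)`, `p' ∈ os (O k)` and `q' ∈ os (O k)`, `q ∈ os (O b)` for the two parts. If `O a = O k` use `q'` and `q`; if `O k = O b` use `p` and `p'`. Otherwise `c rad (O k) ≤ |p - p'|` (if `O k` is a point `rad = 0`; if it is a circle then `rad (O a) > 0`, so `O a` is another circle of at least the same radius) and `c rad (O k) ≤ |q' - q|`, and
`|p - q| ≤ |p - p'| + |q' - q| + 2 rad (O k)`: use the inequality for `κ`. (2) Let `rr i ≤ rr j` (otherwise reverse the chain). Let `b` be the least `k ≥ 1` with `O k ≠ O 0` and `rad (O k) ≥ rr i` (`k = n` has this), `a` the greatest `k < b` with `O k = O 0`. For `a < k < b`: `rad (O k) < rr i`. (1) gives `p, q`; `O b` is a circle other than `i` (`rad > 0`),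
so `c rr i ≤ |p - q|`. -/
def St_CHN : Prop := ∀ (K : Cp) (c κ : ℝ), 0 < c → 0 < κ → κ ≤ 1 →
  (∀ g₁ g₂ r g : ℝ, 0 ≤ r → c * r ≤ g₁ → c * r ≤ g₂ → 0 ≤ g → g ≤ g₁ + g₂ + 2 * r → g ^ κ ≤ g₁ ^ κ + g₂ ^ κ) →
  (∀ i j : Option ℕ, i ≠ j → ∀ p ∈ PC K i, ∀ q ∈ PC K j, c * min (rr K i) (rr K j) ≤ ‖p - q‖) →
  ∀ (n : ℕ) (O : ℕ → ℂ ⊕ Option ℕ) (g : ℕ → ℝ) (i j : Option ℕ), i ≠ j → O 0 = Sum.inr i → O n = Sum.inr j →
  (∀ k, k < n → ∃ p ∈ os K (O k), ∃ q ∈ os K (O (k + 1)), ‖p - q‖ ≤ g k) →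
  (c * min (rr K i) (rr K j)) ^ κ ≤ ∑ k ∈ Finset.range n, (g k) ^ κ

/-- [HPA] (covers by small open sets) PROOF. `MeasureTheory.Measure.hausdorffMeasure_apply`: there are sets `t n` which cover `Z` with `∑ diam (t n)^κ < ε / 2`; take open thickenings of width `η_n` with `∑ (2 η_n)^κ < ε / 2` and use `(a + b)^κ ≤ a^κ + b^κ` (empty `t n` give empty `U n`, `δ n = 0`). -/
def St_HPA : Prop := ∀ κ : ℝ, 0 < κ → κ ≤ 1 → ∀ Z : Set ℂ, MeasureTheory.Measure.hausdorffMeasure κ Z = 0 → ∀ ε : ℝ, 0 < ε →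
  ∃ (U : ℕ → Set ℂ) (δ : ℕ → ℝ), (∀ n, IsOpen (U n)) ∧ Z ⊆ ⋃ n, U n ∧ (∀ n, 0 ≤ δ n) ∧ (∀ n, ∀ p ∈ U n, ∀ q ∈ U n, ‖p - q‖ ≤ δ n) ∧
    ∀ N, ∑ n ∈ Finset.range N, (δ n) ^ κ ≤ ε

/-- [HPB] (chains of open sets) PROOF. Let `P` be the set of indices in `F` which can be reached from `a` by a chain of members which meet consecutively. The union of the `W i`, `i ∈ P`, and the union of the other ones are open and disjoint, cover `J`, and the first meets `J`; `J` is preconnected, so `J` does not meet the second, and `b` is reached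
(if `W b` meets `J` in a point of a reached `W i`, then `b` is reached too). Take a shortest chain (or `SimpleGraph.Walk.toPath`): it is injective. -/
def St_HPB : Prop := ∀ (ι : Type) (F : Finset ι) (W : ι → Set ℂ) (J : Set ℂ), IsPreconnected J → (∀ i ∈ F, IsOpen (W i)) → (J ⊆ ⋃ i ∈ F, W i) →
  ∀ a ∈ F, ∀ b ∈ F, (J ∩ W a).Nonempty → (J ∩ W b).Nonempty → ∃ (n : ℕ) (s : ℕ → ι), s 0 = a ∧ s n = b ∧ (∀ k, k ≤ n → s k ∈ F) ∧
    (∀ k, k < n → (W (s k) ∩ W (s (k + 1))).Nonempty) ∧ Set.InjOn s (Set.Iic n)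

/-- [HOP] from RSP, KAP, CHN, HPA, HPB. PROOF. `c` of RSP, `κ` of KAP, `Z = J \ ⋃ PC j`. (A) `J` meets two different circles `i`, `j`. `ε = (c min (rr i) (rr j))^κ / 8`. HPA for `Z`, `ε`: `U n, δ n`; for the circles `m : Option ℕ` take the open `ε_m`-neighbourhoods of `PC m` with `∑ ε_m^κ ≤ ε` (`ε_m > 0`). Index type `ι = ℕ ⊕ Option ℕ`. `J` is compact: a finite
subfamily (with `i` and `j`) covers it; HPB: an injective chain `s`. `O k` = a point of `U n` if `s k = inl n` and the circle `m` if `s k = inr m`; `size` = `δ n` resp. `ε_m`; a common point of `W (s k)` and `W (s (k+1))` shows the hypothesis of CHN for `g k = size (s k) + size (s (k + 1))`. `∑ (g k)^κ ≤ 2 ∑ size^κ ≤ 4 ε < (c min)^κ`, against CHN.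
(B) Otherwise `J` meets at most one circle. Suppose it is not inside of it, `z₀ ∈ Z`, and let `φ p = |p - z₀|`. `φ(J)` is preconnected, contains `0` and a positive number, and `φ` is bounded from below by a positive constant on the part of `J` on the circle (compact). So `φ(Z)` contains some `[0, δ)`; but `μH[1] (φ(Z)) ≤ μH[κ] (φ(Z)) ≤ μH[κ] Z = 0` (`φ` is 1-Lipschitz,
`hausdorffMeasure_mono`), and `μH[1]` is the Lebesgue measure of `ℝ`. -/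
def St_HOP : Prop := ∀ (K : Cp) (Γ : Subgroup (Equiv.Perm K.T)), Grp K Γ → ∃ κ : ℝ, 0 < κ ∧ κ ≤ 1 ∧ ∀ J : Set ℂ, J ⊆ K.T → IsCompact J → IsPreconnected J →
  J.Nontrivial → MeasureTheory.Measure.hausdorffMeasure κ (J \ ⋃ j, PC K j) = 0 → ∃ j, J ⊆ PC K j

/-! ## Topology -/

/-- [LGC] (continuous logarithms on retracts) PROOF. `Complex.exists_continuousOn_eqOn_exp_comp` for `U = univ` and `g ∘ π`. -/
def St_LGC : Prop := ∀ (S : Set ℂ) (π : ℂ → ℂ), Continuous π → (∀ p, π p ∈ S) → (∀ p ∈ S, π p = p) → ∀ g : ℂ → ℂ, ContinuousOn g S → (∀ p ∈ S, g p ≠ 0) →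
  ∃ h : ℂ → ℂ, ContinuousOn h S ∧ ∀ p ∈ S, Complex.exp (h p) = g p

/-- [LGB] from LGC. PROOF. The radial retraction `π p = c + (min 1 (r / |p - c|)) (p - c)` is continuous. -/
def St_LGB : Prop := ∀ (c : ℂ) (r : ℝ) (g : ℂ → ℂ), 0 < r → ContinuousOn g (closedBall c r) → (∀ p ∈ closedBall c r, g p ≠ 0) →
  ∃ h : ℂ → ℂ, ContinuousOn h (closedBall c r) ∧ ∀ p ∈ closedBall c r, Complex.exp (h p) = g p

/-- [LGA] (annulus) from LGC. PROOF. `H (s, φ) = (1 - s) (c₁ + r₁ exp (2 π i φ)) + s (c₀ + r₀ exp (2 π i φ))`, `s, φ ∈ [0, 1]`, is in the annulus: it is on the circle with centre `(1-s) c₁ + s c₀` and radius `(1-s) r₁ + s r₀`, which is in `closedBall c₀ r₀` and outside of `ball c₁ r₁` (`|c₁ - c₀| + r₁ ≤ r₀`). LGC for the square `{z | 0 ≤ re z ≤ 1, 0 ≤ im z ≤ 1}` (retraction by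
`min` and `max` of the coordinates): `exp (L (s + i φ)) = g (H (s, φ))`. `L (s + i) - L s` is continuous in `s` with values in `2 π i ℤ`, so constant; for `s = 1` it is `0`, because `L (1 + i φ)` and `h (H (1, φ))` differ by a constant. So `L (0 + i φ)`, `0 ≤ φ ≤ 1`, has the same values at both ends, and gives a continuous function on `sphere c₁ r₁` (the map `[0, 1] → sphere` is a
quotient map: a continuous surjection from a compact space). -/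
def St_LGA : Prop := ∀ (c₀ c₁ : ℂ) (r₀ r₁ : ℝ) (g : ℂ → ℂ), 0 < r₁ → closedBall c₁ r₁ ⊆ ball c₀ r₀ → ContinuousOn g (closedBall c₀ r₀ \ ball c₁ r₁) →
  (∀ p ∈ closedBall c₀ r₀ \ ball c₁ r₁, g p ≠ 0) → (∃ h : ℂ → ℂ, ContinuousOn h (sphere c₀ r₀) ∧ ∀ p ∈ sphere c₀ r₀, Complex.exp (h p) = g p) →
  ∃ h : ℂ → ℂ, ContinuousOn h (sphere c₁ r₁) ∧ ∀ p ∈ sphere c₁ r₁, Complex.exp (h p) = g p

/-- [LGH] (half plane) PROOF. For `|q - c| ≤ r ≤ |z - c|`, `q ≠ z`: `re ((q - z) conj (c - z)) > 0` (`= |c - z|² + re ((q - c) conj (c - z)) ≥ |c - z|² - r |c - z| ≥ 0`, with equality only for `q = z`). `h q = log ((q - z) / (c - z)) + log (c - z)`. -/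
def St_LGH : Prop := ∀ (c z : ℂ) (r : ℝ), 0 < r → r ≤ ‖z - c‖ → ∃ h : ℂ → ℂ, ContinuousOn h (closedBall c r \ {z}) ∧
  ∀ q ∈ closedBall c r \ {z}, Complex.exp (h q) = q - z

/-- [NIR] PROOF. `ψ θ = φ (c + r exp (i θ)) - φ (c - r exp (i θ))`, `ψ (θ + π) = - ψ θ`, has a zero. -/
def St_NIR : Prop := ∀ (c : ℂ) (r : ℝ), 0 < r → ¬ ∃ φ : ℂ → ℝ, ContinuousOn φ (sphere c r) ∧ Set.InjOn φ (sphere c r)

/-- [NLG] from NIR. PROOF. If `h` is such a logarithm, `im h` is injective on `sphere c r`: if `im (h x) = im (h x')` then `g x' - z = λ (g x - z)` with `λ > 0`, and a ray from the interior point `z` meets the circle `sphere p ρ` once, so `g x = g x'`. -/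
def St_NLG : Prop := ∀ (c p z : ℂ) (r ρ : ℝ) (g : ℂ → ℂ), 0 < r → ContinuousOn g (sphere c r) → Set.InjOn g (sphere c r) → Set.MapsTo g (sphere c r) (sphere p ρ) →
  ‖z - p‖ < ρ → ¬ ∃ h : ℂ → ℂ, ContinuousOn h (sphere c r) ∧ ∀ x ∈ sphere c r, Complex.exp (h x) = g x - z

/-- [SRC] from NIR. PROOF. If `w ∈ sphere p ρ` is not in the image, compose `g` with the continuous injective map `q ↦ re (i (1 + u) / (1 - u))`, `u = (q - p) / (w - p)`, `|u| = 1`, `u ≠ 1`, of `sphere p ρ \ {w}` to `ℝ`. -/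
def St_SRC : Prop := ∀ (c p : ℂ) (r ρ : ℝ) (g : ℂ → ℂ), 0 < r → 0 < ρ → ContinuousOn g (sphere c r) → Set.InjOn g (sphere c r) →
  Set.MapsTo g (sphere c r) (sphere p ρ) → ∀ w ∈ sphere p ρ, ∃ x ∈ sphere c r, g x = w

/-- [BIG] from RCE.St_PK. PROOF. The centres of these discs are `ε`-separated (different discs are disjoint) in a bounded set. -/
def St_BIG : Prop := ∀ (K : Cp) (ε : ℝ), 0 < ε → {i : ℕ | ε ≤ K.r i}.Finite

/-- [EXT] (extension over holes) from BIG, RCE.St_TF. PROOF. For `p ∈ ball (c n) (r n)`, `n ∈ I`: `F p = c (τ n) + (|p - c n| / r n) (f (c n + r n (p - c n) / |p - c n|) - c (τ n))`, `F (c n) = c (τ n)`; otherwise `F p = f p`. On `closedBall (c n) (r n)` it is continuous, and `|F p - c (τ n)| = |p - c n| / r n · r (τ n)`. Continuity at `x ∈ T` (at points of the open balls it is clear):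
given `ε`, for all but finitely many `n ∈ I` the radii `r n` and `r (τ n)` are `< ε` (BIG, `τ` injective on `I`); for such `n` and `p ∈ ball (c n) (r n)` near `x`, a boundary point `q` of the disc on the segment from `p` to `x` has `|F p - f q| ≤ 2 r (τ n)`. For each of the finitely many other `n`: if `x ∉ closedBall (c n) (r n)` a neighbourhood of `x` does not meet it; otherwise use
continuity of `F` on `closedBall (c n) (r n)`. -/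
def St_EXT : Prop := ∀ (K : Cp) (f : ℂ → ℂ) (I : Set ℕ) (τ : ℕ → ℕ), ContinuousOn f K.T → Set.InjOn τ I →
  (∀ n ∈ I, Set.MapsTo f (sphere (K.c n) (K.r n)) (sphere (K.c (τ n)) (K.r (τ n)))) →
  ∃ F : ℂ → ℂ, ContinuousOn F (closedBall K.c₀ K.r₀ \ ⋃ n ∈ Iᶜ, ball (K.c n) (K.r n)) ∧ (∀ p ∈ K.T, F p = f p) ∧
    ∀ n ∈ I, ∀ p ∈ ball (K.c n) (K.r n), F p ∈ ball (K.c (τ n)) (K.r (τ n))

/-- [TOP] from LGB, LGA, LGH, NLG, SRC, EXT, RCE.St_TF. PROOF. By SRC `f (PC j) = PC (τ j)`, so `τ` is injective (`f` is injective, different circles are disjoint). Suppose `z ∈ T \ f '' T`. Then `z` is not on any `PC (τ j)` and not in any hole. (1) `τ none = none`. EXT for `I = univ` and the induced map `ℕ → ℕ`: `F` on `closedBall c₀ r₀`, `F p ≠ z` (in the balls because `z` is in no hole).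
LGB for `F - z`: `f - z` has a logarithm on `PC none`, against NLG (`|z - c₀| < r₀`, `z ∉ PC none = f (PC none)`). (2) `τ (some n) = none` for some `n`, `τ none = some m`. EXT for `I = {n}ᶜ`: `F` on `closedBall c₀ r₀ \ ball (c n) (r n)`, `F p ≠ z`. On `PC none` the map `f - z` has a logarithm: LGH for `c m, r m`, `z`, composed with `f` (`z ∉ f (PC none)`, `z` not in the hole `m`). LGA: also
on `PC (some n)`, against NLG (`f` maps it into `PC none`, and `z ∉ PC none = f (PC (some n))`, so `|z - c₀| < r₀`). (3) `τ none = some m` and no `τ (some n)` is `none`. Here take `z = c m` instead: EXT for `I = univ`: `F p ≠ c m` (`f p ∈ T`; other holes are disjoint from the hole `m`, `τ n ≠ m`). LGB: `f - c m` has a logarithm on `PC none`, against NLG. -/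
def St_TOP : Prop := ∀ (K : Cp) (f : ℂ → ℂ) (τ : Option ℕ → Option ℕ), ContinuousOn f K.T → Set.MapsTo f K.T K.T → Set.InjOn f K.T →
  (∀ j, Set.MapsTo f (PC K j) (PC K (τ j))) → f '' K.T = K.T

/-! ## The four conditions -/

/-- [GDF] PROOF. As `RCE/DIF.lean` (the set `K.T` is arbitrary there). -/
def St_GDF : Prop := ∀ (S : Set ℂ) (θ : ℝ → ℝ) (f : ℂ → ℂ) (x : ℂ), (∀ M, 0 < θ M) → Reg S f x → AAffS S θ f x

/-- [GGF] from RCE.St_STB. PROOF. As `RCE/GAF.lean` (theorems `GAF_one`, `thm_GAF`) with `S` instead of `K.T`, `r` instead of `K.r₀` and `Ell` instead of `GAF_ell`. -/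
def St_GGF : Prop := ∀ θ : ℝ → ℝ, (∀ M, 0 < θ M) → ∃ θ' : ℝ → ℝ, (∀ M, 0 < θ' M) ∧ ∀ (S : Set ℂ) (f : ℂ → ℂ) (x : ℂ) (r : ℝ), x ∈ S → 0 < r → Ell S x r →
  GAf S θ' f x → AAffS S θ f x

/-- [GQS] from RCE.St_STB. PROOF. As `RCE/ALM.lean` and `RCE/QSL.lean` with `S` instead of `K.T`, `r` instead of `K.r₀` and `Ell` (for the identity, `l = M = 1`) instead of `SPH`. -/
def St_GQS : Prop := ∀ θ : ℝ → ℝ, (∀ M, 0 < θ M) → ∃ ε : ℝ, 0 < ε ∧ ∀ (S : Set ℂ) (f : ℂ → ℂ) (x : ℂ) (r R₀ : ℝ), x ∈ S → 0 < r → Ell S x r → 0 < R₀ →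
  AlmSim S f x R₀ ε → Set.InjOn f (S ∩ ball x R₀) → AAffS S θ f x

/-- [GQM] PROOF. As `RCE/QML.lean` with `S` instead of `K.T`, `r` instead of `K.r₀` and `Ell` (for the identity) instead of `SPH`. -/
def St_GQM : Prop := ∀ (S : Set ℂ) (f : ℂ → ℂ) (ε R r : ℝ) (x : ℂ), 0 < ε → 0 < R → x ∈ S → 0 < r → Ell S x r → ContinuousOn f (S ∩ ball x R) →
  Set.InjOn f (S ∩ ball x R) → (∀ a ∈ S ∩ ball x R, ∀ b ∈ S ∩ ball x R, ∀ c ∈ S ∩ ball x R, ∀ d ∈ S ∩ ball x R, a ≠ c → b ≠ d → cr a b c d ≤ 2 →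
    |cr (f a) (f b) (f c) (f d) - cr a b c d| ≤ ε) → ∃ R₀ : ℝ, 0 < R₀ ∧ R₀ ≤ R ∧ AlmSim S f x R₀ (4 * ε)

/-- [CON] from GDF, GGF, GQS, GQM. PROOF. `θ'` of GGF, `ε = ε₁ / 4` with `ε₁` of GQS (`AlmSim` is monotone in `ε` and in the radius). -/
def St_CON : Prop := ∀ θ : ℝ → ℝ, (∀ M, 0 < θ M) → ∃ (θ' : ℝ → ℝ) (ε : ℝ), (∀ M, 0 < θ' M) ∧ 0 < ε ∧ ∀ (S : Set ℂ) (f : ℂ → ℂ) (x : ℂ) (r : ℝ), x ∈ S → 0 < r →
  Ell S x r → ContinuousOn f S → Good S θ' ε f x → AAffS S θ f x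

/-- [ELT] from RCE.St_CC, RCE.St_TF. PROOF. `RCE.GAF_ell` in `RCE/GAF.lean`. -/
def St_ELT : Prop := ∀ (K : Cp) (x : ℂ), x ∈ K.T → Ell K.T x K.r₀

/-- [ELC] PROOF. The circle is connected, `p ↦ |A (p - x)|` is continuous, `0` at `x` and at least `2 l rr` at the antipode of `x` (`IsPreconnected.intermediate_value`). -/
def St_ELC : Prop := ∀ (K : Cp) (j : Option ℕ) (x : ℂ), x ∈ PC K j → Ell (PC K j) x (rr K j)

/-- the main theorem -/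
def Main : Prop := ∀ (K : Cp) (Γ : Subgroup (Equiv.Perm K.T)), Grp K Γ → ∃ (κ ε : ℝ) (θ : ℝ → ℝ), 0 < κ ∧ 0 < ε ∧ (∀ M, 0 < θ M) ∧
  ∀ f : ℂ → ℂ, ContinuousOn f K.T → Set.MapsTo f K.T K.T → Set.InjOn f K.T →
    MeasureTheory.Measure.hausdorffMeasure κ (f '' {x | ∃ j, x ∈ PC K j ∧ ¬ Good K.T θ ε f x ∧ ¬ (NPC K ∧ Good (PC K j) θ ε f x)}) = 0 → f '' K.T = K.T

/-- [FIN] from PA, PB, CON, ELT, ELC, HOP, TOP, RCE.St_TF. PROOF. `θ₀ M` = the minimum of the ones of PA and (if `NPC`) of PB (`AAffS` is monotone in `θ`); `θ`, `ε` of CON for `θ₀`; `κ` of HOP. For each `j` the set `J = f '' (PC j)` is compact, preconnected, nontrivial, and if `x ∈ PC j` is not exceptional then `f x` is on a peripheral circle (CON, PA for `S = T`; CON, PB for `S = PC j`).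
So `J \ ⋃ PC` is a part of the null set, and HOP gives `τ j` with `J ⊆ PC (τ j)`. TOP. -/
def St_FIN : Prop := St_PA → St_PB → St_CON → St_ELT → St_ELC → St_HOP → St_TOP → RCE.St_TF → Main

end RCP
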