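import Pool.Agent.RCP.St

/-!
# RCP: two free balls which almost touch the same point meet
-/

set_option autoImplicit false

namespace RCP

open Metric RCE

private lemma TWB_far (p y : ℂ) (τ s : ℝ) (hτ : 0 ≤ τ) (h : closedBall p τ ⊆ ball y s) :
    ‖p - y‖ + τ ≤ s := by
  by_cases h0 : p - y = 0
  · have h1 : p + (τ : ℂ) ∈ closedBall p τ := by
      rw [mem_closedBall, dist_eq_norm, add_sub_cancel_left, Complex.norm_real, Real.norm_eq_abs,
        abs_of_nonneg hτ]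
    have h2 := h h1
    rw [mem_ball, dist_eq_norm] at h2
    have h3 : p + (τ : ℂ) - y = (τ : ℂ) := by
      have : p = y := sub_eq_zero.1 h0
      rw [this]
      ring
    rw [h3, Complex.norm_real, Real.norm_eq_abs, abs_of_nonneg hτ] at h2
    rw [h0, norm_zero, zero_add]
    exact h2.le
  · have hn : 0 < ‖p - y‖ := norm_pos_iff.2 h0
    have h1 : p + ((τ / ‖p - y‖ : ℝ) : ℂ) * (p - y) ∈ closedBall p τ := by
      rw [mem_closedBall, dist_eq_norm, add_sub_cancel_left, norm_mul, Complex.norm_real,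
        Real.norm_eq_abs, abs_of_nonneg (div_nonneg hτ hn.le), div_mul_cancel₀ _ hn.ne']
    have h2 := h h1
    rw [mem_ball, dist_eq_norm] at h2
    have h3 : p + ((τ / ‖p - y‖ : ℝ) : ℂ) * (p - y) - y =
        ((1 + τ / ‖p - y‖ : ℝ) : ℂ) * (p - y) := by
      push_cast
      ring
    rw [h3, norm_mul, Complex.norm_real, Real.norm_eq_abs,
      abs_of_nonneg (by positivity), add_mul, one_mul, div_mul_cancel₀ _ hn.ne'] at h2
    exact h2.le

theorem thm_TWB (hSQZ : St_SQZ) (hHOL : RCE.St_HOL) : St_TWB := by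
  intro K Γ hG Λ hΛ
  obtain ⟨c, hc0, hc1, hH⟩ := hHOL K Γ hG
  obtain ⟨ε, η, hε0, hε1, hη0, hη1, hS⟩ := hSQZ c Λ hc0 hc1 hΛ
  refine ⟨ε, hε0, hε1, ?_⟩
  intro y w w' ρ ρ' hy hρ hρ' h1 h2 hmin hF hF' hw hw'
  by_contra hcon
  rw [not_lt] at hcon
  have hm : 0 < min ρ ρ' := lt_min hρ hρ'
  have hs : 0 < η * min ρ ρ' := mul_pos hη0 hm
  have hsr : η * min ρ ρ' ≤ K.r₀ :=
    (mul_le_of_le_one_left hm.le hη1).trans hmin
  obtain ⟨p, τ, hτ, hsub, hT, -⟩ := hH y (η * min ρ ρ') hy hs hsr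
  have hτ0 : 0 ≤ τ := (mul_nonneg hc0.le hs.le).trans hτ
  refine hS y w w' p ρ ρ' (η * min ρ ρ') τ hρ hρ' h1 h2 ?_ ?_ hw hw' hcon rfl hτ
    (TWB_far p y τ _ hτ0 hsub) ?_
  · rw [norm_sub_rev]
    exact hF y hy
  · rw [norm_sub_rev]
    exact hF' y hy
  · intro z hz
    have hz' : z ∈ K.T := hT (by rw [mem_sphere, dist_eq_norm]; exact hz)
    exact ⟨hF z hz', hF' z hz'⟩

end RCP
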